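import Mathlib

/-!
# Combinatorial frames without classes

`M` horizontal edges at the heights `0, …, M-1` (the edge `i` goes from the position `L i` to the
position `R i`), `M` walls at the positions `0, …, M-1` (the wall `j` goes from the height `D j`
to the height `T j`); the first and the last edge and wall form the outer box.
-/

namespace Pool.Agent.Helper68.PY

/-- Combinatorial orthogonal polygon (holes allowed) in a box. -/
structure Fr0 (M : ℕ) where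
  L : ℕ → ℕ
  R : ℕ → ℕ
  D : ℕ → ℕ
  T : ℕ → ℕ
  hM : 3 ≤ M
  LR : ∀ i < M, L i < R i
  R_lt : ∀ i < M, R i < M
  DT : ∀ j < M, D j < T j
  T_lt : ∀ j < M, T j < M
  low : ∀ j < M, L (D j) = j ∨ R (D j) = j
  high : ∀ j < M, L (T j) = j ∨ R (T j) = j
  left : ∀ i < M, D (L i) = i ∨ T (L i) = i
  right : ∀ i < M, D (R i) = i ∨ T (R i) = i
  nc : ∀ i < M, ∀ j < M, D j < i → i < T j → ¬ (L i < j ∧ j < R i)
  L0 : L 0 = 0
  R0 : R 0 = M - 1
  L1 : L (M - 1) = 0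
  R1 : R (M - 1) = M - 1

/-- The open index box `(l, r) × (b, t)` meets neither an edge nor a wall. -/
def Fr0.FreeBox {M : ℕ} (F : Fr0 M) (l r b t : ℕ) : Prop :=
  (∀ e < M, b < e → e < t → ¬ (F.L e < r ∧ l < F.R e)) ∧
    (∀ w < M, l < w → w < r → ¬ (F.D w < t ∧ b < F.T w))

/-- The vertex `(c, h)` sees the unit cell `(j, j+1) × (i, i+1)`: both are in the closure of
a free box. -/
def Fr0.SeesCell {M : ℕ} (F : Fr0 M) (c h j i : ℕ) : Prop :=
  ∃ l r b t, l ≤ j ∧ j < r ∧ b ≤ i ∧ i < t ∧ r < M ∧ t < M ∧ l ≤ c ∧ c ≤ r ∧ b ≤ h ∧ h ≤ t ∧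
    F.FreeBox l r b t

/-- Every unit cell of the box is seen by a vertex of `S`. -/
def Fr0.Guards {M : ℕ} (F : Fr0 M) (S : Finset (ℕ × ℕ)) : Prop :=
  ∀ j i, j + 1 < M → i + 1 < M → ∃ p ∈ S, F.SeesCell p.1 p.2 j i

/-- `S` consists of vertices that are not corners of the outer box. -/
def Fr0.Inner {M : ℕ} (F : Fr0 M) (S : Finset (ℕ × ℕ)) : Prop :=
  ∀ p ∈ S, 0 < p.2 ∧ p.2 + 1 < M ∧ (p.1 = F.L p.2 ∨ p.1 = F.R p.2)

end Pool.Agent.Helper68.PY
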