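import Pool.Agent.Helper68.PY.Two

/-!
# The rectangles are connected through common pairs
-/

namespace Pool.Agent.Helper68.PY

namespace Fr

variable {M : ℕ} (F : Fr M)

/-- `P` does not separate the two rectangles of a pair. -/
def Coh (P : ℕ × ℕ × ℕ → Prop) : Prop :=
  ∀ a b R1 R2, a < M → b < M → ¬ ((a = 0 ∨ a + 1 = M) ∧ (b = 0 ∨ b + 1 = M)) → R1 ≠ R2 →
    F.QQ a b = {R1, R2} → (P R1 ↔ P R2)

theorem Coh.swap {P : ℕ × ℕ × ℕ → Prop} (h : F.Coh P) : F.swap.Coh P := by
  intro a b R1 R2 ha hb hc hne hQ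
  refine h b a R1 R2 hb ha (fun h' => hc ⟨h'.2, h'.1⟩) hne ?_
  rw [← F.swap_QQ b a]
  exact hQ

/-- One step towards the left upper corner. -/
theorem step {P : ℕ × ℕ × ℕ → Prop} (hP : F.Coh P) {l r s : ℕ} (hR : F.IsRec l r s)
    (hA : F.A (F.T l) = l) :
    (l = 0 ∧ (l, r, s) ∈ F.ZR 0 (M - 1) 0) ∨
      ∃ R', F.IsRec R'.1 R'.2.1 R'.2.2 ∧ (R'.1 < l ∨ (R'.1 = l ∧ R'.2.1 < r)) ∧
        (P (l, r, s) ↔ P R') := by
  have hlt := F.isRec_lt hR
  have hw : l + 1 < M := by omega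
  obtain ⟨hr, hrun⟩ := (F.isRec_right hw).1 hR
  have hc : Cr F.D F.T s l := ⟨hrun.1, hrun.2.1⟩
  obtain ⟨a, ha⟩ := exists_NS (F.rho l) (F.T l) s hrun.2.1
  obtain ⟨b, hb⟩ := exists_PS (F.rho l) (F.D l) s hrun.1
  have hU := (F.up_of_NS hw hA hc ha).1
  have hL := (F.dn_of_PS hw hA hc hb).1
  rw [← hr] at hU hL
  have hba : b < a := lt_of_le_of_lt hL.1 hU.1
  have haM : a < M := hU.2.1
  have hmem : (l, r, s) ∈ F.ZR l a b := ⟨⟨hR, Or.inr hU, Or.inl hL⟩, rfl⟩
  by_cases hroot : a = F.T l ∧ b = F.D l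
  · by_cases hl0 : l = 0
    · left
      refine ⟨hl0, ?_⟩
      subst hl0
      rw [hroot.1, hroot.2, F.T0, F.D0] at hmem
      exact hmem
    · right
      obtain ⟨R1, R2, h1, h2, h3, h4⟩ := F.QQ_root hw (by omega) hA
      rw [← hroot.1, ← hroot.2] at h2
      have hm : (l, r, s) ∈ F.QQ a b := hmem.1
      have hm2 : R2 ∈ F.QQ a b := by rw [h2]; simp
      have hlt2 := F.isRec_lt hm2.1
      rw [h2, Set.mem_insert_iff, Set.mem_singleton_iff] at hm
      have hm3 : (l, r, s) = R1 := by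
        rcases hm with h5 | h5
        · exact h5
        · exfalso
          rw [← h5] at hlt2 h4
          simp only at hlt2 h4
          omega
      refine ⟨R2, hm2.1, Or.inl (by omega), ?_⟩
      have := hP a b R1 R2 haM (by omega) (by
        rintro ⟨_, h6⟩
        rcases h6 with h6 | h6
        · rw [hroot.2] at h6
          have := F.frame_wall (by omega) h6
          omega
        · omega) h1 h2
      rw [hm3]
      exact this
  · right
    obtain ⟨R1, R2, h1, h2, h3, h4⟩ := F.ZR_two hw hA hba hroot ⟨_, hmem⟩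
    have hm3 := h4 _ hmem hU hL
    have hm2 : R2 ∈ F.ZR l a b := by rw [h2]; simp
    have hQ := F.QQ_right hw hA hba haM hroot ⟨_, hmem⟩
    refine ⟨R2, hm2.1.1, Or.inr ⟨hm2.2, ?_⟩, ?_⟩
    · rw [← hm3] at h3
      exact h3
    · have := hP a b R1 R2 haM (by omega) (by
        rintro ⟨h5, h6⟩
        have h7 := F.ZR_loc hw hA hba ⟨_, hmem⟩
        have h8 := h7.2.1
        have h9 := h7.2.2.1
        have h10 := F.T_lt l (by omega)
        exact hroot ⟨by omega, by omega⟩) h1 (by rw [hQ, h2])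
      rw [hm3]
      exact this

theorem conn_aux {P : ℕ × ℕ × ℕ → Prop} (hP : F.Coh P) (h0 : F.A (F.T 0) = 0) :
    ∃ R0 : ℕ × ℕ × ℕ, F.IsRec R0.1 R0.2.1 R0.2.2 ∧
      ∀ l r s, F.IsRec l r s → (P (l, r, s) ↔ P R0) := by
  have hM := F.hM
  obtain ⟨R0, hR0⟩ := F.ZR_root (w := 0) (by omega) h0
  rw [F.T0, F.D0] at hR0
  have hm0 : R0 ∈ F.ZR 0 (M - 1) 0 := by rw [hR0]; exact Set.mem_singleton _
  refine ⟨R0, hm0.1.1, ?_⟩
  intro l
  induction l using Nat.strong_induction_on with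
  | _ l ihl =>
    intro r
    induction r using Nat.strong_induction_on with
    | _ r ihr =>
      intro s hR
      have hlt := F.isRec_lt hR
      have key : (l = 0 ∧ (l, r, s) ∈ F.ZR 0 (M - 1) 0) ∨
          ∃ R' : ℕ × ℕ × ℕ, F.IsRec R'.1 R'.2.1 R'.2.2 ∧
            (R'.1 < l ∨ (R'.1 = l ∧ R'.2.1 < r)) ∧ (P (l, r, s) ↔ P R') := by
        by_cases hA : F.A (F.T l) = l
        · exact F.step hP hR hA
        · have hB : F.B (F.T l) = l := by
            rcases F.wall l (by omega) with h1 | h1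
            · exact h1.2
            · exact absurd h1.2 hA
          have hl0 : l ≠ 0 := by
            intro h1
            rw [h1] at hA
            exact hA h0
          rcases F.swap.step (Coh.swap F hP) hR hB with h1 | h1
          · exact absurd h1.1 hl0
          · exact Or.inr h1
      rcases key with ⟨_, h1⟩ | ⟨⟨l', r', s'⟩, h1, h2, h3⟩
      · rw [hR0, Set.mem_singleton_iff] at h1
        rw [h1]
      · rw [h3]
        simp only at h1 h2
        rcases h2 with h2 | ⟨h2, h4⟩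
        · exact ihl l' h2 r' s' h1
        · subst h2
          exact ihr r' h4 s' h1

theorem conn {P : ℕ × ℕ × ℕ → Prop} (hP : F.Coh P) :
    ∃ R0 : ℕ × ℕ × ℕ, F.IsRec R0.1 R0.2.1 R0.2.2 ∧
      ∀ l r s, F.IsRec l r s → (P (l, r, s) ↔ P R0) := by
  have hM := F.hM
  rcases F.wall 0 (by omega) with h | h
  · exact F.swap.conn_aux (Coh.swap F hP) h.2
  · exact F.conn_aux hP h.2

end Fr

end Pool.Agent.Helper68.PY
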