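import Pool.Agent.Helper68.PY.Card
import Pool.Agent.Helper68.PY.Conn

/-!
# Every frame gives an abstract quadrangulation
-/

namespace Pool.Agent.Helper68.PY

theorem exists_up {M : ℕ} {f : ℕ → ℕ} {l r h a0 : ℕ} (h1 : h < a0) (h2 : a0 < M)
    (h3 : l ≤ f a0) (h4 : f a0 ≤ r) : ∃ a, Up M f l r h a := by
  classical
  have hex : ∃ a, h < a ∧ l ≤ f a ∧ f a ≤ r := ⟨a0, h1, h3, h4⟩
  obtain ⟨g1, g2, g3⟩ := Nat.find_spec hex
  refine ⟨Nat.find hex, g1, lt_of_le_of_lt (Nat.find_min' hex ⟨h1, h3, h4⟩) h2, g2, g3, ?_⟩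
  intro i hi hi2 hc
  exact Nat.find_min hex hi2 ⟨hi, hc.1, hc.2⟩

theorem exists_dn {f : ℕ → ℕ} {l r h a0 : ℕ} (h1 : a0 ≤ h)
    (h3 : l ≤ f a0) (h4 : f a0 ≤ r) : ∃ a, Dn f l r h a := by
  classical
  have hex : ∃ d, d ≤ h ∧ l ≤ f (h - d) ∧ f (h - d) ≤ r := by
    refine ⟨h - a0, by omega, ?_⟩
    have e : h - (h - a0) = a0 := by omega
    rw [e]
    exact ⟨h3, h4⟩
  obtain ⟨g1, g2, g3⟩ := Nat.find_spec hex
  refine ⟨h - Nat.find hex, by omega, g2, g3, ?_⟩
  intro i hi hi2 hc
  refine Nat.find_min hex (m := h - i) (by omega) ⟨by omega, ?_⟩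
  have e : h - (h - i) = i := by omega
  rw [e]
  exact hc

namespace Fr

variable {M : ℕ} (F : Fr M)

theorem four_ends {l r h : ℕ} (hS : Strip M F.D F.T l r h) :
    (∃ a, Up M F.A l r h a) ∧ (∃ a, Dn F.A l r h a) ∧ (∃ b, Up M F.B l r h b) ∧
      (∃ b, Dn F.B l r h b) := by
  have halt := F.alt h l r hS
  have hl := F.wall l (by have := hS.1; have := hS.2.1; omega)
  have hr := F.wall r hS.2.1
  have hTl := F.T_lt l (by have := hS.1; have := hS.2.1; omega)
  have hTr := F.T_lt r hS.2.1
  obtain ⟨p1, p2, p3, p4, p5⟩ := hS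
  have hlr : l ≤ r := le_of_lt p1
  by_cases hA : F.A (F.T l) = l
  · have h1 := F.typeA (by omega) hA
    have h2 := halt.1 hA
    have h3 := F.typeB p2 h2
    refine ⟨exists_up p3.2 hTl ?_ ?_, exists_dn p4.1 ?_ ?_, exists_up p4.2 hTr ?_ ?_,
      exists_dn p3.1 ?_ ?_⟩ <;> omega
  · have h1 : F.B (F.T l) = l := by
      rcases hl with h | h
      · exact h.2
      · exact absurd h.2 hA
    have h2 := F.typeB (by omega) h1
    have h3 : F.A (F.T r) = r := by
      rcases hr with h | h
      · exact absurd (halt.2 h.2) hA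
      · exact h.2
    have h4 := F.typeA p2 h3
    refine ⟨exists_up p4.2 hTr ?_ ?_, exists_dn p3.1 ?_ ?_, exists_up p3.2 hTl ?_ ?_,
      exists_dn p4.1 ?_ ?_⟩ <;> omega

/-- Information on a pair `b < a`. -/
theorem loc_lt {a b : ℕ} (hba : b < a) (ha : a < M) {R : ℕ × ℕ × ℕ} (hR : R ∈ F.QQ a b) :
    ∃ w < M, F.A (F.T w) = w ∧ F.D w ≤ b ∧ a ≤ F.T w ∧
      (a ≠ F.T w → F.D (F.A a) = a) ∧ (b ≠ F.D w → F.T (F.B b) = b) := by
  rcases F.lane_cases hR with ⟨w, g1, g2, g3⟩ | ⟨w, g1, g2, g3, g4⟩
  · obtain ⟨_, h1, h2, _, _, h3, h4⟩ := F.ZR_loc g1 g2 hba ⟨_, g3⟩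
    exact ⟨w, by omega, g2, h1, h2, h3, h4⟩
  · obtain ⟨_, h1, h2, _, _, h3, h4⟩ := F.ZL_loc g1 g2 g3 hba ha ⟨_, g4⟩
    exact ⟨w, by omega, g3, h1, h2, h3, h4⟩

/-- The two corners of class `B` have no further common neighbour. -/
theorem opp {a : ℕ} (ha : a < M) {R R' : ℕ × ℕ × ℕ} (h1 : R ∈ F.QQ a 0)
    (h2 : R' ∈ F.QQ a (M - 1)) : a = 0 ∨ a + 1 = M := by
  by_contra hcon
  have hM := F.hM
  obtain ⟨w, hw, _, g1, g2, g3, _⟩ := F.loc_lt (by omega) ha h1
  have hTw := F.T_lt w hw
  have hw0 := F.frame_wall hw (by omega)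
  have hT : F.T w = M - 1 := by
    rcases hw0 with h | h
    · rw [h]; exact F.T0
    · rw [h]; exact F.TM
  have hD := g3 (by omega)
  rw [← F.swap_QQ] at h2
  obtain ⟨w', hw', _, k1, k2, _, k4⟩ := F.swap.loc_lt (a := M - 1) (b := a) (by omega) (by omega) h2
  have hTw' := F.T_lt w' hw'
  have e1 : F.swap.T w' = F.T w' := rfl
  have e2 : F.swap.D w' = F.D w' := rfl
  have hw0' := F.frame_wall' hw' (by omega)
  have hD' : F.D w' = 0 := by
    rcases hw0' with h | h
    · rw [h]; exact F.D0
    · rw [h]; exact F.DM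
  have hT' := k4 (by omega)
  have e3 : F.swap.T (F.swap.B a) = F.T (F.A a) := rfl
  rw [e3] at hT'
  have := F.DT (F.A a) (F.A_lt a ha)
  omega

/-- A rectangle with both bottom corners is the bottom one. -/
theorem bottom_rec {l r s : ℕ} (h : F.IsRec l r s) (hA : Dn F.A l r s 0) (hB : Dn F.B l r s 0) :
    l = 0 ∧ r = M - 1 ∧ s = 0 := by
  have hM := F.hM
  have hlt := F.isRec_lt h
  have hs : s = 0 := by
    by_contra hne
    rcases F.isRec_touch h with h1 | h1
    · exact hA.2.2.2 s (by omega) (le_refl _) h1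
    · exact hB.2.2.2 s (by omega) (le_refl _) h1
  subst hs
  have h1 := h.1.2.2.1.1
  have h2 := h.1.2.2.2.1.1
  have h3 := F.frame_wall (w := l) (by omega) (by omega)
  have h4 := F.frame_wall (w := r) (by omega) (by omega)
  omega

theorem exists_qsys : ∃ Q : QSys M {x // x ∈ F.recs},
    (∀ R, Dn F.A R.1.1 R.1.2.1 R.1.2.2 (Q.ad R)) ∧
    (∀ R, Up M F.A R.1.1 R.1.2.1 R.1.2.2 (Q.au R)) ∧
    (∀ R, Dn F.B R.1.1 R.1.2.1 R.1.2.2 (Q.bd R)) ∧
    (∀ R, Up M F.B R.1.1 R.1.2.1 R.1.2.2 (Q.bu R)) := by
  classical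
  have hM := F.hM
  have hrec : ∀ R : {x // x ∈ F.recs}, F.IsRec R.1.1 R.1.2.1 R.1.2.2 :=
    fun R => (F.mem_recs _).1 R.2
  choose au hau using fun R => (F.four_ends (hrec R).1).1
  choose ad had using fun R => (F.four_ends (hrec R).1).2.1
  choose bu hbu using fun R => (F.four_ends (hrec R).1).2.2.1
  choose bd hbd using fun R => (F.four_ends (hrec R).1).2.2.2
  have hpair : ∀ (R : {x // x ∈ F.recs}) (a b : ℕ),
      ((ad R = a ∨ au R = a) ∧ (bd R = b ∨ bu R = b)) ↔ R.1 ∈ F.QQ a b := by
    intro R a b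
    constructor
    · rintro ⟨h1, h2⟩
      refine ⟨hrec R, ?_, ?_⟩
      · rcases h1 with h1 | h1
        · left; rw [← h1]; exact had R
        · right; rw [← h1]; exact hau R
      · rcases h2 with h2 | h2
        · left; rw [← h2]; exact hbd R
        · right; rw [← h2]; exact hbu R
    · rintro ⟨_, h1, h2⟩
      refine ⟨?_, ?_⟩
      · rcases h1 with h1 | h1
        · left; exact Dn.unique (had R) h1
        · right; exact Up.unique (hau R) h1
      · rcases h2 with h2 | h2
        · left; exact Dn.unique (hbd R) h2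
        · right; exact Up.unique (hbu R) h2
  have hmemrec : ∀ {a b : ℕ} {R : ℕ × ℕ × ℕ}, R ∈ F.QQ a b → R ∈ F.recs :=
    fun h => (F.mem_recs _).2 h.1
  have hoppB : ∀ r s a, (ad r = a ∨ au r = a) → (ad s = a ∨ au s = a) → bd r = 0 →
      bu s + 1 = M → a = 0 ∨ a + 1 = M := by
    intro r s a h1 h2 h3 h4
    have haM : a < M := by
      rcases h1 with h | h
      · have := (had r).1
        have := (F.isRec_lt (hrec r)).2.2
        omega
      · have := (hau r).2.1
        omega
    exact F.opp haM ((hpair r a 0).1 ⟨h1, Or.inl h3⟩)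
      ((hpair s a (M - 1)).1 ⟨h2, Or.inr (by omega)⟩)
  have hoppA : ∀ r s b, (bd r = b ∨ bu r = b) → (bd s = b ∨ bu s = b) → ad r = 0 →
      au s + 1 = M → b = 0 ∨ b + 1 = M := by
    intro r s b h1 h2 h3 h4
    have hbM : b < M := by
      rcases h1 with h | h
      · have := (hbd r).1
        have := (F.isRec_lt (hrec r)).2.2
        omega
      · have := (hbu r).2.1
        omega
    have g1 := (hpair r 0 b).1 ⟨Or.inl h3, h1⟩
    have g2 := (hpair s (M - 1) b).1 ⟨Or.inr (by omega), h2⟩
    rw [← F.swap_QQ] at g1 g2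
    exact F.swap.opp hbM g1 g2
  have hnocorner : ∀ r, ad r = 0 → au r + 1 = M → bd r = 0 → bu r + 1 = M → False := by
    intro r h1 h2 h3 h4
    have g1 := had r
    have g2 := hbd r
    have g3 := hau r
    rw [h1] at g1
    rw [h3] at g2
    obtain ⟨e1, e2, e3⟩ := F.bottom_rec (hrec r) g1 g2
    have h5 := g3.2.2.2.2 1 (by omega) (by omega)
    have h6 := F.A_lt 1 (by omega)
    omega
  let Q : QSys M {x // x ∈ F.recs} :=
    { ad := ad
      au := au
      bd := bd
      bu := bu
      hM := hM
      ad_lt := fun R => lt_of_le_of_lt (had R).1 (hau R).1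
      bd_lt := fun R => lt_of_le_of_lt (hbd R).1 (hbu R).1
      au_lt := fun R => (hau R).2.1
      bu_lt := fun R => (hbu R).2.1
      card := by
        rw [Fintype.card_coe]
        exact F.card_recs
      two := by
        intro a b ha hb hc
        rcases F.QQ_all ha hb hc with h | ⟨R1, R2, h1, h2⟩
        · left
          rw [Finset.card_eq_zero, Finset.filter_eq_empty_iff]
          intro R _ hR
          have := (hpair R a b).1 hR
          rw [h] at this
          exact this
        · right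
          have m1 : R1 ∈ F.QQ a b := by rw [h2]; simp
          have m2 : R2 ∈ F.QQ a b := by rw [h2]; simp
          have e : (Finset.univ.filter (fun r => (ad r = a ∨ au r = a) ∧ (bd r = b ∨ bu r = b)))
              = {⟨R1, hmemrec m1⟩, ⟨R2, hmemrec m2⟩} := by
            ext R
            rw [Finset.mem_filter, hpair, h2]
            simp [Subtype.ext_iff]
          rw [e, Finset.card_pair]
          intro h
          exact h1 (Subtype.ext_iff.1 h)
      corner := by
        intro a b ha hb
        obtain ⟨R1, h2⟩ := F.QQ_corner ha hb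
        have m1 : R1 ∈ F.QQ a b := by rw [h2]; simp
        have e : (Finset.univ.filter (fun r => (ad r = a ∨ au r = a) ∧ (bd r = b ∨ bu r = b)))
            = {⟨R1, hmemrec m1⟩} := by
          ext R
          rw [Finset.mem_filter, hpair, h2]
          simp [Subtype.ext_iff]
        rw [e, Finset.card_singleton]
      upA := by
        intro a ha
        obtain ⟨R, h1, h2, h3, h4, h5⟩ := F.exists_above ha
        exact ⟨⟨R, hmemrec h1⟩, Dn.unique (had _) h3⟩
      upB := by
        intro a ha
        obtain ⟨R, h1, h2, h3, h4, h5⟩ := F.exists_above ha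
        exact ⟨⟨R, hmemrec h1⟩, Dn.unique (hbd _) h4⟩
      oppB := hoppB
      oppA := hoppA
      neB := by
        rintro r ⟨h1, h2⟩
        have k1 := hoppB r r (ad r) (Or.inl rfl) (Or.inl rfl) h1 h2
        have k2 := hoppB r r (au r) (Or.inr rfl) (Or.inr rfl) h1 h2
        have k3 := lt_of_le_of_lt (had r).1 (hau r).1
        have k4 := (hau r).2.1
        exact hnocorner r (by omega) (by omega) h1 h2
      neA := by
        rintro r ⟨h1, h2⟩
        have k1 := hoppA r r (bd r) (Or.inl rfl) (Or.inl rfl) h1 h2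
        have k2 := hoppA r r (bu r) (Or.inr rfl) (Or.inr rfl) h1 h2
        have k3 := lt_of_le_of_lt (hbd r).1 (hbu r).1
        have k4 := (hbu r).2.1
        exact hnocorner r h1 h2 (by omega) (by omega)
      conn := by
        intro S hS
        let P : ℕ × ℕ × ℕ → Prop := fun x => ∃ h : x ∈ F.recs, (⟨x, h⟩ : {x // x ∈ F.recs}) ∈ S
        have hP : F.Coh P := by
          intro a b R1 R2 ha hb hc hne hQ
          have m1 : R1 ∈ F.QQ a b := by rw [hQ]; simp
          have m2 : R2 ∈ F.QQ a b := by rw [hQ]; simp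
          have hev := hS a b ha hb hc
          have p1 : P R1 ↔ (⟨R1, hmemrec m1⟩ : {x // x ∈ F.recs}) ∈ S :=
            ⟨fun ⟨_, h⟩ => h, fun h => ⟨_, h⟩⟩
          have p2 : P R2 ↔ (⟨R2, hmemrec m2⟩ : {x // x ∈ F.recs}) ∈ S :=
            ⟨fun ⟨_, h⟩ => h, fun h => ⟨_, h⟩⟩
          rw [p1, p2]
          have hmemf : ∀ R : {x // x ∈ F.recs},
              R ∈ S.filter (fun r => (ad r = a ∨ au r = a) ∧ (bd r = b ∨ bu r = b)) ↔
                (R ∈ S ∧ (R.1 = R1 ∨ R.1 = R2)) := by
            intro R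
            rw [Finset.mem_filter, hpair, hQ]
            simp
          constructor
          · intro h
            by_contra h'
            have e : S.filter (fun r => (ad r = a ∨ au r = a) ∧ (bd r = b ∨ bu r = b)) =
                {⟨R1, hmemrec m1⟩} := by
              ext R
              rw [hmemf, Finset.mem_singleton]
              constructor
              · rintro ⟨h3, h4 | h4⟩
                · exact Subtype.ext h4
                · exfalso
                  apply h'
                  have : R = ⟨R2, hmemrec m2⟩ := Subtype.ext h4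
                  rw [← this]; exact h3
              · rintro rfl
                exact ⟨h, Or.inl rfl⟩
            rw [e, Finset.card_singleton] at hev
            exact absurd hev (by decide)
          · intro h
            by_contra h'
            have e : S.filter (fun r => (ad r = a ∨ au r = a) ∧ (bd r = b ∨ bu r = b)) =
                {⟨R2, hmemrec m2⟩} := by
              ext R
              rw [hmemf, Finset.mem_singleton]
              constructor
              · rintro ⟨h3, h4 | h4⟩
                · exfalso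
                  apply h'
                  have : R = ⟨R1, hmemrec m1⟩ := Subtype.ext h4
                  rw [← this]; exact h3
                · exact Subtype.ext h4
              · rintro rfl
                exact ⟨h, Or.inr rfl⟩
            rw [e, Finset.card_singleton] at hev
            exact absurd hev (by decide)
        obtain ⟨R0, h0, hall⟩ := F.conn hP
        have hall' : ∀ R : {x // x ∈ F.recs}, R ∈ S ↔ P R0 := by
          intro R
          have h1 := hall R.1.1 R.1.2.1 R.1.2.2 (hrec R)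
          have h2 : P R.1 ↔ R ∈ S := ⟨fun ⟨_, h⟩ => h, fun h => ⟨R.2, h⟩⟩
          rw [← h2]
          exact h1
        by_cases hP0 : P R0
        · right
          ext R
          simp [hall' R, hP0]
        · left
          ext R
          simp [hall' R, hP0] }
  exact ⟨Q, had, hau, hbd, hbu⟩

end Fr

end Pool.Agent.Helper68.PY
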