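import Pool.Agent.Helper68.PY.Two

/-!
# The number of rectangles
-/

namespace Pool.Agent.Helper68.PY

namespace Fr

variable {M : ℕ} (F : Fr M)

open Classical in
/-- The finite set of rectangles. -/
noncomputable def recs : Finset (ℕ × ℕ × ℕ) :=
  (Finset.range M ×ˢ Finset.range M ×ˢ Finset.range M).filter
    (fun R => F.IsRec R.1 R.2.1 R.2.2)

theorem mem_recs (R : ℕ × ℕ × ℕ) : R ∈ F.recs ↔ F.IsRec R.1 R.2.1 R.2.2 := by
  classical
  unfold recs
  rw [Finset.mem_filter, Finset.mem_product, Finset.mem_product, Finset.mem_range,
    Finset.mem_range, Finset.mem_range]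
  constructor
  · exact fun h => h.2
  · intro h
    have := F.isRec_lt h
    exact ⟨⟨by omega, by omega, by omega⟩, h⟩

/-- The bottom edge of a rectangle touches its closed column. -/
theorem isRec_touch {l r s : ℕ} (h : F.IsRec l r s) :
    (l ≤ F.A s ∧ F.A s ≤ r) ∨ (l ≤ F.B s ∧ F.B s ≤ r) := by
  by_contra hcon
  push Not at hcon
  rcases h.2 with h1 | h1
  · -- level 0
    have h2 := h.1
    have h3 := F.isRec_lt h
    have hl : F.D l = 0 := by have := h2.2.2.1.1; omega
    rcases F.wall l (by omega) with h4 | h4
    · rw [hl, ← h1] at h4; omega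
    · rw [hl, ← h1] at h4; omega
  · have h3 := F.isRec_lt h
    by_cases h4 : s = 0
    · subst h4
      exact h1 h.1
    · exact h1 (F.persist_down (by omega) h.1 (by omega) (by omega))

open Classical in
/-- Code of a rectangle. -/
noncomputable def code (R : ℕ × ℕ × ℕ) : ℕ ⊕ ℕ :=
  if (R.1 ≤ F.A R.2.2 ∧ F.A R.2.2 ≤ R.2.1) ∧ (R.1 ≤ F.B R.2.2 ∧ F.B R.2.2 ≤ R.2.1) then
    Sum.inl R.2.2
  else if R.1 ≤ min (F.A R.2.2) (F.B R.2.2) then Sum.inr R.2.1 else Sum.inr R.1

theorem no_cross_between {s x : ℕ} (hs : s < M) (hx : min (F.A s) (F.B s) < x)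
    (hx2 : x < max (F.A s) (F.B s)) : ¬ Cr F.D F.T s x := by
  have hA := F.A_lt s hs
  have hB := F.B_lt s hs
  have hxM : x < M := by omega
  intro hc
  have h1 := F.wall x hxM
  have h2 : F.D x < s := by
    have h3 := hc.1
    by_contra h4
    have h5 : F.D x = s := by omega
    rw [h5] at h1
    omega
  have h3 := F.nc s hs x hxM h2 hc.2
  omega

theorem code_cases {l r s : ℕ} (h : F.IsRec l r s) :
    (((l ≤ F.A s ∧ F.A s ≤ r) ∧ (l ≤ F.B s ∧ F.B s ≤ r)) ∧ F.code (l, r, s) = Sum.inl s) ∨
      (r = min (F.A s) (F.B s) ∧ F.D r = s ∧ F.code (l, r, s) = Sum.inr r) ∨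
      (l = max (F.A s) (F.B s) ∧ F.D l = s ∧ F.code (l, r, s) = Sum.inr l) := by
  have hlt := F.isRec_lt h
  have hsM : s < M := by omega
  have hA := F.A_lt s hsM
  have hB := F.B_lt s hsM
  have hAB := F.AB s hsM
  have ht := F.isRec_touch h
  have hS := h.1
  by_cases hboth : (l ≤ F.A s ∧ F.A s ≤ r) ∧ (l ≤ F.B s ∧ F.B s ≤ r)
  · left
    refine ⟨hboth, ?_⟩
    simp only [code]
    rw [if_pos hboth]
  · right
    by_cases hl : l ≤ min (F.A s) (F.B s)
    · left
      have hr : r = min (F.A s) (F.B s) := by
        by_contra hne
        have h1 : min (F.A s) (F.B s) < r := by omega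
        have h2 : r < max (F.A s) (F.B s) := by omega
        exact F.no_cross_between hsM h1 h2 hS.2.2.2.1
      refine ⟨hr, ?_, ?_⟩
      · have h3 := hS.2.2.2.1
        unfold Cr at h3
        rcases Nat.lt_or_ge (F.A s) (F.B s) with h4 | h4
        · have h5 : r = F.A s := by omega
          have h6 := F.DA s hsM
          rw [← h5] at h6
          omega
        · have h5 : r = F.B s := by omega
          have h6 := F.DB s hsM
          rw [← h5] at h6
          omega
      · simp only [code]
        rw [if_neg hboth, if_pos hl]
    · right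
      have hr : l = max (F.A s) (F.B s) := by
        by_contra hne
        have h1 : min (F.A s) (F.B s) < l := by omega
        have h2 : l < max (F.A s) (F.B s) := by omega
        exact F.no_cross_between hsM h1 h2 hS.2.2.1
      refine ⟨hr, ?_, ?_⟩
      · have h3 := hS.2.2.1
        unfold Cr at h3
        rcases Nat.lt_or_ge (F.A s) (F.B s) with h4 | h4
        · have h5 : l = F.B s := by omega
          have h6 := F.DB s hsM
          rw [← h5] at h6
          omega
        · have h5 : l = F.A s := by omega
          have h6 := F.DA s hsM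
          rw [← h5] at h6
          omega
      · simp only [code]
        rw [if_neg hboth, if_neg hl]

theorem card_recs : F.recs.card + 3 = 2 * M := by
  classical
  have hM := F.hM
  have hcard : F.recs.card =
      ((Finset.range (M - 1)).disjSum (Finset.Ico 1 (M - 1))).card := by
    refine Finset.card_nbij F.code ?_ ?_ ?_
    · rintro ⟨l, r, s⟩ hR
      have h := (F.mem_recs _).1 hR
      simp only at h
      have hlt := F.isRec_lt h
      have hA := F.A_lt s (by omega)
      have hB := F.B_lt s (by omega)
      have hAB := F.AB s (by omega)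
      rcases F.code_cases h with ⟨_, h1⟩ | ⟨h0, h1, h2⟩ | ⟨h0, h1, h2⟩
      · rw [h1, Finset.mem_coe, Finset.inl_mem_disjSum, Finset.mem_range]
        omega
      · rw [h2, Finset.mem_coe, Finset.inr_mem_disjSum, Finset.mem_Ico]
        omega
      · rw [h2, Finset.mem_coe, Finset.inr_mem_disjSum, Finset.mem_Ico]
        omega
    · rintro ⟨l, r, s⟩ hR ⟨l', r', s'⟩ hR' heq
      have h := (F.mem_recs _).1 (Finset.mem_coe.1 hR)
      have h' := (F.mem_recs _).1 (Finset.mem_coe.1 hR')
      simp only at h h'
      have hlt := F.isRec_lt h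
      have hlt' := F.isRec_lt h'
      have hAB := F.AB s (by omega)
      rcases F.code_cases h with ⟨g, h1⟩ | ⟨h0, h1, h2⟩ | ⟨h0, h1, h2⟩ <;>
        rcases F.code_cases h' with ⟨g', h1'⟩ | ⟨h0', h1', h2'⟩ | ⟨h0', h1', h2'⟩
      · rw [h1, h1'] at heq
        have e := Sum.inl.inj heq
        subst e
        obtain ⟨e1, e2⟩ := Strip.unique h.1 h'.1 (min (F.A s) (F.B s)) (by omega) (by omega)
          (by omega) (by omega)
        rw [e1, e2]
      · rw [h1, h2'] at heq; cases heq
      · rw [h1, h2'] at heq; cases heq
      · rw [h2, h1'] at heq; cases heq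
      · rw [h2, h2'] at heq
        have e := Sum.inr.inj heq
        subst e
        have e2 : s = s' := by omega
        subst e2
        obtain ⟨e1, e3⟩ := Strip.unique h.1 h'.1 (r - 1) (by omega) (by omega)
          (by omega) (by omega)
        rw [e1]
      · rw [h2, h2'] at heq
        have e := Sum.inr.inj heq
        subst e
        have e2 : s = s' := by omega
        subst e2
        omega
      · rw [h2, h1'] at heq; cases heq
      · rw [h2, h2'] at heq
        have e := Sum.inr.inj heq
        subst e
        have e2 : s = s' := by omega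
        subst e2
        omega
      · rw [h2, h2'] at heq
        have e := Sum.inr.inj heq
        subst e
        have e2 : s = s' := by omega
        subst e2
        obtain ⟨e1, e3⟩ := Strip.unique h.1 h'.1 l (by omega) (by omega)
          (by omega) (by omega)
        rw [e3]
    · rintro (s | j) hx
      · rw [Finset.mem_coe, Finset.inl_mem_disjSum, Finset.mem_range] at hx
        obtain ⟨R, h1, h2, h3, h4, h5⟩ := F.exists_above (i := s) (by omega)
        refine ⟨R, Finset.mem_coe.2 ((F.mem_recs R).2 h1.1), ?_⟩
        obtain ⟨l, r, s'⟩ := R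
        simp only at h1 h2 h3 h4
        subst h2
        have hrec : F.IsRec l r s' := h1.1
        rcases F.code_cases hrec with ⟨_, g⟩ | ⟨g0, g1, g2⟩ | ⟨g0, g1, g2⟩
        · exact g
        · exfalso
          have hAB := F.AB s' (by omega)
          have k1 : l ≤ F.A s' := h3.2.1
          have k2 : F.A s' ≤ r := h3.2.2.1
          have k3 : l ≤ F.B s' := h4.2.1
          have k4 : F.B s' ≤ r := h4.2.2.1
          omega
        · exfalso
          have hAB := F.AB s' (by omega)
          have k1 : l ≤ F.A s' := h3.2.1
          have k2 : F.A s' ≤ r := h3.2.2.1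
          have k3 : l ≤ F.B s' := h4.2.1
          have k4 : F.B s' ≤ r := h4.2.2.1
          omega
      · rw [Finset.mem_coe, Finset.inr_mem_disjSum, Finset.mem_Ico] at hx
        have hjM : j < M := by omega
        have hDj : 0 < F.D j := by
          by_contra h0
          have := F.frame_wall hjM (by omega)
          omega
        have hDT := F.DT j hjM
        have hTM := F.T_lt j hjM
        have hcr : Cr F.D F.T (F.D j) j := ⟨le_refl _, hDT⟩
        have hAB := F.AB (F.D j) (by omega)
        have hwall := F.wall j hjM
        have hj : j = F.A (F.D j) ∨ j = F.B (F.D j) := by omega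
        have notstrip : ∀ l r, Strip M F.D F.T l r (F.D j) → l ≤ j → j ≤ r →
            F.IsRec l r (F.D j) := by
          intro l r hS h1 h2
          refine ⟨hS, Or.inr (fun h3 => ?_)⟩
          rcases hj with h4 | h4
          · exact F.touch_not_strip hDj (by omega) h3 hS (by omega) (by omega)
          · have eA : F.swap.A (F.D j) = F.B (F.D j) := rfl
            exact F.swap.touch_not_strip (i := F.D j) hDj (by omega) h3 hS
              (by rw [eA]; omega) (by rw [eA]; omega)
        by_cases hmin : j = min (F.A (F.D j)) (F.B (F.D j))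
        · obtain ⟨l, r, h1, h2, h3⟩ := F.exists_cover (p := j - 1) (q := j) (h := F.D j)
            (by omega) hjM (by omega) (fun x hx hx2 => by omega)
          have hr : r = j := by
            by_contra hne
            exact h1.2.2.2.2 j (by omega) (by omega) hcr
          subst hr
          have hrec := notstrip l r h1 (by omega) (le_refl _)
          refine ⟨(l, r, F.D r), Finset.mem_coe.2 ((F.mem_recs _).2 hrec), ?_⟩
          rcases F.code_cases hrec with ⟨g, _⟩ | ⟨g0, g1, g2⟩ | ⟨g0, g1, g2⟩
          · exfalso; omega
          · exact g2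
          · exfalso
            have := h1.1
            omega
        · have hmax : j = max (F.A (F.D j)) (F.B (F.D j)) := by omega
          obtain ⟨l, r, h1, h2, h3⟩ := F.exists_cover (p := j) (q := j + 1) (h := F.D j)
            (by omega) (by omega) (by omega) (fun x hx hx2 => by omega)
          have hl : l = j := by
            by_contra hne
            exact h1.2.2.2.2 j (by omega) (by omega) hcr
          subst hl
          have hrec := notstrip l r h1 (le_refl _) (by omega)
          refine ⟨(l, r, F.D l), Finset.mem_coe.2 ((F.mem_recs _).2 hrec), ?_⟩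
          rcases F.code_cases hrec with ⟨g, _⟩ | ⟨g0, g1, g2⟩ | ⟨g0, g1, g2⟩
          · exfalso; omega
          · exfalso
            have := h1.1
            omega
          · exact g2
  rw [hcard, Finset.card_disjSum, Finset.card_range, Nat.card_Ico]
  omega

end Fr

end Pool.Agent.Helper68.PY
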