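import Pool.Agent.Helper68.PY.Vis

/-!
# Parity classes of the vertices of a frame
-/

namespace Pool.Agent.Helper68.PY

namespace Fr0

variable {M : ℕ} (F : Fr0 M)

open Classical in
/-- Number of walls at positions `≤ x` crossing the level `h`. -/
noncomputable def num (h x : ℕ) : ℕ :=
  ((Finset.range (x + 1)).filter (fun j => Cr F.D F.T h j)).card

/-- The region to the right of the position `x` at the level `h` is even. -/
def Q (h x : ℕ) : Prop := Even (F.num h x)

/-- The region below the edge `i` is even. -/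
def PB (i : ℕ) : Prop := i = 0 ∨ F.Q (i - 1) (F.L i)

open Classical in
/-- Position of the end of class `A`. -/
noncomputable def fA (i : ℕ) : ℕ := if F.PB i then F.L i else F.R i

open Classical in
/-- Position of the end of class `B`. -/
noncomputable def fB (i : ℕ) : ℕ := if F.PB i then F.R i else F.L i

theorem fAB (i : ℕ) : (F.PB i ∧ F.fA i = F.L i ∧ F.fB i = F.R i) ∨
    (¬ F.PB i ∧ F.fA i = F.R i ∧ F.fB i = F.L i) := by
  unfold fA fB
  by_cases h : F.PB i
  · left; simp [h]
  · right; simp [h]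

theorem num_succ (h x : ℕ) (hc : Cr F.D F.T h (x + 1)) : F.num h (x + 1) = F.num h x + 1 := by
  classical
  unfold num
  rw [Finset.range_add_one (n := x + 1), Finset.filter_insert, if_pos hc,
    Finset.card_insert_of_notMem]
  simp

theorem num_eq (h x y : ℕ) (hxy : x ≤ y) (hno : ∀ z, x < z → z ≤ y → ¬ Cr F.D F.T h z) :
    F.num h y = F.num h x := by
  classical
  unfold num
  congr 1
  ext z
  rw [Finset.mem_filter, Finset.mem_filter, Finset.mem_range, Finset.mem_range]
  constructor
  · rintro ⟨h1, h2⟩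
    refine ⟨?_, h2⟩
    by_contra h3
    exact hno z (by omega) (by omega) h2
  · rintro ⟨h1, h2⟩
    exact ⟨by omega, h2⟩

/-- Next crossing wall changes the parity. -/
theorem Q_next {h l r : ℕ} (hlr : l < r) (hr : Cr F.D F.T h r)
    (hno : ∀ z, l < z → z < r → ¬ Cr F.D F.T h z) : F.Q h r ↔ ¬ F.Q h l := by
  unfold Q
  have h1 : F.num h (r - 1) = F.num h l :=
    F.num_eq h l (r - 1) (by omega) (fun z hz hz2 => hno z hz (by omega))
  have e : r - 1 + 1 = r := by omega
  have h2 := F.num_succ h (r - 1) (by rw [e]; exact hr)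
  rw [e, h1] at h2
  rw [h2, Nat.even_add_one]

theorem D_lt (j : ℕ) (hj : j < M) : F.D j < M := lt_trans (F.DT j hj) (F.T_lt j hj)

theorem D0' : F.D 0 = 0 := by
  have hM := F.hM
  have h1 := F.left 0 (by omega)
  rw [F.L0] at h1
  have := F.DT 0 (by omega)
  omega

theorem T0' : F.T 0 = M - 1 := by
  have hM := F.hM
  have h1 := F.left (M - 1) (by omega)
  rw [F.L1] at h1
  have := F.DT 0 (by omega)
  have := F.T_lt 0 (by omega)
  have := F.D0'
  omega

theorem DM' : F.D (M - 1) = 0 := by
  have hM := F.hM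
  have h1 := F.right 0 (by omega)
  rw [F.R0] at h1
  have := F.DT (M - 1) (by omega)
  omega

theorem TM' : F.T (M - 1) = M - 1 := by
  have hM := F.hM
  have h1 := F.right (M - 1) (by omega)
  rw [F.R1] at h1
  have := F.DT (M - 1) (by omega)
  have := F.T_lt (M - 1) (by omega)
  have := F.DM'
  omega

/-- A wall that is not an end of the edge `i` crosses the levels `i - 1` and `i` together. -/
theorem cr_iff {i j : ℕ} (hi : 0 < i) (hj : j < M) (h1 : j ≠ F.L i) (h2 : j ≠ F.R i) :
    Cr F.D F.T i j ↔ Cr F.D F.T (i - 1) j := by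
  have h3 := F.low j hj
  have h4 := F.high j hj
  have h5 : F.D j ≠ i := by
    intro h
    rw [h] at h3
    omega
  have h6 : F.T j ≠ i := by
    intro h
    rw [h] at h4
    omega
  unfold Cr
  omega

/-- No crossing wall strictly between the ends of the edge `i` at the levels `i - 1`, `i`. -/
theorem no_between {i j : ℕ} (hi : 0 < i) (hiM : i < M) (h1 : F.L i < j) (h2 : j < F.R i) :
    ¬ Cr F.D F.T (i - 1) j ∧ ¬ Cr F.D F.T i j := by
  have hR := F.R_lt i hiM
  have hj : j < M := by omega
  have h3 := F.low j hj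
  have h4 := F.high j hj
  have h5 : F.D j ≠ i := by
    intro h
    rw [h] at h3
    omega
  have h6 : F.T j ≠ i := by
    intro h
    rw [h] at h4
    omega
  have h7 := F.nc i hiM j hj
  unfold Cr
  constructor
  · intro hc
    exact h7 (by omega) (by omega) ⟨h1, h2⟩
  · intro hc
    exact h7 (by omega) (by omega) ⟨h1, h2⟩

open Classical in
/-- Change of the parity from the level `i - 1` to the level `i`. -/
theorem num_change {i x : ℕ} (hi : 0 < i) (hiM : i < M) (hx : x < M) :
    (F.num i x : ZMod 2) = (F.num (i - 1) x : ZMod 2) +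
      ((if F.L i ≤ x then 1 else 0) + (if F.R i ≤ x then 1 else 0)) := by
  have hLR := F.LR i hiM
  have hR := F.R_lt i hiM
  have e : ∀ h, (F.num h x : ZMod 2) =
      ∑ j ∈ Finset.range (x + 1), (if Cr F.D F.T h j then (1 : ZMod 2) else 0) := by
    intro h
    unfold num
    rw [Finset.card_filter]
    push_cast
    rfl
  have eL : (if F.L i ≤ x then (1 : ZMod 2) else 0) =
      ∑ j ∈ Finset.range (x + 1), (if j = F.L i then (1 : ZMod 2) else 0) := by
    rw [Finset.sum_ite_eq']
    simp [Nat.lt_succ_iff]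
  have eR : (if F.R i ≤ x then (1 : ZMod 2) else 0) =
      ∑ j ∈ Finset.range (x + 1), (if j = F.R i then (1 : ZMod 2) else 0) := by
    rw [Finset.sum_ite_eq']
    simp [Nat.lt_succ_iff]
  rw [e, e, eL, eR, ← Finset.sum_add_distrib, ← Finset.sum_add_distrib]
  refine Finset.sum_congr rfl (fun j hj => ?_)
  have hjM : j < M := by have := Finset.mem_range.1 hj; omega
  have hDT := F.DT j hjM
  by_cases h1 : j = F.L i
  · have h2 : j ≠ F.R i := by omega
    have h3 := F.left i hiM
    rw [← h1] at h3
    rcases h3 with h3 | h3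
    · have c1 : Cr F.D F.T i j := ⟨by omega, by omega⟩
      have c2 : ¬ Cr F.D F.T (i - 1) j := by unfold Cr; omega
      rw [if_pos c1, if_neg c2, if_pos h1, if_neg h2]
      simp
    · have c1 : ¬ Cr F.D F.T i j := by unfold Cr; omega
      have c2 : Cr F.D F.T (i - 1) j := ⟨by omega, by omega⟩
      rw [if_neg c1, if_pos c2, if_pos h1, if_neg h2]
      decide
  · by_cases h2 : j = F.R i
    · have h3 := F.right i hiM
      rw [← h2] at h3
      rcases h3 with h3 | h3
      · have c1 : Cr F.D F.T i j := ⟨by omega, by omega⟩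
        have c2 : ¬ Cr F.D F.T (i - 1) j := by unfold Cr; omega
        rw [if_pos c1, if_neg c2, if_neg h1, if_pos h2]
        simp
      · have c1 : ¬ Cr F.D F.T i j := by unfold Cr; omega
        have c2 : Cr F.D F.T (i - 1) j := ⟨by omega, by omega⟩
        rw [if_neg c1, if_pos c2, if_neg h1, if_pos h2]
        decide
    · have h3 := F.cr_iff hi hjM h1 h2
      by_cases c : Cr F.D F.T (i - 1) j
      · rw [if_pos c, if_pos (h3.2 c), if_neg h1, if_neg h2]
        simp
      · rw [if_neg c, if_neg (fun h => c (h3.1 h)), if_neg h1, if_neg h2]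
        simp

theorem Q_change_out {i x : ℕ} (hi : 0 < i) (hiM : i < M) (hx : x < M)
    (h : x < F.L i ∨ F.R i ≤ x) : F.Q i x ↔ F.Q (i - 1) x := by
  have h1 := F.num_change hi hiM hx
  have hLR := F.LR i hiM
  unfold Q
  rw [← ZMod.natCast_eq_zero_iff_even, ← ZMod.natCast_eq_zero_iff_even, h1]
  rcases h with h | h
  · rw [if_neg (by omega), if_neg (by omega)]
    simp
  · rw [if_pos (by omega), if_pos h]
    have : (1 : ZMod 2) + 1 = 0 := by decide
    rw [this, add_zero]

theorem Q_change_in {i x : ℕ} (hi : 0 < i) (hiM : i < M) (hx : F.L i ≤ x) (hx2 : x < F.R i) :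
    F.Q i x ↔ ¬ F.Q (i - 1) x := by
  have hR := F.R_lt i hiM
  have h1 := F.num_change hi hiM (x := x) (by omega)
  unfold Q
  rw [← ZMod.natCast_eq_zero_iff_even, ← ZMod.natCast_eq_zero_iff_even, h1, if_pos hx,
    if_neg (by omega)]
  generalize (F.num (i - 1) x : ZMod 2) = z
  revert z
  decide

/-- The parity is constant along a wall. -/
theorem Q_wall {j : ℕ} (hj : j < M) : ∀ h, F.D j ≤ h → h < F.T j →
    (F.Q h j ↔ F.Q (F.D j) j) := by
  intro h hh
  induction h, hh using Nat.le_induction with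
  | base => intro _; exact Iff.rfl
  | succ h hh ih =>
    intro h2
    rw [← ih (by omega)]
    have hT := F.T_lt j hj
    have e : h + 1 - 1 = h := rfl
    have h3 := F.nc (h + 1) (by omega) j hj (by omega) h2
    have h4 : F.L (h + 1) ≠ j := by
      intro h5
      have h6 := F.left (h + 1) (by omega)
      rw [h5] at h6
      omega
    have h5 : F.R (h + 1) ≠ j := by
      intro h5
      have h6 := F.right (h + 1) (by omega)
      rw [h5] at h6
      omega
    have := F.Q_change_out (i := h + 1) (x := j) (by omega) (by omega) hj (by omega)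
    rw [e] at this
    exact this

theorem top_class {j : ℕ} (hj : j < M) : F.fA (F.T j) = j ↔ F.Q (F.D j) j := by
  have hDT := F.DT j hj
  have hTM := F.T_lt j hj
  have hLR := F.LR (F.T j) hTM
  have hhigh := F.high j hj
  have hc : Cr F.D F.T (F.T j - 1) j := ⟨by omega, by omega⟩
  rw [← F.Q_wall hj (F.T j - 1) (by omega) (by omega)]
  have hPB : F.PB (F.T j) ↔ F.Q (F.T j - 1) (F.L (F.T j)) := by
    unfold PB
    constructor
    · rintro (h | h)
      · omega
      · exact h
    · exact Or.inr
  rcases F.fAB (F.T j) with ⟨h1, h2, h3⟩ | ⟨h1, h2, h3⟩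
  · rw [hPB] at h1
    rcases hhigh with h4 | h4
    · rw [h4] at h1 h2
      exact ⟨fun _ => h1, fun _ => h2⟩
    · have h5 := F.Q_next hLR (by rw [h4]; exact hc)
        (fun z hz hz2 => (F.no_between (by omega) hTM hz hz2).1)
      rw [h4] at h5
      constructor
      · intro h; omega
      · intro h; exact absurd h1 (h5.1 h)
  · rw [hPB] at h1
    rcases hhigh with h4 | h4
    · rw [h4] at h1
      constructor
      · intro h; omega
      · intro h; exact absurd h h1
    · have h5 := F.Q_next hLR (by rw [h4]; exact hc)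
        (fun z hz hz2 => (F.no_between (by omega) hTM hz hz2).1)
      rw [h4] at h5 h2
      exact ⟨fun _ => h5.2 h1, fun _ => h2⟩

theorem num_zero_zero : F.num 0 0 = 1 := by
  classical
  unfold num
  have hM := F.hM
  have hc : Cr F.D F.T 0 0 := ⟨by rw [F.D0'], by rw [F.T0']; omega⟩
  rw [Finset.filter_true_of_mem]
  · simp
  · intro x hx
    have : x = 0 := by have := Finset.mem_range.1 hx; omega
    rw [this]
    exact hc

theorem bottom_class {j : ℕ} (hj : j < M) : F.fB (F.D j) = j ↔ F.Q (F.D j) j := by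
  have hM := F.hM
  have hDT := F.DT j hj
  have hDM := F.D_lt j hj
  have hLR := F.LR (F.D j) hDM
  have hlow := F.low j hj
  have hc : Cr F.D F.T (F.D j) j := ⟨le_refl _, hDT⟩
  by_cases h0 : F.D j = 0
  · have hPB : F.PB 0 := Or.inl rfl
    rcases F.fAB 0 with ⟨h1, h2, h3⟩ | ⟨h1, h2, h3⟩
    · rw [h0, h3, F.R0]
      rw [h0, F.L0, F.R0] at hlow
      have hq0 : ¬ F.Q 0 0 := by
        unfold Q
        rw [F.num_zero_zero]
        decide
      rcases hlow with h4 | h4
      · subst h4
        constructor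
        · intro h; omega
        · intro h; exact absurd h hq0
      · subst h4
        constructor
        · intro _
          refine (F.Q_next (l := 0) (r := M - 1) (by omega) ?_ ?_).2 hq0
          · rw [h0] at hc; exact hc
          · intro z hz hz2 hcz
            have h5 := F.low z (by omega)
            have h6 : F.D z = 0 := by have := hcz.1; omega
            rw [h6, F.L0, F.R0] at h5
            omega
        · intro _; rfl
    · exact absurd hPB h1
  · have hi : 0 < F.D j := by omega
    have hPB : F.PB (F.D j) ↔ F.Q (F.D j - 1) (F.L (F.D j)) := by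
      unfold PB
      constructor
      · rintro (h | h)
        · omega
        · exact h
      · exact Or.inr
    have hchL := F.Q_change_in hi hDM (le_refl _) hLR
    have hnext : F.R (F.D j) = j → (F.Q (F.D j) j ↔ F.PB (F.D j)) := by
      intro h4
      have h5 := F.Q_next hLR (by rw [h4]; exact hc)
        (fun z hz hz2 => (F.no_between hi hDM hz hz2).2)
      rw [h4] at h5
      rw [h5, hchL, hPB]
      tauto
    rcases F.fAB (F.D j) with ⟨h1, h2, h3⟩ | ⟨h1, h2, h3⟩
    · rcases hlow with h4 | h4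
      · rw [hPB] at h1
        rw [h4] at hchL h1
        constructor
        · intro h; omega
        · intro h; exact absurd h1 (hchL.1 h)
      · rw [hnext h4, h3]
        exact ⟨fun _ => h1, fun _ => h4⟩
    · rcases hlow with h4 | h4
      · rw [hPB] at h1
        rw [h4] at hchL h1 h3
        rw [h3]
        exact ⟨fun _ => hchL.2 h1, fun _ => rfl⟩
      · rw [hnext h4]
        constructor
        · intro h; omega
        · intro h; exact absurd h h1

/-- The frame with classes. -/
noncomputable def toFr : Fr M where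
  A := F.fA
  B := F.fB
  D := F.D
  T := F.T
  hM := F.hM
  A_lt := fun i hi => by
    have h1 := F.LR i hi
    have h2 := F.R_lt i hi
    rcases F.fAB i with h | h <;> omega
  B_lt := fun i hi => by
    have h1 := F.LR i hi
    have h2 := F.R_lt i hi
    rcases F.fAB i with h | h <;> omega
  AB := fun i hi => by
    have h1 := F.LR i hi
    rcases F.fAB i with h | h <;> omega
  DT := F.DT
  T_lt := F.T_lt
  wall := fun j hj => by
    have h1 := F.top_class hj
    have h2 := F.bottom_class hj
    have h3 := F.low j hj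
    have h4 := F.high j hj
    by_cases h : F.Q (F.D j) j
    · exact Or.inr ⟨h2.2 h, h1.2 h⟩
    · left
      have h5 : ¬ F.fA (F.T j) = j := fun h' => h (h1.1 h')
      have h6 : ¬ F.fB (F.D j) = j := fun h' => h (h2.1 h')
      rcases F.fAB (F.T j) with g | g <;> rcases F.fAB (F.D j) with g' | g' <;>
        constructor <;> omega
  DA := fun i hi => by
    rcases F.fAB i with h | h
    · rw [h.2.1]; exact F.left i hi
    · rw [h.2.1]; exact F.right i hi
  DB := fun i hi => by
    rcases F.fAB i with h | h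
    · rw [h.2.2]; exact F.right i hi
    · rw [h.2.2]; exact F.left i hi
  nc := fun i hi j hj h1 h2 => by
    have h3 := F.nc i hi j hj h1 h2
    have h4 := F.LR i hi
    rcases F.fAB i with h | h <;> omega
  D0 := F.D0'
  T0 := F.T0'
  DM := F.DM'
  TM := F.TM'
  f0 := by
    have h1 := F.L0
    have h2 := F.R0
    rcases F.fAB 0 with h | h <;> omega
  f1 := by
    have h1 := F.L1
    have h2 := F.R1
    rcases F.fAB (M - 1) with h | h <;> omega
  alt := by
    intro h l r hS
    obtain ⟨p1, p2, p3, p4, p5⟩ := hS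
    have h1 := F.top_class (j := l) (by omega)
    have h2 := F.top_class (j := r) p2
    rw [← F.Q_wall (by omega) h p3.1 p3.2] at h1
    rw [← F.Q_wall p2 h p4.1 p4.2] at h2
    have h3 := F.Q_next p1 p4 p5
    have h4 := F.high r p2
    have h5 := F.LR (F.T r) (F.T_lt r p2)
    have h6 : F.fB (F.T r) = r ↔ ¬ F.fA (F.T r) = r := by
      rcases F.fAB (F.T r) with g | g <;> omega
    rw [h1, h6, h2, h3]
    tauto

theorem toFr_A (i : ℕ) : F.toFr.A i = F.fA i := rfl

theorem toFr_B (i : ℕ) : F.toFr.B i = F.fB i := rfl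

theorem freeBox_of_FB {l r b t : ℕ} (h : F.toFr.FB l r b t) : F.FreeBox l r b t := by
  obtain ⟨h1, h2⟩ := h
  refine ⟨fun e he h3 h4 h5 => h1 e he h3 h4 ?_, h2⟩
  have h6 := F.LR e he
  rw [toFr_A, toFr_B]
  rcases F.fAB e with g | g <;> omega

theorem seesCell_of_SC {c h j i : ℕ} (hs : F.toFr.SC c h j i) : F.SeesCell c h j i := by
  obtain ⟨l, r, b, t, h1, h2, h3, h4, h5, h6, h7, h8, h9, h10, h11⟩ := hs
  exact ⟨l, r, b, t, h1, h2, h3, h4, h5, h6, h7, h8, h9, h10, F.freeBox_of_FB h11⟩

/-- The combinatorial theorem from the abstract one. -/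
theorem guards_of_abstract (C : ℕ)
    (habs : ∀ (M : ℕ) (R : Type) [Fintype R] [DecidableEq R] (Q : QSys M R),
      ∃ SA SB : Finset ℕ, (∀ a ∈ SA, 0 < a ∧ a + 1 < M) ∧ (∀ b ∈ SB, 0 < b ∧ b + 1 < M) ∧
        (∀ r, Q.ad r ∈ SA ∨ Q.au r ∈ SA ∨ Q.bd r ∈ SB ∨ Q.bu r ∈ SB) ∧
        3 * (SA.card + SB.card) ≤ 2 * M + C) :
    ∀ (M : ℕ) (F : Fr0 M), ∃ S : Finset (ℕ × ℕ), F.Inner S ∧ F.Guards S ∧
      3 * S.card ≤ 2 * M + C := by
  classical
  intro M F
  obtain ⟨Q, had, hau, hbd, hbu⟩ := F.toFr.exists_qsys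
  obtain ⟨SA, SB, hSA, hSB, hhit, hcard⟩ := habs M _ Q
  refine ⟨SA.image (fun a => (F.fA a, a)) ∪ SB.image (fun b => (F.fB b, b)), ?_, ?_, ?_⟩
  · intro p hp
    rw [Finset.mem_union, Finset.mem_image, Finset.mem_image] at hp
    rcases hp with ⟨a, ha, rfl⟩ | ⟨b, hb, rfl⟩
    · have h1 := hSA a ha
      refine ⟨h1.1, h1.2, ?_⟩
      simp only
      rcases F.fAB a with g | g <;> omega
    · have h1 := hSB b hb
      refine ⟨h1.1, h1.2, ?_⟩
      simp only
      rcases F.fAB b with g | g <;> omega
  · intro j i hj hi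
    obtain ⟨l, r, s, hrec, h1, h2, h3, h4⟩ := F.toFr.cell hj hi
    have hmem := (F.toFr.mem_recs (l, r, s)).2 hrec
    rcases hhit ⟨(l, r, s), hmem⟩ with h | h | h | h
    · refine ⟨(F.fA (Q.ad ⟨(l, r, s), hmem⟩), Q.ad ⟨(l, r, s), hmem⟩), ?_, ?_⟩
      · rw [Finset.mem_union, Finset.mem_image]
        exact Or.inl ⟨_, h, rfl⟩
      · exact F.seesCell_of_SC (h2 _ (had ⟨(l, r, s), hmem⟩))
    · refine ⟨(F.fA (Q.au ⟨(l, r, s), hmem⟩), Q.au ⟨(l, r, s), hmem⟩), ?_, ?_⟩
      · rw [Finset.mem_union, Finset.mem_image]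
        exact Or.inl ⟨_, h, rfl⟩
      · exact F.seesCell_of_SC (h1 _ (hau ⟨(l, r, s), hmem⟩))
    · refine ⟨(F.fB (Q.bd ⟨(l, r, s), hmem⟩), Q.bd ⟨(l, r, s), hmem⟩), ?_, ?_⟩
      · rw [Finset.mem_union, Finset.mem_image (s := SB)]
        exact Or.inr ⟨_, h, rfl⟩
      · exact F.seesCell_of_SC (h4 _ (hbd ⟨(l, r, s), hmem⟩))
    · refine ⟨(F.fB (Q.bu ⟨(l, r, s), hmem⟩), Q.bu ⟨(l, r, s), hmem⟩), ?_, ?_⟩
      · rw [Finset.mem_union, Finset.mem_image (s := SB)]
        exact Or.inr ⟨_, h, rfl⟩
      · exact F.seesCell_of_SC (h3 _ (hbu ⟨(l, r, s), hmem⟩))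
  · have h1 := Finset.card_union_le (SA.image (fun a => (F.fA a, a)))
      (SB.image (fun b => (F.fB b, b)))
    have h2 : (SA.image (fun a => (F.fA a, a))).card ≤ SA.card := Finset.card_image_le
    have h3 : (SB.image (fun b => (F.fB b, b))).card ≤ SB.card := Finset.card_image_le
    omega

end Fr0

end Pool.Agent.Helper68.PY
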