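import Mathlib

/-!
# Abstract output of the geometry of a prison yard

`QSys M R`: a finite set `R` of rectangles, each with four heights (naturals `< M`):
`ad r < au r` (two vertices of class `A`) and `bd r < bu r` (two vertices of class `B`).
-/

namespace Pool.Agent.Helper68.PY

/-- Abstract quadrangulation on heights. -/
structure QSys (M : ℕ) (R : Type) [Fintype R] [DecidableEq R] where
  ad : R → ℕ
  au : R → ℕ
  bd : R → ℕ
  bu : R → ℕ
  hM : 3 ≤ M
  ad_lt : ∀ r, ad r < au r
  bd_lt : ∀ r, bd r < bu r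
  au_lt : ∀ r, au r < M
  bu_lt : ∀ r, bu r < M
  card : Fintype.card R + 3 = 2 * M
  two : ∀ a b, a < M → b < M → ¬ ((a = 0 ∨ a + 1 = M) ∧ (b = 0 ∨ b + 1 = M)) →
    (Finset.univ.filter (fun r => (ad r = a ∨ au r = a) ∧ (bd r = b ∨ bu r = b))).card = 0 ∨
    (Finset.univ.filter (fun r => (ad r = a ∨ au r = a) ∧ (bd r = b ∨ bu r = b))).card = 2
  corner : ∀ a b, (a = 0 ∨ a + 1 = M) → (b = 0 ∨ b + 1 = M) →
    (Finset.univ.filter (fun r => (ad r = a ∨ au r = a) ∧ (bd r = b ∨ bu r = b))).card = 1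
  upA : ∀ a, a + 1 < M → ∃ r, ad r = a
  upB : ∀ b, b + 1 < M → ∃ r, bd r = b
  oppB : ∀ r s a, (ad r = a ∨ au r = a) → (ad s = a ∨ au s = a) → bd r = 0 → bu s + 1 = M →
    a = 0 ∨ a + 1 = M
  oppA : ∀ r s b, (bd r = b ∨ bu r = b) → (bd s = b ∨ bu s = b) → ad r = 0 → au s + 1 = M →
    b = 0 ∨ b + 1 = M
  neB : ∀ r, ¬ (bd r = 0 ∧ bu r + 1 = M)
  neA : ∀ r, ¬ (ad r = 0 ∧ au r + 1 = M)
  conn : ∀ S : Finset R, (∀ a b, a < M → b < M →
      ¬ ((a = 0 ∨ a + 1 = M) ∧ (b = 0 ∨ b + 1 = M)) →
      Even (S.filter (fun r => (ad r = a ∨ au r = a) ∧ (bd r = b ∨ bu r = b))).card) →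
    S = ∅ ∨ S = Finset.univ

namespace QSys

variable {M : ℕ} {R : Type} [Fintype R] [DecidableEq R]

/-- Exchange of the two classes. -/
def swap (Q : QSys M R) : QSys M R where
  ad := Q.bd
  au := Q.bu
  bd := Q.ad
  bu := Q.au
  hM := Q.hM
  ad_lt := Q.bd_lt
  bd_lt := Q.ad_lt
  au_lt := Q.bu_lt
  bu_lt := Q.au_lt
  card := Q.card
  two := by
    intro a b ha hb h
    have h1 := Q.two b a hb ha (fun h' => h ⟨h'.2, h'.1⟩)
    simpa [and_comm] using h1
  corner := by
    intro a b ha hb
    have h1 := Q.corner b a hb ha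
    simpa [and_comm] using h1
  upA := Q.upB
  upB := Q.upA
  oppB := Q.oppA
  oppA := Q.oppB
  neB := Q.neA
  neA := Q.neB
  conn := by
    intro S hS
    refine Q.conn S (fun a b ha hb h => ?_)
    have h1 := hS b a hb ha (fun h' => h ⟨h'.2, h'.1⟩)
    simpa [and_comm] using h1

/-- `T` is even at the height `a` of class `A`. -/
def EvenAt (Q : QSys M R) (T : Finset R) (a : ℕ) : Prop :=
  Even (T.filter (fun r => Q.ad r = a ∨ Q.au r = a)).card

instance (Q : QSys M R) (T : Finset R) (a : ℕ) : Decidable (Q.EvenAt T a) := by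
  unfold EvenAt; infer_instance

/-- Sum of the stars of the set `β` of heights of class `B`. -/
def star (Q : QSys M R) (β : Finset ℕ) : Finset R :=
  Finset.univ.filter (fun r => ¬ (Q.bd r ∈ β ↔ Q.bu r ∈ β))

theorem mem_star (Q : QSys M R) (β : Finset ℕ) (r : R) :
    r ∈ Q.star β ↔ ¬ (Q.bd r ∈ β ↔ Q.bu r ∈ β) := by
  simp [star]

theorem even_pair (Q : QSys M R) (a b : ℕ) (ha : a < M) (hb : 1 ≤ b) (hb' : b + 1 < M) :
    Even (Finset.univ.filter (fun r =>
      (Q.ad r = a ∨ Q.au r = a) ∧ (Q.bd r = b ∨ Q.bu r = b))).card := by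
  rcases Q.two a b ha (by omega) (by omega) with h | h <;> rw [h] <;> decide

theorem star_evenAt (Q : QSys M R) (β : Finset ℕ) (hβ : ∀ b ∈ β, 1 ≤ b ∧ b + 1 < M)
    (a : ℕ) (ha : a < M) : Q.EvenAt (Q.star β) a := by
  classical
  unfold EvenAt
  have key : ((((Q.star β).filter (fun r => Q.ad r = a ∨ Q.au r = a)).card : ℕ) : ZMod 2) =
      ∑ b ∈ β, ((((Finset.univ.filter (fun r =>
      (Q.ad r = a ∨ Q.au r = a) ∧ (Q.bd r = b ∨ Q.bu r = b))).card : ℕ)) : ZMod 2) := by
    have e1 : ((((Q.star β).filter (fun r => Q.ad r = a ∨ Q.au r = a)).card : ℕ) : ZMod 2) =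
        ∑ r : R, (if Q.ad r = a ∨ Q.au r = a then
          ((if Q.bd r ∈ β then (1 : ZMod 2) else 0) + (if Q.bu r ∈ β then (1 : ZMod 2) else 0))
          else 0) := by
      rw [star, Finset.filter_filter, Finset.card_filter]
      push_cast
      refine Finset.sum_congr rfl (fun r _ => ?_)
      by_cases h1 : Q.bd r ∈ β <;> by_cases h2 : Q.bu r ∈ β <;>
        by_cases h3 : Q.ad r = a ∨ Q.au r = a <;> simp [h1, h2, h3]
      all_goals decide
    rw [e1]
    have e2 : ∀ b, ((((Finset.univ.filter (fun r =>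
      (Q.ad r = a ∨ Q.au r = a) ∧ (Q.bd r = b ∨ Q.bu r = b))).card : ℕ)) : ZMod 2) =
        ∑ r : R, (if Q.ad r = a ∨ Q.au r = a then
          ((if Q.bd r = b then (1 : ZMod 2) else 0) + (if Q.bu r = b then (1 : ZMod 2) else 0))
          else 0) := by
      intro b
      rw [Finset.card_filter]
      push_cast
      refine Finset.sum_congr rfl (fun r _ => ?_)
      have hne := Q.bd_lt r
      by_cases h1 : Q.bd r = b <;> by_cases h2 : Q.bu r = b <;>
        by_cases h3 : Q.ad r = a ∨ Q.au r = a <;> simp [h1, h2, h3]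
      all_goals (exfalso; omega)
    simp_rw [e2]
    rw [Finset.sum_comm]
    refine Finset.sum_congr rfl (fun r _ => ?_)
    by_cases h3 : Q.ad r = a ∨ Q.au r = a
    · simp only [h3, if_true]
      rw [Finset.sum_add_distrib]
      simp [Finset.sum_ite_eq]
    · simp [h3]
  have hz : ∑ b ∈ β, ((((Finset.univ.filter (fun r =>
      (Q.ad r = a ∨ Q.au r = a) ∧ (Q.bd r = b ∨ Q.bu r = b))).card : ℕ)) : ZMod 2) = 0 := by
    refine Finset.sum_eq_zero (fun b hb => ?_)
    have h := Q.even_pair a b ha (hβ b hb).1 (hβ b hb).2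
    exact (ZMod.natCast_eq_zero_iff_even).2 h
  rw [hz] at key
  exact (ZMod.natCast_eq_zero_iff_even).1 key

/-- Independence of the stars of heights `b < M - 1`. -/
theorem star_inj (Q : QSys M R) (β γ : Finset ℕ) (hβ : ∀ b ∈ β, b + 1 < M)
    (hγ : ∀ b ∈ γ, b + 1 < M) (h : Q.star β = Q.star γ) : β = γ := by
  classical
  by_contra hne
  have hD : (symmDiff β γ).Nonempty := by
    rw [Finset.nonempty_iff_ne_empty]
    intro h0
    exact hne (symmDiff_eq_bot.1 (by simpa using h0))
  set m := (symmDiff β γ).max' hD with hm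
  have hmem : m ∈ symmDiff β γ := Finset.max'_mem _ _
  have hmlt : m + 1 < M := by
    rcases Finset.mem_symmDiff.1 hmem with h1 | h1
    · exact hβ m h1.1
    · exact hγ m h1.1
  obtain ⟨r, hr⟩ := Q.upB m hmlt
  have hbu : Q.bu r ∉ symmDiff β γ := by
    intro h1
    have h2 := Finset.le_max' _ _ h1
    have h3 := Q.bd_lt r
    omega
  have hr2 : r ∈ Q.star β ↔ r ∈ Q.star γ := by rw [h]
  rw [mem_star, mem_star, hr] at hr2
  rw [Finset.mem_symmDiff] at hbu hmem
  tauto

theorem evenAt_eq (Q : QSys M R) (c : ℕ → R) (hc : ∀ a, a + 1 < M → Q.ad (c a) = a)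
    (T U : Finset R) (hT : ∀ a < M, Q.EvenAt T a) (hU : ∀ a < M, Q.EvenAt U a)
    (h : ∀ r, (∀ a, a + 1 < M → r ≠ c a) → (r ∈ T ↔ r ∈ U)) : T = U := by
  classical
  by_contra hne
  have hex : ∃ a, a + 1 < M ∧ c a ∈ symmDiff T U := by
    by_contra hno
    push Not at hno
    apply hne
    ext r
    by_cases hr : ∀ a, a + 1 < M → r ≠ c a
    · exact h r hr
    · push Not at hr
      obtain ⟨a, ha, rfl⟩ := hr
      have := hno a ha
      rw [Finset.mem_symmDiff] at this
      tauto
  obtain ⟨ha, hmem⟩ := Nat.find_spec hex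
  set a := Nat.find hex with hadef
  have hmin : ∀ a', a' < a → ¬ (a' + 1 < M ∧ c a' ∈ symmDiff T U) :=
    fun a' h' => Nat.find_min hex h'
  -- parity
  have hpar : ((((symmDiff T U).filter (fun r => Q.ad r = a ∨ Q.au r = a)).card : ℕ) : ZMod 2) =
      (((T.filter (fun r => Q.ad r = a ∨ Q.au r = a)).card : ℕ) : ZMod 2) +
      (((U.filter (fun r => Q.ad r = a ∨ Q.au r = a)).card : ℕ) : ZMod 2) := by
    have e : ∀ S : Finset R, (((S.filter (fun r => Q.ad r = a ∨ Q.au r = a)).card : ℕ) : ZMod 2)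
        = ∑ r : R, if r ∈ S ∧ (Q.ad r = a ∨ Q.au r = a) then (1 : ZMod 2) else 0 := by
      intro S
      rw [← Finset.natCast_card_filter]
      congr 2
      ext r
      simp
    rw [e, e, e, ← Finset.sum_add_distrib]
    refine Finset.sum_congr rfl (fun r _ => ?_)
    by_cases h1 : r ∈ T <;> by_cases h2 : r ∈ U <;>
      by_cases h3 : Q.ad r = a ∨ Q.au r = a <;> simp [h1, h2, h3, Finset.mem_symmDiff]
    all_goals decide
  have hT' := hT a (by omega)
  have hU' := hU a (by omega)
  unfold EvenAt at hT' hU'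
  rw [(ZMod.natCast_eq_zero_iff_even).2 hT', (ZMod.natCast_eq_zero_iff_even).2 hU'] at hpar
  have hone : (symmDiff T U).filter (fun r => Q.ad r = a ∨ Q.au r = a) = {c a} := by
    ext r
    rw [Finset.mem_filter, Finset.mem_singleton]
    constructor
    · rintro ⟨hr, hr2⟩
      have hr3 : ∃ a', a' + 1 < M ∧ r = c a' := by
        by_contra hno
        push Not at hno
        have := h r hno
        rw [Finset.mem_symmDiff] at hr
        tauto
      obtain ⟨a', ha', rfl⟩ := hr3
      have h1 : ¬ a' < a := fun h' => hmin a' h' ⟨ha', hr⟩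
      have h2 := hc a' ha'
      have h3 := Q.ad_lt (c a')
      have h4 : a' = a := by
        rcases hr2 with h5 | h5 <;> omega
      rw [h4]
    · rintro rfl
      exact ⟨hmem, Or.inl (hc a ha)⟩
  rw [hone] at hpar
  simp at hpar

/-- The graph of pairs is connected (with the outer quadrangle). -/
theorem gconn (Q : QSys M R) {X : Type} (α β : ℕ → X)
    (h : ∀ r a b, (Q.ad r = a ∨ Q.au r = a) → (Q.bd r = b ∨ Q.bu r = b) → α a = β b)
    (a b : ℕ) (ha : a < M) (hb : b < M) :
    α a = α (M - 1) ∧ β b = β (M - 1) := by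
  have up : ∀ k a, a < M → M - 1 - a = k → α a = α (M - 1) := by
    intro k
    induction k using Nat.strong_induction_on with
    | _ k ih =>
      intro a ha hk
      by_cases hlt : a + 1 < M
      · obtain ⟨r, hr⟩ := Q.upA a hlt
        have h1 := Q.ad_lt r
        have h2 := Q.au_lt r
        have e1 := h r a (Q.bd r) (Or.inl hr) (Or.inl rfl)
        have e2 := h r (Q.au r) (Q.bd r) (Or.inr rfl) (Or.inl rfl)
        rw [e1, ← e2]
        exact ih (M - 1 - Q.au r) (by omega) _ h2 rfl
      · have : a = M - 1 := by omega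
        rw [this]
  have upb : ∀ k a, a < M → M - 1 - a = k → β a = β (M - 1) := by
    intro k
    induction k using Nat.strong_induction_on with
    | _ k ih =>
      intro a ha hk
      by_cases hlt : a + 1 < M
      · obtain ⟨r, hr⟩ := Q.upB a hlt
        have h1 := Q.bd_lt r
        have h2 := Q.bu_lt r
        have e1 := h r (Q.ad r) a (Or.inl rfl) (Or.inl hr)
        have e2 := h r (Q.ad r) (Q.bu r) (Or.inl rfl) (Or.inr rfl)
        rw [← e1, e2]
        exact ih (M - 1 - Q.bu r) (by omega) _ h2 rfl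
      · have : a = M - 1 := by omega
        rw [this]
  exact ⟨up _ a ha rfl, upb _ b hb rfl⟩

/-- Every even set of rectangles is a sum of stars of inner heights of class `B`. -/
theorem filled (Q : QSys M R) (T : Finset R) (hT : ∀ a < M, Q.EvenAt T a) :
    ∃ β : Finset ℕ, (∀ b ∈ β, 1 ≤ b ∧ b + 1 < M) ∧ T = Q.star β := by
  classical
  have hM := Q.hM
  choose c hc using (fun a => fun (h : a + 1 < M) => Q.upA a h)
  let r0 : R := c 0 (by omega)
  let c' : ℕ → R := fun a => if h : a + 1 < M then c a h else r0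
  have hc' : ∀ a, a + 1 < M → Q.ad (c' a) = a := by
    intro a ha
    simp only [c', ha, dif_pos]
    exact hc a ha
  let W : Finset ℕ := Finset.Ico 1 (M - 1)
  have hW : W.card = M - 2 := by simp [W]; omega
  let C : Finset R := (Finset.range (M - 1)).image c'
  have hC : C.card = M - 1 := by
    rw [Finset.card_image_of_injOn, Finset.card_range]
    intro x hx y hy hxy
    have hx' : x + 1 < M := by have := Finset.mem_range.1 (Finset.mem_coe.1 hx); omega
    have hy' : y + 1 < M := by have := Finset.mem_range.1 (Finset.mem_coe.1 hy); omega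
    have := congrArg Q.ad hxy
    simpa [hc' x hx', hc' y hy'] using this
  have hCc : (Finset.univ \ C).card = M - 2 := by
    rw [Finset.card_sdiff_of_subset (Finset.subset_univ _), Finset.card_univ, hC]
    have := Q.card
    omega
  let E : Finset (Finset R) := Finset.univ.filter (fun T => ∀ a < M, Q.EvenAt T a)
  have hEcard : E.card ≤ 2 ^ (M - 2) := by
    rw [← hCc, ← Finset.card_powerset]
    refine Finset.card_le_card_of_injOn (fun T => T \ C) ?_ ?_
    · intro T _
      simp only [Finset.coe_powerset, Set.mem_preimage, Set.mem_powerset_iff]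
      intro r hr
      simp only [Finset.coe_sdiff, Set.mem_diff, Finset.mem_coe] at hr ⊢
      exact ⟨Finset.mem_univ _, hr.2⟩
    · intro T hT U hU hTU
      have hT' := (Finset.mem_filter.1 (Finset.mem_coe.1 hT)).2
      have hU' := (Finset.mem_filter.1 (Finset.mem_coe.1 hU)).2
      refine Q.evenAt_eq c' hc' T U hT' hU' (fun r hr => ?_)
      have hrC : r ∉ C := by
        intro h
        obtain ⟨a, ha, rfl⟩ := Finset.mem_image.1 h
        exact hr a (by have := Finset.mem_range.1 ha; omega) rfl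
      have h1 : r ∈ T \ C ↔ r ∈ U \ C := by
        have : T \ C = U \ C := hTU
        rw [this]
      simpa [Finset.mem_sdiff, hrC] using h1
  have hsurj := Finset.surjOn_of_injOn_of_card_le (s := W.powerset) (t := E) (fun β => Q.star β)
    (by
      intro β hβ
      have hβ' := Finset.mem_powerset.1 (Finset.mem_coe.1 hβ)
      simp only [E, Finset.coe_filter, Finset.mem_univ, true_and, Set.mem_setOf_eq]
      intro a ha
      refine Q.star_evenAt β (fun b hb => ?_) a ha
      have := Finset.mem_Ico.1 (hβ' hb)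
      omega)
    (by
      intro β hβ γ hγ h
      have hβ' := Finset.mem_powerset.1 (Finset.mem_coe.1 hβ)
      have hγ' := Finset.mem_powerset.1 (Finset.mem_coe.1 hγ)
      refine Q.star_inj β γ (fun b hb => ?_) (fun b hb => ?_) h
      · have := Finset.mem_Ico.1 (hβ' hb); omega
      · have := Finset.mem_Ico.1 (hγ' hb); omega)
    (by rw [Finset.card_powerset, hW]; exact hEcard)
  obtain ⟨β, hβ, hβT⟩ := hsurj (show T ∈ (E : Set (Finset R)) by
    simp only [E, Finset.coe_filter, Finset.mem_univ, true_and, Set.mem_setOf_eq]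
    exact hT)
  refine ⟨β, fun b hb => ?_, hβT.symm⟩
  have := Finset.mem_Ico.1 (Finset.mem_powerset.1 (Finset.mem_coe.1 hβ) hb)
  omega

end QSys

end Pool.Agent.Helper68.PY
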