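import Pool.Agent.Helper83.PY.Defs2
import Pool.Agent.Helper83.PY.Bridge
import Pool.Agent.Helper68.PY.Class

/-!
# From the four-hub theorem for spheres to frames
-/

open Finset

set_option linter.unusedSectionVars false
set_option linter.unusedSimpArgs false
set_option linter.unusedVariables false

namespace Helper83.PY

open Pool.Agent.Helper68.PY

variable (ι : Type) [DecidableEq ι] in
/-- The four-hub theorem with constant `C` (two forbidden neighbours `u1, u2` of the forbidden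
hub `h`, with no other common neighbour). -/
def FourHubs (C : ℕ) : Prop :=
  ∀ (A B : Type) [DecidableEq A] [DecidableEq B] [Fintype A] [Fintype B]
    (Q : QS ι A B) (E : Finset ι) (u1 u2 : A) (h : B),
    IsSph Q E → 2 ≤ E.card → u1 ≠ u2 → Adj Q E u1 h → Adj Q E u2 h →
    (∀ b, Adj Q E u1 b → Adj Q E u2 b → b = h) →
    ∃ (SA : Finset A) (SB : Finset B), u1 ∉ SA ∧ u2 ∉ SA ∧ h ∉ SB ∧ Hit Q E SA SB ∧
      3 * (SA.card + SB.card) ≤ E.card + C

theorem qsys_of_fourHubs {C : ℕ} (hF : ∀ (ι : Type) [DecidableEq ι], FourHubs ι C)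
    (M : ℕ) (R : Type) [Fintype R] [DecidableEq R] (Q : QSys M R) :
    ∃ SA SB : Finset ℕ, (∀ a ∈ SA, 0 < a ∧ a + 1 < M) ∧ (∀ b ∈ SB, 0 < b ∧ b + 1 < M) ∧
      (∀ r, Q.ad r ∈ SA ∨ Q.au r ∈ SA ∨ Q.bd r ∈ SB ∨ Q.bu r ∈ SB) ∧
      3 * (SA.card + SB.card) ≤ 2 * M + C := by
  classical
  have hM := Q.hM
  set E : Finset (Option R) := Finset.univ.erase none with hE
  have hlh := lo_ne_hi Q
  have hsub : E ⊆ Finset.univ := Finset.subset_univ _
  have hreg := toQS_reg Q
  have hsph : IsSph ((toQS Q).ren (hi Q) (lo Q)) E :=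
    block_sph (toQS_sph Q) hsub hreg (fun a h1 h2 => toQS_block Q a h1 h2)
  have hcard : E.card = Fintype.card R := by
    rw [hE, Finset.card_erase_of_mem (Finset.mem_univ _), Finset.card_univ, Fintype.card_option]
    simp
  have hadj : ∀ a : Fin M, a = lo Q ∨ a = hi Q → Adj ((toQS Q).ren (hi Q) (lo Q)) E a (lo Q) := by
    intro a ha
    obtain ⟨i, hi1, hi2, hi3⟩ := reg_corner hreg ha (Or.inl rfl : lo Q = lo Q ∨ lo Q = hi Q)
    exact ⟨i, hi1, hi2, (ren_atB_hub hlh i).2 (Or.inl hi3)⟩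
  have honly : ∀ b, Adj ((toQS Q).ren (hi Q) (lo Q)) E (lo Q) b →
      Adj ((toQS Q).ren (hi Q) (lo Q)) E (hi Q) b → b = lo Q := by
    rintro b ⟨i, hi1, hi2, hi3⟩ ⟨j, hj1, hj2, hj3⟩
    by_contra hb
    have hb2 : b ≠ hi Q := by
      rintro rfl
      exact ren_atB_f hlh i hi3
    rw [ren_atB_other hb hb2] at hi3 hj3
    rcases i with _ | r
    · exact (Finset.mem_erase.1 hi1).1 rfl
    rcases j with _ | s
    · exact (Finset.mem_erase.1 hj1).1 rfl
    rw [toQS_atB] at hi3 hj3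
    have hi2' := (toQS_atA Q r (lo Q)).1 hi2
    have hj2' := (toQS_atA Q s (hi Q)).1 hj2
    have g1 := Q.ad_lt r
    have g2 := Q.ad_lt s
    have g3 := Q.au_lt s
    simp only [lo, hi] at hi2' hj2'
    have e1 : Q.ad r = 0 := by omega
    have e2 : Q.au s + 1 = M := by omega
    rcases Q.oppA r s b.val hi3 hj3 e1 e2 with h3 | h3
    · apply hb
      apply Fin.ext
      simp only [lo]
      exact h3
    · apply hb2
      apply Fin.ext
      simp only [hi]
      omega
  obtain ⟨SA, SB, k1, k2, k3, k4, k5⟩ := hF (Option R) (Fin M) (Fin M)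
    ((toQS Q).ren (hi Q) (lo Q)) E (lo Q) (hi Q) (lo Q) hsph
    (by have := Q.card; omega) hlh (hadj _ (Or.inl rfl))
    (hadj _ (Or.inr rfl)) honly
  have hhit := hit_ren k3 k4
  refine ⟨SA.image Fin.val, (SB.erase (hi Q)).image Fin.val, ?_, ?_, ?_, ?_⟩
  · intro a ha
    obtain ⟨x, hx, rfl⟩ := Finset.mem_image.1 ha
    have h1 : x ≠ lo Q := by rintro rfl; exact k1 hx
    have h2 : x ≠ hi Q := by rintro rfl; exact k2 hx
    have h3 := x.2
    have h4 : x.val ≠ 0 := fun h => h1 (Fin.ext h)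
    have h5 : x.val ≠ M - 1 := fun h => h2 (Fin.ext h)
    omega
  · intro a ha
    obtain ⟨x, hx, rfl⟩ := Finset.mem_image.1 ha
    have hx' := Finset.mem_erase.1 hx
    have h1 : x ≠ lo Q := by rintro rfl; exact k3 hx'.2
    have h2 : x ≠ hi Q := hx'.1
    have h3 := x.2
    have h4 : x.val ≠ 0 := fun h => h1 (Fin.ext h)
    have h5 : x.val ≠ M - 1 := fun h => h2 (Fin.ext h)
    omega
  · intro r
    rcases hhit (some r) (Finset.mem_erase.2 ⟨by simp, Finset.mem_univ _⟩) with h | h | h | h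
    · left; exact Finset.mem_image.2 ⟨_, h, rfl⟩
    · right; left; exact Finset.mem_image.2 ⟨_, h, rfl⟩
    · right; right; left; exact Finset.mem_image.2 ⟨_, h, rfl⟩
    · right; right; right; exact Finset.mem_image.2 ⟨_, h, rfl⟩
  · have h1 : (SA.image Fin.val).card ≤ SA.card := Finset.card_image_le
    have h2 : ((SB.erase (hi Q)).image Fin.val).card ≤ SB.card :=
      le_trans Finset.card_image_le (Finset.card_erase_le)
    have h3 := Q.card
    omega

/-- Frames from the four-hub theorem. -/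
theorem frames_of_fourHubs {C : ℕ} (hF : ∀ (ι : Type) [DecidableEq ι], FourHubs ι C) :
    ∀ (M : ℕ) (F : Fr0 M), ∃ S : Finset (ℕ × ℕ), F.Inner S ∧ F.Guards S ∧
      3 * S.card ≤ 2 * M + C :=
  Fr0.guards_of_abstract C (fun M R _ _ Q => qsys_of_fourHubs hF M R Q)

end Helper83.PY
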