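import Pool.Agent.Helper83.PY.St.P9
import Pool.Agent.Helper68.PY.Four

/-!
# Frames have guard sets of size `(2 M + 9) / 3`
-/

namespace Helper83.PY

open Pool.Agent.Helper68.PY

theorem fourHubs_nine (ι : Type) [DecidableEq ι] : FourHubs ι 9 := by
  intro A B _ _ _ _ Q E u1 u2 h hE h2 hne h1 h3 hc
  have hs : Setg Q E u1 h {u2} :=
    { sph := hE
      adj := h1
      uU := fun h4 => hne (Finset.mem_singleton.1 h4)
      outer := fun v hv => by rw [Finset.mem_singleton.1 hv]; exact h3
      disj := fun v hv b g1 g2 => by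
        rw [Finset.mem_singleton.1 hv] at g1
        exact hc b g2 g1 }
  obtain ⟨SA, SB, _, k2, k3, k4, k5, k6⟩ := four_hubs Q E u1 u2 h hs h2
  exact ⟨SA, SB, k2, k3 u2 (Finset.mem_singleton_self _), k4, k5, k6⟩

/-- Every frame has a set of at most `(2 M + 9) / 3` vertices guarding all cells. -/
theorem frame_guards (M : ℕ) (F : Fr0 M) : ∃ S : Finset (ℕ × ℕ), F.Inner S ∧ F.Guards S ∧
    3 * S.card ≤ 2 * M + 9 :=
  frames_of_fourHubs (C := 9) (fun ι _ => fourHubs_nine ι) M F

end Helper83.PY
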