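import Mathlib

/-!
# A one-dimensional lemma (Cartesian tree of a sequence)

`ρ` is a sequence on the levels `s0 ≤ k < t0`; equal values are only possible when all
values between are not larger.
-/

namespace Pool.Agent.Helper68.PY

/-- `a` is the next smaller position after `k`. -/
def NS (ρ : ℕ → ℕ) (t0 k a : ℕ) : Prop :=
  k < a ∧ a ≤ t0 ∧ (∀ i, k < i → i < a → ρ k ≤ ρ i) ∧ (a = t0 ∨ ρ a < ρ k)

/-- `b - 1` is the previous smaller position before `k`. -/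
def PS (ρ : ℕ → ℕ) (s0 k b : ℕ) : Prop :=
  b ≤ k ∧ s0 ≤ b ∧ (∀ i, b ≤ i → i < k → ρ k ≤ ρ i) ∧ (b = s0 ∨ ρ (b - 1) < ρ k)

/-- `s` is the first level of a run. -/
def RunStart (ρ : ℕ → ℕ) (s0 t0 s : ℕ) : Prop :=
  s0 ≤ s ∧ s < t0 ∧ (s = s0 ∨ ρ (s - 1) ≠ ρ s)

/-- The run starting at `s` ends just below `b`. -/
def TopEnd (ρ : ℕ → ℕ) (s b : ℕ) : Prop :=
  s < b ∧ (∀ i, s ≤ i → i < b → ρ i = ρ s) ∧ ρ b ≠ ρ s

/-- The run `s` contains the pair `(a,b)`, `b < a`. -/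
def ZZ (ρ : ℕ → ℕ) (s0 t0 a b s : ℕ) : Prop :=
  RunStart ρ s0 t0 s ∧ ((NS ρ t0 s a ∧ PS ρ s0 s b) ∨ (NS ρ t0 s a ∧ TopEnd ρ s b) ∨
    (s = a ∧ PS ρ s0 s b))

/-- The pair `(a,b)` is a record pair. -/
def PP (ρ : ℕ → ℕ) (s0 t0 a b : ℕ) : Prop :=
  s0 ≤ b ∧ b < a ∧ a ≤ t0 ∧ (b = s0 ∨ ∀ k, b ≤ k → k < a → ρ (b - 1) < ρ k) ∧
    (a = t0 ∨ ∀ k, b ≤ k → k < a → ρ a < ρ k)

/-- No ties. -/
def NoTie (ρ : ℕ → ℕ) (s0 t0 : ℕ) : Prop :=
  ∀ i j k, s0 ≤ i → i ≤ k → k ≤ j → j < t0 → ρ i = ρ j → ρ k ≤ ρ i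

theorem exists_NS (ρ : ℕ → ℕ) (t0 k : ℕ) (hk : k < t0) : ∃ a, NS ρ t0 k a := by
  classical
  have hex : ∃ a, k < a ∧ (a = t0 ∨ ρ a < ρ k) := ⟨t0, hk, Or.inl rfl⟩
  refine ⟨Nat.find hex, (Nat.find_spec hex).1, ?_, ?_, (Nat.find_spec hex).2⟩
  · exact Nat.find_min' hex ⟨hk, Or.inl rfl⟩
  · intro i hi hi2
    have := Nat.find_min hex hi2
    push Not at this
    exact (this hi).2

theorem exists_PS (ρ : ℕ → ℕ) (s0 k : ℕ) (hk : s0 ≤ k) : ∃ b, PS ρ s0 k b := by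
  classical
  have hex : ∃ d, s0 ≤ k - d ∧ d ≤ k ∧ (k - d = s0 ∨ ρ (k - d - 1) < ρ k) :=
    ⟨k - s0, by omega, by omega, Or.inl (by omega)⟩
  obtain ⟨h1, h2, h3⟩ := Nat.find_spec hex
  refine ⟨k - Nat.find hex, by omega, h1, ?_, h3⟩
  intro i hi hi2
  have := Nat.find_min hex (m := k - i - 1) (by omega)
  push Not at this
  have h4 := (this (by omega) (by omega)).2
  have e : k - (k - i - 1) - 1 = i := by omega
  rw [e] at h4
  exact h4

theorem exists_start (ρ : ℕ → ℕ) (s0 t0 k : ℕ) (hk : s0 ≤ k) (hk2 : k < t0) :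
    ∃ s, RunStart ρ s0 t0 s ∧ s ≤ k ∧ ∀ i, s ≤ i → i ≤ k → ρ i = ρ k := by
  classical
  have hex : ∃ s, s0 ≤ s ∧ s ≤ k ∧ ∀ i, s ≤ i → i ≤ k → ρ i = ρ k :=
    ⟨k, hk, le_refl _, fun i h1 h2 => by rw [le_antisymm h2 h1]⟩
  obtain ⟨h1, h2, h3⟩ := Nat.find_spec hex
  refine ⟨Nat.find hex, ⟨h1, by omega, ?_⟩, h2, h3⟩
  by_contra hcon
  push Not at hcon
  obtain ⟨h4, h5⟩ := hcon
  refine Nat.find_min hex (m := Nat.find hex - 1) (by omega) ⟨by omega, by omega, ?_⟩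
  intro i hi hi2
  by_cases hi3 : i = Nat.find hex - 1
  · rw [hi3, h5]
    exact h3 _ (le_refl _) h2
  · exact h3 i (by omega) hi2

/-- A run is determined by any of its levels. -/
theorem start_unique {ρ : ℕ → ℕ} {s0 t0 k s s' : ℕ}
    (hs : RunStart ρ s0 t0 s) (hs' : RunStart ρ s0 t0 s')
    (h : s ≤ k) (h' : s' ≤ k) (hc : ∀ i, s ≤ i → i ≤ k → ρ i = ρ k)
    (hc' : ∀ i, s' ≤ i → i ≤ k → ρ i = ρ k) : s = s' := by
  by_contra hne
  rcases Nat.lt_or_ge s s' with hlt | hge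
  · obtain ⟨h1, h2, h3⟩ := hs'
    obtain ⟨h1', h2', h3'⟩ := hs
    rcases h3 with h3 | h3
    · omega
    · apply h3
      rw [hc (s' - 1) (by omega) (by omega), hc' s' (le_refl _) h']
  · obtain ⟨h1, h2, h3⟩ := hs
    obtain ⟨h1', h2', h3'⟩ := hs'
    rcases h3 with h3 | h3
    · omega
    · apply h3
      rw [hc' (s - 1) (by omega) (by omega), hc s (le_refl _) h]

theorem PP_of_ZZ {ρ : ℕ → ℕ} {s0 t0 a b s : ℕ} (nt : NoTie ρ s0 t0) (hba : b < a)
    (h : ZZ ρ s0 t0 a b s) : PP ρ s0 t0 a b := by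
  obtain ⟨⟨hs1, hs2, hs3⟩, h | h | h⟩ := h
  · obtain ⟨⟨n1, n2, n3, n4⟩, p1, p2, p3, p4⟩ := h
    refine ⟨p2, hba, n2, ?_, ?_⟩
    · rcases p4 with p4 | p4
      · exact Or.inl p4
      · right
        intro k hk hk2
        rcases lt_trichotomy k s with h5 | h5 | h5
        · exact lt_of_lt_of_le p4 (p3 k hk h5)
        · rw [h5]; exact p4
        · exact lt_of_lt_of_le p4 (n3 k h5 hk2)
    · rcases n4 with n4 | n4
      · exact Or.inl n4
      · right
        intro k hk hk2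
        rcases lt_trichotomy k s with h5 | h5 | h5
        · exact lt_of_lt_of_le n4 (p3 k hk h5)
        · rw [h5]; exact n4
        · exact lt_of_lt_of_le n4 (n3 k h5 hk2)
  · obtain ⟨⟨n1, n2, n3, n4⟩, t1, t2, t3⟩ := h
    have hb1 : ρ (b - 1) = ρ s := t2 _ (by omega) (by omega)
    have hlt : ∀ k, b ≤ k → k < a → ρ s < ρ k := by
      intro k hk hk2
      have h5 := n3 k (by omega) hk2
      rcases lt_or_eq_of_le h5 with h6 | h6
      · exact h6
      · exfalso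
        have h7 := nt s k b (by omega) (by omega) hk (by omega) h6
        have h8 := n3 b t1 hba
        exact t3 (le_antisymm h7 h8)
    refine ⟨by omega, hba, n2, Or.inr ?_, ?_⟩
    · intro k hk hk2
      rw [hb1]; exact hlt k hk hk2
    · rcases n4 with n4 | n4
      · exact Or.inl n4
      · right
        intro k hk hk2
        exact lt_trans n4 (hlt k hk hk2)
  · obtain ⟨h0, p1, p2, p3, p4⟩ := h
    subst h0
    have hs4 : ρ (s - 1) ≠ ρ s := by
      rcases hs3 with h5 | h5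
      · omega
      · exact h5
    have hlt : ∀ k, b ≤ k → k < s → ρ s < ρ k := by
      intro k hk hk2
      have h5 := p3 k hk hk2
      rcases lt_or_eq_of_le h5 with h6 | h6
      · exact h6
      · exfalso
        have h7 := nt k s (s - 1) (by omega) (by omega) (by omega) hs2 h6.symm
        have h8 := p3 (s - 1) (by omega) (by omega)
        rw [← h6] at h7
        exact hs4 (le_antisymm h7 h8)
    refine ⟨p2, hba, le_of_lt hs2, ?_, Or.inr hlt⟩
    rcases p4 with p4 | p4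
    · exact Or.inl p4
    · right
      intro k hk hk2
      exact lt_trans p4 (hlt k hk hk2)

/-- The run with the minimal value between `b` and `a`. -/
theorem exists_mid {ρ : ℕ → ℕ} {s0 t0 a b : ℕ} (nt : NoTie ρ s0 t0)
    (h : PP ρ s0 t0 a b) :
    ∃ s, b ≤ s ∧ s < a ∧ RunStart ρ s0 t0 s ∧ NS ρ t0 s a ∧ PS ρ s0 s b ∧
      ∀ s', RunStart ρ s0 t0 s' → NS ρ t0 s' a → PS ρ s0 s' b → s' = s := by
  classical
  obtain ⟨p1, p2, p3, p4, p5⟩ := h
  have hex : ∃ s, b ≤ s ∧ s < a ∧ ∀ k, b ≤ k → k < a → ρ s ≤ ρ k := by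
    obtain ⟨s, hs, hs2⟩ := Finset.exists_min_image (Finset.Ico b a) ρ
      ⟨b, Finset.mem_Ico.2 ⟨le_refl _, p2⟩⟩
    have := Finset.mem_Ico.1 hs
    exact ⟨s, this.1, this.2, fun k h1 h2 => hs2 k (Finset.mem_Ico.2 ⟨h1, h2⟩)⟩
  obtain ⟨h1, h2, h3⟩ := Nat.find_spec hex
  set s := Nat.find hex with hs
  have hmin : ∀ s', s' < s → ¬ (b ≤ s' ∧ s' < a ∧ ∀ k, b ≤ k → k < a → ρ s' ≤ ρ k) :=
    fun s' h' => Nat.find_min hex h'
  have hmin2 : ∀ s', b ≤ s' → s' < s → ρ s < ρ s' := by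
    intro s' h4 h5
    have h6 := hmin s' h5
    by_contra h7
    push Not at h7
    exact h6 ⟨h4, by omega, fun k h8 h9 => le_trans h7 (h3 k h8 h9)⟩
  have hrun : RunStart ρ s0 t0 s := by
    refine ⟨by omega, by omega, ?_⟩
    by_cases h4 : s = b
    · rcases p4 with h5 | h5
      · left; omega
      · right
        rw [h4]
        exact ne_of_lt (h5 b (le_refl _) p2)
    · right
      have := hmin2 (s - 1) (by omega) (by omega)
      exact ne_of_gt this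
  refine ⟨s, h1, h2, hrun, ⟨h2, p3, fun i h4 h5 => h3 i (by omega) h5, ?_⟩,
    ⟨h1, p1, fun i h4 h5 => h3 i h4 (by omega), ?_⟩, ?_⟩
  · rcases p5 with h4 | h4
    · exact Or.inl h4
    · exact Or.inr (h4 s h1 h2)
  · rcases p4 with h4 | h4
    · exact Or.inl h4
    · exact Or.inr (h4 s h1 h2)
  · intro s' hs' hn hp
    obtain ⟨n1, n2, n3, n4⟩ := hn
    obtain ⟨q1, q2, q3, q4⟩ := hp
    have hle : ρ s' ≤ ρ s := by
      rcases lt_trichotomy s s' with h5 | h5 | h5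
      · exact q3 s h1 h5
      · rw [h5]
      · exact n3 s h5 h2
    by_contra hne
    rcases Nat.lt_or_ge s' s with h5 | h5
    · have := hmin2 s' q1 h5
      omega
    · have h6 : ρ s = ρ s' := le_antisymm (h3 s' q1 n1) hle
      obtain ⟨r1, r2, r3⟩ := hs'
      rcases r3 with r3 | r3
      · omega
      · have h7 := nt s s' (s' - 1) (by omega) (by omega) (by omega) r2 h6
        have h8 := h3 (s' - 1) (by omega) (by omega)
        apply r3
        omega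

theorem lane_root {ρ : ℕ → ℕ} {s0 t0 : ℕ} (nt : NoTie ρ s0 t0) (hst : s0 < t0) :
    ∃ s, ∀ s', ZZ ρ s0 t0 t0 s0 s' ↔ s' = s := by
  have hP : PP ρ s0 t0 t0 s0 := ⟨le_refl _, hst, le_refl _, Or.inl rfl, Or.inl rfl⟩
  obtain ⟨s, h1, h2, h3, h4, h5, h6⟩ := exists_mid nt hP
  refine ⟨s, fun s' => ⟨?_, ?_⟩⟩
  · rintro ⟨hr, h | h | h⟩
    · exact h6 s' hr h.1 h.2
    · exfalso
      have := h.2.1
      have := hr.1
      omega
    · exfalso
      have := hr.2.1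
      omega
  · rintro rfl
    exact ⟨h3, Or.inl ⟨h4, h5⟩⟩

theorem lane_two {ρ : ℕ → ℕ} {s0 t0 a b : ℕ} (nt : NoTie ρ s0 t0)
    (h : PP ρ s0 t0 a b) (hroot : ¬ (b = s0 ∧ a = t0)) :
    ∃ s1 s2, s1 ≠ s2 ∧ (∀ s, ZZ ρ s0 t0 a b s ↔ (s = s1 ∨ s = s2)) ∧
      NS ρ t0 s1 a ∧ PS ρ s0 s1 b ∧ ρ s2 < ρ s1 := by
  classical
  obtain ⟨s1, h1, h2, h3, h4, h5, h6⟩ := exists_mid nt h
  obtain ⟨p1, p2, p3, p4, p5⟩ := h
  by_cases hc : b ≠ s0 ∧ (a = t0 ∨ ρ a < ρ (b - 1))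
  · obtain ⟨hb, ha⟩ := hc
    have p4' : ∀ k, b ≤ k → k < a → ρ (b - 1) < ρ k := by
      rcases p4 with h7 | h7
      · exact absurd h7 hb
      · exact h7
    obtain ⟨s2, g1, g2, g3⟩ := exists_start ρ s0 t0 (b - 1) (by omega) (by omega)
    have g4 : ρ s2 = ρ (b - 1) := g3 s2 (le_refl _) g2
    have hZ2 : ZZ ρ s0 t0 a b s2 := by
      refine ⟨g1, Or.inr (Or.inl ⟨⟨by omega, p3, ?_, ?_⟩, by omega, ?_, ?_⟩)⟩
      · intro i hi hi2
        by_cases h7 : i < b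
        · rw [g4, g3 i (by omega) (by omega)]
        · rw [g4]; exact le_of_lt (p4' i (by omega) hi2)
      · rw [g4]; exact ha
      · intro i hi hi2
        rw [g4]; exact g3 i hi (by omega)
      · rw [g4]; exact ne_of_gt (p4' b (le_refl _) p2)
    refine ⟨s1, s2, by omega, fun s => ⟨?_, ?_⟩, h4, h5, ?_⟩
    · rintro ⟨hr, hz | hz | hz⟩
      · exact Or.inl (h6 s hr hz.1 hz.2)
      · right
        obtain ⟨⟨n1, n2, n3, n4⟩, t1, t2, t3⟩ := hz
        refine start_unique hr g1 (k := b - 1) (by omega) g2 ?_ g3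
        intro i hi hi2
        rw [t2 i hi (by omega), t2 (b - 1) (by omega) (by omega)]
      · exfalso
        obtain ⟨h0, q1, q2, q3, q4⟩ := hz
        have hr2 := hr.2.1
        subst h0
        rcases ha with h7 | h7
        · omega
        · rcases q4 with h8 | h8
          · exact hb h8
          · omega
    · rintro (rfl | rfl)
      · exact ⟨h3, Or.inl ⟨h4, h5⟩⟩
      · exact hZ2
    · rw [g4]; exact p4' s1 h1 h2
  · -- the second case
    have ha : a ≠ t0 := by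
      intro h7
      exact hc ⟨fun h8 => hroot ⟨h8, h7⟩, Or.inl h7⟩
    have p5' : ∀ k, b ≤ k → k < a → ρ a < ρ k := by
      rcases p5 with h7 | h7
      · exact absurd h7 ha
      · exact h7
    have hb : b = s0 ∨ ρ (b - 1) < ρ a := by
      by_cases h7 : b = s0
      · exact Or.inl h7
      · right
        have h8 : ¬ ρ a < ρ (b - 1) := fun h9 => hc ⟨h7, Or.inr h9⟩
        have h9 : ρ (b - 1) ≠ ρ a := by
          intro h10
          have h11 := nt (b - 1) a b (by omega) (by omega) (by omega) (by omega) h10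
          have h12 := p5' b (le_refl _) p2
          omega
        omega
    have hra : RunStart ρ s0 t0 a := by
      refine ⟨by omega, by omega, Or.inr ?_⟩
      exact ne_of_gt (p5' (a - 1) (by omega) (by omega))
    have hZ2 : ZZ ρ s0 t0 a b a := by
      refine ⟨hra, Or.inr (Or.inr ⟨rfl, by omega, p1, ?_, hb⟩)⟩
      intro i hi hi2
      exact le_of_lt (p5' i hi hi2)
    refine ⟨s1, a, by omega, fun s => ⟨?_, ?_⟩, h4, h5, p5' s1 h1 h2⟩
    · rintro ⟨hr, hz | hz | hz⟩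
      · exact Or.inl (h6 s hr hz.1 hz.2)
      · exfalso
        obtain ⟨⟨n1, n2, n3, n4⟩, t1, t2, t3⟩ := hz
        have h7 : ρ (b - 1) = ρ s := t2 (b - 1) (by omega) (by omega)
        have h8 := hr.1
        rcases n4 with h9 | h9
        · exact ha h9
        · rcases hb with h10 | h10
          · omega
          · omega
      · exact Or.inr hz.1
    · rintro (rfl | rfl)
      · exact ⟨h3, Or.inl ⟨h4, h5⟩⟩
      · exact hZ2

end Pool.Agent.Helper68.PY
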