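import Pool.Agent.Helper68.PY.Iface
import Pool.Agent.Helper68.PY.Lane

/-!
# Combinatorial frames

`M` horizontal edges at the heights `0, …, M-1`, `M` walls (vertical edges) at the positions
`0, …, M-1`.  `A i`, `B i` are the positions of the two ends of the edge at height `i`,
`D j < T j` the heights of the two ends of the wall at position `j`.
-/

namespace Pool.Agent.Helper68.PY

/-- The wall `j` crosses the level between the heights `h` and `h + 1`. -/
def Cr (D T : ℕ → ℕ) (h j : ℕ) : Prop := D j ≤ h ∧ h < T j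

/-- `(l, r)` are consecutive walls at the level `h`. -/
def Strip (M : ℕ) (D T : ℕ → ℕ) (l r h : ℕ) : Prop :=
  l < r ∧ r < M ∧ Cr D T h l ∧ Cr D T h r ∧ ∀ x, l < x → x < r → ¬ Cr D T h x

/-- A frame: combinatorial orthogonal polygon (with holes) in a box. -/
structure Fr (M : ℕ) where
  A : ℕ → ℕ
  B : ℕ → ℕ
  D : ℕ → ℕ
  T : ℕ → ℕ
  hM : 3 ≤ M
  A_lt : ∀ i < M, A i < M
  B_lt : ∀ i < M, B i < M
  AB : ∀ i < M, A i ≠ B i
  DT : ∀ j < M, D j < T j
  T_lt : ∀ j < M, T j < M
  wall : ∀ j < M, (A (D j) = j ∧ B (T j) = j) ∨ (B (D j) = j ∧ A (T j) = j)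
  DA : ∀ i < M, D (A i) = i ∨ T (A i) = i
  DB : ∀ i < M, D (B i) = i ∨ T (B i) = i
  nc : ∀ i < M, ∀ j < M, D j < i → i < T j → ¬ (A i < j ∧ j < B i) ∧ ¬ (B i < j ∧ j < A i)
  D0 : D 0 = 0
  T0 : T 0 = M - 1
  DM : D (M - 1) = 0
  TM : T (M - 1) = M - 1
  f0 : (A 0 = 0 ∧ B 0 = M - 1) ∨ (B 0 = 0 ∧ A 0 = M - 1)
  f1 : (A (M - 1) = 0 ∧ B (M - 1) = M - 1) ∨ (B (M - 1) = 0 ∧ A (M - 1) = M - 1)
  alt : ∀ h l r, Strip M D T l r h → (A (T l) = l ↔ B (T r) = r)

/-- Lowest height `a > h` with `l ≤ f a ≤ r`. -/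
def Up (M : ℕ) (f : ℕ → ℕ) (l r h a : ℕ) : Prop :=
  h < a ∧ a < M ∧ l ≤ f a ∧ f a ≤ r ∧ ∀ i, h < i → i < a → ¬ (l ≤ f i ∧ f i ≤ r)

/-- Highest height `a ≤ h` with `l ≤ f a ≤ r`. -/
def Dn (f : ℕ → ℕ) (l r h a : ℕ) : Prop :=
  a ≤ h ∧ l ≤ f a ∧ f a ≤ r ∧ ∀ i, a < i → i ≤ h → ¬ (l ≤ f i ∧ f i ≤ r)

theorem Up.unique {M : ℕ} {f : ℕ → ℕ} {l r h a a' : ℕ} (h1 : Up M f l r h a)
    (h2 : Up M f l r h a') : a = a' := by
  obtain ⟨p1, p2, p3, p4, p5⟩ := h1
  obtain ⟨q1, q2, q3, q4, q5⟩ := h2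
  rcases lt_trichotomy a a' with h3 | h3 | h3
  · exact absurd ⟨p3, p4⟩ (q5 a p1 h3)
  · exact h3
  · exact absurd ⟨q3, q4⟩ (p5 a' q1 h3)

theorem Dn.unique {f : ℕ → ℕ} {l r h a a' : ℕ} (h1 : Dn f l r h a)
    (h2 : Dn f l r h a') : a = a' := by
  obtain ⟨p1, p3, p4, p5⟩ := h1
  obtain ⟨q1, q3, q4, q5⟩ := h2
  rcases lt_trichotomy a a' with h3 | h3 | h3
  · exact absurd ⟨q3, q4⟩ (p5 a' h3 q1)
  · exact h3
  · exact absurd ⟨p3, p4⟩ (q5 a h3 p1)

theorem Strip.unique {M : ℕ} {D T : ℕ → ℕ} {l r l' r' h : ℕ} (h1 : Strip M D T l r h)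
    (h2 : Strip M D T l' r' h) (x : ℕ) (hx : l ≤ x) (hx2 : x < r) (hx' : l' ≤ x) (hx2' : x < r') :
    l = l' ∧ r = r' := by
  obtain ⟨p1, p2, p3, p4, p5⟩ := h1
  obtain ⟨q1, q2, q3, q4, q5⟩ := h2
  constructor
  · by_contra hne
    rcases Nat.lt_or_ge l l' with h3 | h3
    · exact p5 l' h3 (by omega) q3
    · exact q5 l (by omega) (by omega) p3
  · by_contra hne
    rcases Nat.lt_or_ge r r' with h3 | h3
    · exact q5 r (by omega) h3 p4
    · exact p5 r' (by omega) (by omega) q4

namespace Fr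

variable {M : ℕ} (F : Fr M)

/-- Exchange of the classes. -/
def swap : Fr M where
  A := F.B
  B := F.A
  D := F.D
  T := F.T
  hM := F.hM
  A_lt := F.B_lt
  B_lt := F.A_lt
  AB := fun i hi => (F.AB i hi).symm
  DT := F.DT
  T_lt := F.T_lt
  wall := fun j hj => (F.wall j hj).symm
  DA := F.DB
  DB := F.DA
  nc := fun i hi j hj h1 h2 => (F.nc i hi j hj h1 h2).symm
  D0 := F.D0
  T0 := F.T0
  DM := F.DM
  TM := F.TM
  f0 := F.f0.symm
  f1 := F.f1.symm
  alt := by
    intro h l r hs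
    have h1 := F.alt h l r hs
    obtain ⟨p1, p2, p3, p4, p5⟩ := hs
    have hl := F.wall l (by omega)
    have hr := F.wall r p2
    have hl2 := F.AB (F.T l) (F.T_lt l (by omega))
    have hl3 := F.AB (F.D l) (lt_trans (F.DT l (by omega)) (F.T_lt l (by omega)))
    have hr2 := F.AB (F.T r) (F.T_lt r p2)
    have hr3 := F.AB (F.D r) (lt_trans (F.DT r p2) (F.T_lt r p2))
    constructor
    · intro h2
      rcases hr with h3 | h3
      · exfalso
        have h4 := h1.2 h3.2
        omega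
      · exact h3.2
    · intro h2
      rcases hl with h3 | h3
      · exact h3.2
      · exfalso
        have h4 := h1.1 h3.2
        omega

/-- Reflection of the positions. -/
def mir : Fr M where
  A := fun i => M - 1 - F.A i
  B := fun i => M - 1 - F.B i
  D := fun j => F.D (M - 1 - j)
  T := fun j => F.T (M - 1 - j)
  hM := F.hM
  A_lt := fun i hi => by have := F.hM; omega
  B_lt := fun i hi => by have := F.hM; omega
  AB := fun i hi => by
    have h1 := F.AB i hi
    have h2 := F.A_lt i hi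
    have h3 := F.B_lt i hi
    omega
  DT := fun j hj => F.DT _ (by omega)
  T_lt := fun j hj => F.T_lt _ (by omega)
  wall := fun j hj => by
    rcases F.wall (M - 1 - j) (by omega) with h | h
    · left; constructor
      · rw [h.1]; omega
      · rw [h.2]; omega
    · right; constructor
      · rw [h.1]; omega
      · rw [h.2]; omega
  DA := fun i hi => by
    have h2 := F.A_lt i hi
    have e : M - 1 - (M - 1 - F.A i) = F.A i := by omega
    simp only [e]
    exact F.DA i hi
  DB := fun i hi => by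
    have h2 := F.B_lt i hi
    have e : M - 1 - (M - 1 - F.B i) = F.B i := by omega
    simp only [e]
    exact F.DB i hi
  nc := fun i hi j hj h1 h2 => by
    have h3 := F.nc i hi (M - 1 - j) (by omega) h1 h2
    have h4 := F.A_lt i hi
    have h5 := F.B_lt i hi
    omega
  D0 := by simp only [Nat.sub_zero]; exact F.DM
  T0 := by simp only [Nat.sub_zero]; exact F.TM
  DM := by simp only [Nat.sub_self]; exact F.D0
  TM := by simp only [Nat.sub_self]; exact F.T0
  f0 := by
    have := F.hM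
    rcases F.f0 with h | h
    · right; constructor <;> omega
    · left; constructor <;> omega
  f1 := by
    have := F.hM
    rcases F.f1 with h | h
    · right; constructor <;> omega
    · left; constructor <;> omega
  alt := by
    intro h l r hs
    obtain ⟨p1, p2, p3, p4, p5⟩ := hs
    have hs' : Strip M F.D F.T (M - 1 - r) (M - 1 - l) h := by
      refine ⟨by omega, by omega, p4, p3, ?_⟩
      intro x hx hx2 hc
      refine p5 (M - 1 - x) (by omega) (by omega) ?_
      have e : M - 1 - (M - 1 - x) = x := by omega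
      unfold Cr at hc ⊢
      simp only [e]
      exact hc
    have h1 := F.alt h _ _ hs'
    have hl := F.wall (M - 1 - l) (by omega)
    have hr := F.wall (M - 1 - r) (by omega)
    have hl2 := F.AB (F.T (M - 1 - l)) (F.T_lt _ (by omega))
    have hr2 := F.AB (F.T (M - 1 - r)) (F.T_lt _ (by omega))
    have ha := F.A_lt (F.T (M - 1 - l)) (F.T_lt _ (by omega))
    have hb := F.B_lt (F.T (M - 1 - r)) (F.T_lt _ (by omega))
    constructor
    · intro h2
      have h3 : F.A (F.T (M - 1 - l)) = M - 1 - l := by omega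
      have h4 : ¬ F.B (F.T (M - 1 - l)) = M - 1 - l := by omega
      rw [← h1] at h4
      rcases hr with h5 | h5
      · rw [h5.2]; omega
      · exact absurd h5.2 h4
    · intro h2
      have h3 : F.B (F.T (M - 1 - r)) = M - 1 - r := by omega
      have h4 : ¬ F.A (F.T (M - 1 - r)) = M - 1 - r := by omega
      rw [h1] at h4
      rcases hl with h5 | h5
      · exact absurd h5.2 h4
      · rw [h5.2]; omega

theorem mir_strip (l r h : ℕ) (hl : l < M) (hr : r < M) :
    Strip M F.mir.D F.mir.T l r h ↔ Strip M F.D F.T (M - 1 - r) (M - 1 - l) h := by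
  constructor
  · rintro ⟨p1, p2, p3, p4, p5⟩
    refine ⟨by omega, by omega, p4, p3, ?_⟩
    intro x hx hx2 hc
    refine p5 (M - 1 - x) (by omega) (by omega) ?_
    have e : M - 1 - (M - 1 - x) = x := by omega
    unfold Cr at hc ⊢
    simp only [mir, e]
    exact hc
  · rintro ⟨p1, p2, p3, p4, p5⟩
    refine ⟨by omega, by omega, p4, p3, ?_⟩
    intro x hx hx2 hc
    exact p5 (M - 1 - x) (by omega) (by omega) hc

theorem mir_up (f g : ℕ → ℕ) (hf : ∀ i < M, f i < M ∧ g i = M - 1 - f i) (l r h a : ℕ)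
    (hl : l < M) (hr : r < M) :
    Up M g l r h a ↔ Up M f (M - 1 - r) (M - 1 - l) h a := by
  unfold Up
  constructor
  · rintro ⟨p1, p2, p3, p4, p5⟩
    have h1 := hf a p2
    refine ⟨p1, p2, by omega, by omega, fun i hi hi2 hc => p5 i hi hi2 ?_⟩
    have h2 := hf i (by omega)
    omega
  · rintro ⟨p1, p2, p3, p4, p5⟩
    have h1 := hf a p2
    refine ⟨p1, p2, by omega, by omega, fun i hi hi2 hc => p5 i hi hi2 ?_⟩
    have h2 := hf i (by omega)
    omega

theorem mir_dn (f g : ℕ → ℕ) (hf : ∀ i < M, f i < M ∧ g i = M - 1 - f i) (l r h a : ℕ)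
    (hl : l < M) (hr : r < M) (hh : h < M) :
    Dn g l r h a ↔ Dn f (M - 1 - r) (M - 1 - l) h a := by
  unfold Dn
  constructor
  · rintro ⟨p1, p3, p4, p5⟩
    have h1 := hf a (by omega)
    refine ⟨p1, by omega, by omega, fun i hi hi2 hc => p5 i hi hi2 ?_⟩
    have h2 := hf i (by omega)
    omega
  · rintro ⟨p1, p3, p4, p5⟩
    have h1 := hf a (by omega)
    refine ⟨p1, by omega, by omega, fun i hi hi2 hc => p5 i hi hi2 ?_⟩
    have h2 := hf i (by omega)
    omega

/-- Next wall to the right of `w` at the level `k`. -/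
noncomputable def rho (w k : ℕ) : ℕ := sInf {x | w < x ∧ x < M ∧ Cr F.D F.T k x}

theorem cr_last (k : ℕ) (hk : k < M - 1) : Cr F.D F.T k (M - 1) := by
  refine ⟨?_, ?_⟩
  · rw [F.DM]; omega
  · rw [F.TM]; exact hk

theorem rho_strip {w k : ℕ} (hw : w + 1 < M) (hk : Cr F.D F.T k w) :
    Strip M F.D F.T w (F.rho w k) k := by
  have hT := F.T_lt w (by omega)
  have hk2 : k < M - 1 := by have := hk.2; omega
  have hne : {x | w < x ∧ x < M ∧ Cr F.D F.T k x}.Nonempty :=
    ⟨M - 1, by omega, by omega, F.cr_last k hk2⟩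
  have hmem := Nat.sInf_mem hne
  obtain ⟨h1, h2, h3⟩ := hmem
  refine ⟨h1, h2, hk, h3, ?_⟩
  intro x hx hx2 hc
  exact Nat.notMem_of_lt_sInf hx2 ⟨hx, lt_trans hx2 h2, hc⟩

theorem eq_rho {w r k : ℕ} (h : Strip M F.D F.T w r k) : r = F.rho w k := by
  obtain ⟨p1, p2, p3, p4, p5⟩ := h
  have hs := F.rho_strip (w := w) (k := k) (by omega) p3
  exact (Strip.unique ⟨p1, p2, p3, p4, p5⟩ hs w (le_refl _) p1 (le_refl _) hs.1).2

theorem noTie {w : ℕ} (hw : w + 1 < M) : NoTie (F.rho w) (F.D w) (F.T w) := by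
  intro i j k hi hik hkj hj hij
  have h1 := F.rho_strip hw (k := i) ⟨hi, by omega⟩
  have h2 := F.rho_strip hw (k := j) ⟨by omega, hj⟩
  have h3 := F.rho_strip hw (k := k) ⟨by omega, by omega⟩
  obtain ⟨p1, p2, p3, p4, p5⟩ := h1
  obtain ⟨q1, q2, q3, q4, q5⟩ := h2
  obtain ⟨r1, r2, r3, r4, r5⟩ := h3
  by_contra hcon
  push Not at hcon
  refine r5 _ p1 hcon ⟨?_, ?_⟩
  · exact le_trans p4.1 hik
  · rw [← hij] at q4
    exact lt_of_le_of_lt hkj q4.2

/-- Facts on the type of a wall. -/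
theorem typeA {j : ℕ} (hj : j < M) (h : F.A (F.T j) = j) :
    F.B (F.D j) = j ∧ F.B (F.T j) ≠ j ∧ F.A (F.D j) ≠ j := by
  have h1 := F.AB (F.T j) (F.T_lt j hj)
  have h2 := F.AB (F.D j) (lt_trans (F.DT j hj) (F.T_lt j hj))
  rcases F.wall j hj with h3 | h3
  · omega
  · exact ⟨h3.1, by omega, by omega⟩

theorem typeB {j : ℕ} (hj : j < M) (h : F.B (F.T j) = j) :
    F.A (F.D j) = j ∧ F.A (F.T j) ≠ j ∧ F.B (F.D j) ≠ j := by
  have h1 := F.AB (F.T j) (F.T_lt j hj)
  have h2 := F.AB (F.D j) (lt_trans (F.DT j hj) (F.T_lt j hj))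
  rcases F.wall j hj with h3 | h3
  · exact ⟨h3.1, by omega, by omega⟩
  · omega

/-- The lowest `A` above a strip whose left wall ends in `A`. -/
theorem up_of_NS {w h a : ℕ} (hw : w + 1 < M) (hA : F.A (F.T w) = w)
    (hc : Cr F.D F.T h w) (hn : NS (F.rho w) (F.T w) h a) :
    Up M F.A w (F.rho w h) h a ∧
      (a ≠ F.T w → F.A a = F.rho w a ∧ F.D (F.rho w a) = a ∧ a ≠ F.T w) := by
  obtain ⟨n1, n2, n3, n4⟩ := hn
  have hTw := F.T_lt w (by omega)
  have hS := F.rho_strip hw hc
  have hB : F.B (F.T (F.rho w h)) = F.rho w h := (F.alt _ _ _ hS).1 hA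
  have htB := F.typeB hS.2.1 hB
  have key : a ≠ F.T w → F.A a = F.rho w a ∧ F.D (F.rho w a) = a ∧ a ≠ F.T w := by
    intro hne
    have hlt : F.rho w a < F.rho w h := by
      rcases n4 with h1 | h1
      · exact absurd h1 hne
      · exact h1
    have hca : Cr F.D F.T a w := ⟨by have := hc.1; omega, by omega⟩
    have hca' : Cr F.D F.T (a - 1) w := ⟨by have := hc.1; omega, by omega⟩
    have hSa := F.rho_strip hw hca
    have hSa' := F.rho_strip hw hca'
    have hge : F.rho w h ≤ F.rho w (a - 1) := by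
      by_cases h1 : a - 1 = h
      · rw [h1]
      · exact n3 (a - 1) (by omega) (by omega)
    have hnc : ¬ Cr F.D F.T (a - 1) (F.rho w a) :=
      hSa'.2.2.2.2 _ hSa.1 (by omega)
    have hcr := hSa.2.2.2.1
    have hD : F.D (F.rho w a) = a := by
      unfold Cr at hnc hcr
      omega
    have hBa : F.B (F.T (F.rho w a)) = F.rho w a := (F.alt _ _ _ hSa).1 hA
    have h3 := F.typeB hSa.2.1 hBa
    refine ⟨?_, hD, hne⟩
    rw [hD] at h3
    exact h3.1
  refine ⟨⟨n1, by omega, ?_, ?_, ?_⟩, key⟩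
  · by_cases h1 : a = F.T w
    · rw [h1, hA]
    · have h2 := key h1
      have hca : Cr F.D F.T a w := ⟨by have := hc.1; omega, by omega⟩
      have hSa := F.rho_strip hw hca
      rw [h2.1]
      exact le_of_lt hSa.1
  · by_cases h1 : a = F.T w
    · rw [h1, hA]; exact le_of_lt hS.1
    · have h2 := key h1
      rw [h2.1]
      rcases n4 with h3 | h3
      · exact absurd h3 h1
      · exact le_of_lt h3
  · rintro i hi hi2 ⟨hx1, hx2⟩
    have hiM : i < M := by omega
    have hci : Cr F.D F.T i w := ⟨by have := hc.1; omega, by omega⟩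
    have hci' : Cr F.D F.T (i - 1) w := ⟨by have := hc.1; omega, by omega⟩
    have hSi := F.rho_strip hw hci
    have hSi' := F.rho_strip hw hci'
    have hge : F.rho w h ≤ F.rho w i := n3 i hi hi2
    have hge' : F.rho w h ≤ F.rho w (i - 1) := by
      by_cases h1 : i - 1 = h
      · rw [h1]
      · exact n3 (i - 1) (by omega) (by omega)
    have hDT := F.DT (F.A i) (F.A_lt i hiM)
    have hne : F.A i ≠ w := by
      intro h1
      have h2 := F.DA i hiM
      rw [h1] at h2
      have h3 := hci.1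
      have h4 := hci.2
      have h5 := hci'.1
      omega
    have hgt : w < F.A i := by omega
    rcases F.DA i hiM with h1 | h1
    · -- the wall starts at `i`
      have hcr : Cr F.D F.T i (F.A i) := ⟨by omega, by omega⟩
      have h2 : ¬ F.A i < F.rho w i := fun h3 => hSi.2.2.2.2 _ hgt h3 hcr
      have h3 : F.A i = F.rho w h := by omega
      have h4 := hS.2.2.2.1.1
      rw [← h3] at h4
      omega
    · have hcr : Cr F.D F.T (i - 1) (F.A i) := ⟨by omega, by omega⟩
      have h2 : ¬ F.A i < F.rho w (i - 1) := fun h3 => hSi'.2.2.2.2 _ hgt h3 hcr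
      have h3 : F.A i = F.rho w h := by omega
      have h4 := htB.2.1
      rw [← h3, h1] at h4
      exact h4 rfl

/-- The highest `B` below a strip whose left wall ends in `A`. -/
theorem dn_of_PS {w h b : ℕ} (hw : w + 1 < M) (hA : F.A (F.T w) = w)
    (hc : Cr F.D F.T h w) (hn : PS (F.rho w) (F.D w) h b) :
    Dn F.B w (F.rho w h) h b ∧
      (b ≠ F.D w → F.B b = F.rho w (b - 1) ∧ F.T (F.rho w (b - 1)) = b ∧ b ≠ F.D w) := by
  obtain ⟨n1, n2, n3, n4⟩ := hn
  have hTw := F.T_lt w (by omega)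
  have hS := F.rho_strip hw hc
  have hB : F.B (F.T (F.rho w h)) = F.rho w h := (F.alt _ _ _ hS).1 hA
  have htB := F.typeB hS.2.1 hB
  have htA := F.typeA (by omega) hA
  have key : b ≠ F.D w → F.B b = F.rho w (b - 1) ∧ F.T (F.rho w (b - 1)) = b ∧ b ≠ F.D w := by
    intro hne
    have hlt : F.rho w (b - 1) < F.rho w h := by
      rcases n4 with h1 | h1
      · exact absurd h1 hne
      · exact h1
    have hca : Cr F.D F.T b w := ⟨by omega, by have := hc.2; omega⟩
    have hca' : Cr F.D F.T (b - 1) w := ⟨by omega, by have := hc.2; omega⟩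
    have hSa := F.rho_strip hw hca
    have hSa' := F.rho_strip hw hca'
    have hge : F.rho w h ≤ F.rho w b := by
      by_cases h1 : b = h
      · rw [h1]
      · exact n3 b (by omega) (by omega)
    have hnc : ¬ Cr F.D F.T b (F.rho w (b - 1)) :=
      hSa.2.2.2.2 _ hSa'.1 (by omega)
    have hcr := hSa'.2.2.2.1
    have hT : F.T (F.rho w (b - 1)) = b := by
      unfold Cr at hnc hcr
      omega
    have hBa : F.B (F.T (F.rho w (b - 1))) = F.rho w (b - 1) := (F.alt _ _ _ hSa').1 hA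
    refine ⟨?_, hT, hne⟩
    rw [hT] at hBa
    exact hBa
  refine ⟨⟨n1, ?_, ?_, ?_⟩, key⟩
  · by_cases h1 : b = F.D w
    · rw [h1, htA.1]
    · have h2 := key h1
      have hca : Cr F.D F.T (b - 1) w := ⟨by omega, by have := hc.2; omega⟩
      have hSa := F.rho_strip hw hca
      rw [h2.1]
      exact le_of_lt hSa.1
  · by_cases h1 : b = F.D w
    · rw [h1, htA.1]; exact le_of_lt hS.1
    · have h2 := key h1
      rw [h2.1]
      rcases n4 with h3 | h3
      · exact absurd h3 h1
      · exact le_of_lt h3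
  · rintro i hi hi2 ⟨hx1, hx2⟩
    have hiM : i < M := by have := hc.2; omega
    have hci : Cr F.D F.T i w := ⟨by omega, by have := hc.2; omega⟩
    have hci' : Cr F.D F.T (i - 1) w := ⟨by omega, by have := hc.2; omega⟩
    have hSi := F.rho_strip hw hci
    have hSi' := F.rho_strip hw hci'
    have hge : F.rho w h ≤ F.rho w i := by
      by_cases h1 : i = h
      · rw [h1]
      · exact n3 i (by omega) (by omega)
    have hge' : F.rho w h ≤ F.rho w (i - 1) := n3 (i - 1) (by omega) (by omega)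
    have hDT := F.DT (F.B i) (F.B_lt i hiM)
    have hne : F.B i ≠ w := by
      intro h1
      have h2 := F.DB i hiM
      rw [h1] at h2
      have h3 := hci.1
      have h4 := hci.2
      have h5 := hci'.1
      omega
    have hgt : w < F.B i := by omega
    rcases F.DB i hiM with h1 | h1
    · have hcr : Cr F.D F.T i (F.B i) := ⟨by omega, by omega⟩
      have h2 : ¬ F.B i < F.rho w i := fun h3 => hSi.2.2.2.2 _ hgt h3 hcr
      have h3 : F.B i = F.rho w h := by omega
      have h4 := htB.2.2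
      rw [← h3, h1] at h4
      exact h4 rfl
    · have hcr : Cr F.D F.T (i - 1) (F.B i) := ⟨by omega, by omega⟩
      have h2 : ¬ F.B i < F.rho w (i - 1) := fun h3 => hSi'.2.2.2.2 _ hgt h3 hcr
      have h3 : F.B i = F.rho w h := by omega
      have h4 := hS.2.2.2.1.2
      rw [← h3] at h4
      omega

end Fr

end Pool.Agent.Helper68.PY
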