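import Pool.Agent.Helper68.PY.Rect

/-!
# The rectangles on one side of a wall
-/

namespace Pool.Agent.Helper68.PY

namespace Fr

variable {M : ℕ} (F : Fr M)

/-- Rectangles (as triples) containing the heights `a` (class `A`) and `b` (class `B`). -/
def QQ (a b : ℕ) : Set (ℕ × ℕ × ℕ) :=
  {R | F.IsRec R.1 R.2.1 R.2.2 ∧ F.Pair R.1 R.2.1 R.2.2 a b}

/-- Those with left wall `w`. -/
def ZR (w a b : ℕ) : Set (ℕ × ℕ × ℕ) := {R | R ∈ F.QQ a b ∧ R.1 = w}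

/-- Those with right wall `w`. -/
def ZL (w a b : ℕ) : Set (ℕ × ℕ × ℕ) := {R | R ∈ F.QQ a b ∧ R.2.1 = w}

theorem mem_ZR {w a b : ℕ} (hw : w + 1 < M) (hA : F.A (F.T w) = w) (hba : b < a)
    (R : ℕ × ℕ × ℕ) :
    R ∈ F.ZR w a b ↔ ∃ s, R = (w, F.rho w s, s) ∧ ZZ (F.rho w) (F.D w) (F.T w) a b s := by
  obtain ⟨l, r, s⟩ := R
  constructor
  · rintro ⟨⟨h1, h2⟩, h3⟩
    simp only at h1 h2 h3
    subst h3
    have h4 := (F.isRec_right hw).1 h1
    obtain ⟨h5, h6⟩ := h4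
    subst h5
    exact ⟨s, rfl, (F.pair_right hw hA hba h6).1 h2⟩
  · rintro ⟨s', h1, h2⟩
    simp only [Prod.mk.injEq] at h1
    obtain ⟨rfl, rfl, rfl⟩ := h1
    exact ⟨⟨(F.isRec_right hw).2 ⟨rfl, h2.1⟩, (F.pair_right hw hA hba h2.1).2 h2⟩, rfl⟩

theorem ZR_root {w : ℕ} (hw : w + 1 < M) (hA : F.A (F.T w) = w) :
    ∃ R, F.ZR w (F.T w) (F.D w) = {R} := by
  obtain ⟨s, hs⟩ := lane_root (F.noTie hw) (F.DT w (by omega))
  refine ⟨(w, F.rho w s, s), ?_⟩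
  ext R
  rw [F.mem_ZR hw hA (F.DT w (by omega)), Set.mem_singleton_iff]
  constructor
  · rintro ⟨s', h1, h2⟩
    rw [(hs s').1 h2] at h1
    exact h1
  · intro h
    exact ⟨s, h, (hs s).2 rfl⟩

theorem ZR_two {w a b : ℕ} (hw : w + 1 < M) (hA : F.A (F.T w) = w) (hba : b < a)
    (hroot : ¬ (a = F.T w ∧ b = F.D w)) (hne : (F.ZR w a b).Nonempty) :
    ∃ R1 R2, R1 ≠ R2 ∧ F.ZR w a b = {R1, R2} ∧ R2.2.1 < R1.2.1 ∧
      (∀ R ∈ F.ZR w a b, Up M F.A R.1 R.2.1 R.2.2 a → Dn F.B R.1 R.2.1 R.2.2 b → R = R1) := by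
  obtain ⟨R, hR⟩ := hne
  obtain ⟨s, h1, h2⟩ := (F.mem_ZR hw hA hba R).1 hR
  have hP := PP_of_ZZ (F.noTie hw) hba h2
  obtain ⟨s1, s2, g1, g2, g3, g4, g5⟩ := lane_two (F.noTie hw) hP
    (fun h => hroot ⟨h.2, h.1⟩)
  refine ⟨(w, F.rho w s1, s1), (w, F.rho w s2, s2), ?_, ?_, g5, ?_⟩
  · intro h
    simp only [Prod.mk.injEq] at h
    exact g1 h.2.2
  · ext R'
    rw [F.mem_ZR hw hA hba, Set.mem_insert_iff, Set.mem_singleton_iff]
    constructor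
    · rintro ⟨s', h3, h4⟩
      rcases (g2 s').1 h4 with h5 | h5
      · left; rw [h3, h5]
      · right; rw [h3, h5]
    · rintro (h3 | h3)
      · exact ⟨s1, h3, (g2 s1).2 (Or.inl rfl)⟩
      · exact ⟨s2, h3, (g2 s2).2 (Or.inr rfl)⟩
  · intro R' hR' hU hL
    obtain ⟨s', h3, h4⟩ := (F.mem_ZR hw hA hba R').1 hR'
    subst h3
    simp only at hU hL
    have hrun := h4.1
    have hc : Cr F.D F.T s' w := ⟨hrun.1, hrun.2.1⟩
    obtain ⟨a', ha'⟩ := exists_NS (F.rho w) (F.T w) s' hrun.2.1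
    obtain ⟨b', hb'⟩ := exists_PS (F.rho w) (F.D w) s' hrun.1
    have e1 := Up.unique hU (F.up_of_NS hw hA hc ha').1
    have e2 := Dn.unique hL (F.dn_of_PS hw hA hc hb').1
    subst e1
    subst e2
    obtain ⟨m, m1, m2, m3, m4, m5, m6⟩ := exists_mid (F.noTie hw) hP
    have e3 := m6 s' hrun ha' hb'
    have hZ1 := (g2 s1).2 (Or.inl rfl)
    have e4 := m6 s1 hZ1.1 g3 g4
    rw [e3, ← e4]

/-- Position of the two vertices of a pair `b < a` seen from the wall at the left. -/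
theorem ZR_loc {w a b : ℕ} (hw : w + 1 < M) (hA : F.A (F.T w) = w) (hba : b < a)
    (hne : (F.ZR w a b).Nonempty) :
    (∃ r', Strip M F.D F.T w r' b ∧ w ≤ F.A a ∧ F.A a < r' ∧ w ≤ F.B b ∧ F.B b < r') ∧
      F.D w ≤ b ∧ a ≤ F.T w ∧ (F.A a = w → a = F.T w) ∧ (F.B b = w → b = F.D w) ∧
      (a ≠ F.T w → F.D (F.A a) = a) ∧ (b ≠ F.D w → F.T (F.B b) = b) := by
  obtain ⟨R, hR⟩ := hne
  obtain ⟨s, h1, h2⟩ := (F.mem_ZR hw hA hba R).1 hR
  have hP := PP_of_ZZ (F.noTie hw) hba h2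
  have hTM := F.T_lt w (by omega)
  obtain ⟨m, m1, m2, m3, m4, m5, m6⟩ := exists_mid (F.noTie hw) hP
  obtain ⟨p1, p2, p3, p4, p5⟩ := hP
  have hcm : Cr F.D F.T m w := ⟨m3.1, m3.2.1⟩
  have hU := F.up_of_NS hw hA hcm m4
  have hL := F.dn_of_PS hw hA hcm m5
  have hcb : Cr F.D F.T b w := ⟨p1, by omega⟩
  have hSb := F.rho_strip hw hcb
  have htA := F.typeA (by omega) hA
  refine ⟨⟨F.rho w b, hSb, hU.1.2.2.1, ?_, hL.1.2.1, ?_⟩, p1, p3, ?_, ?_, ?_, ?_⟩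
  · by_cases h3 : a = F.T w
    · rw [h3, hA]; exact hSb.1
    · rw [(hU.2 h3).1]
      rcases p5 with h4 | h4
      · exact absurd h4 h3
      · exact h4 b (le_refl _) hba
  · by_cases h3 : b = F.D w
    · rw [h3, htA.1, ← h3]; exact hSb.1
    · rw [(hL.2 h3).1]
      rcases p4 with h4 | h4
      · exact absurd h4 h3
      · exact h4 b (le_refl _) hba
  · intro h3
    by_contra h4
    have h5 := hU.2 h4
    have h6 : Cr F.D F.T a w := ⟨by omega, by omega⟩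
    have h7 := F.rho_strip hw h6
    have h8 := h7.1
    omega
  · intro h3
    by_contra h4
    have h5 := hL.2 h4
    have h6 : Cr F.D F.T (b - 1) w := ⟨by omega, by omega⟩
    have h7 := F.rho_strip hw h6
    have h8 := h7.1
    omega
  · intro h3
    have h5 := hU.2 h3
    rw [h5.1]
    exact h5.2.1
  · intro h3
    have h5 := hL.2 h3
    rw [h5.1]
    exact h5.2.1

/-! ### Mirror image -/

theorem mir_isRec (l r s : ℕ) (hl : l < M) (hr : r < M) :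
    F.mir.IsRec l r s ↔ F.IsRec (M - 1 - r) (M - 1 - l) s := by
  unfold IsRec
  rw [F.mir_strip l r s hl hr, F.mir_strip l r (s - 1) hl hr]

theorem mir_pair (l r s a b : ℕ) (hl : l < M) (hr : r < M) (hs : s < M) :
    F.mir.Pair l r s a b ↔ F.Pair (M - 1 - r) (M - 1 - l) s a b := by
  unfold Pair
  have hfA : ∀ i < M, F.A i < M ∧ F.mir.A i = M - 1 - F.A i := fun i hi => ⟨F.A_lt i hi, rfl⟩
  have hfB : ∀ i < M, F.B i < M ∧ F.mir.B i = M - 1 - F.B i := fun i hi => ⟨F.B_lt i hi, rfl⟩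
  rw [mir_dn F.A F.mir.A hfA l r s a hl hr hs, mir_dn F.B F.mir.B hfB l r s b hl hr hs,
    mir_up F.A F.mir.A hfA l r s a hl hr, mir_up F.B F.mir.B hfB l r s b hl hr]

/-- Mirror image of a triple. -/
def flip (M : ℕ) (R : ℕ × ℕ × ℕ) : ℕ × ℕ × ℕ := (M - 1 - R.2.1, M - 1 - R.1, R.2.2)

theorem flip_flip {M : ℕ} {R : ℕ × ℕ × ℕ} (h1 : R.1 < M) (h2 : R.2.1 < M) :
    flip M (flip M R) = R := by
  obtain ⟨l, r, s⟩ := R
  simp only [flip, Prod.mk.injEq] at *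
  refine ⟨by omega, by omega, trivial⟩

theorem isRec_lt {l r s : ℕ} (h : F.IsRec l r s) : l < r ∧ r < M ∧ s + 1 < M := by
  have h1 := h.1
  have h2 := F.T_lt l (by have := h1.1; have := h1.2.1; omega)
  have h3 := h1.2.2.1.2
  exact ⟨h1.1, h1.2.1, by omega⟩

theorem mem_ZL_iff {w a b : ℕ} (hw : w < M) (R : ℕ × ℕ × ℕ) (h1 : R.1 < M) (h2 : R.2.1 < M)
    (h3 : R.2.2 < M) : R ∈ F.ZL w a b ↔ flip M R ∈ F.mir.ZR (M - 1 - w) a b := by
  obtain ⟨l, r, s⟩ := R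
  simp only at h1 h2 h3
  simp only [ZL, ZR, QQ, flip, Set.mem_setOf_eq]
  rw [F.mir_isRec _ _ _ (by omega) (by omega), F.mir_pair _ _ _ _ _ (by omega) (by omega) h3]
  have e1 : M - 1 - (M - 1 - l) = l := by omega
  have e2 : M - 1 - (M - 1 - r) = r := by omega
  rw [e1, e2]
  constructor
  · rintro ⟨h, h4⟩
    exact ⟨h, by omega⟩
  · rintro ⟨h, h4⟩
    exact ⟨h, by omega⟩

theorem ZR_bound {w a b : ℕ} {R : ℕ × ℕ × ℕ} (h : R ∈ F.ZR w a b) :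
    R.1 < M ∧ R.2.1 < M ∧ R.2.2 < M := by
  have := F.isRec_lt h.1.1
  omega

theorem ZL_bound {w a b : ℕ} {R : ℕ × ℕ × ℕ} (h : R ∈ F.ZL w a b) :
    R.1 < M ∧ R.2.1 < M ∧ R.2.2 < M := by
  have := F.isRec_lt h.1.1
  omega

theorem flip_mem_ZL {w a b : ℕ} (hw : w < M) {R : ℕ × ℕ × ℕ}
    (h : R ∈ F.mir.ZR (M - 1 - w) a b) : flip M R ∈ F.ZL w a b := by
  have hb := F.mir.ZR_bound h
  rw [F.mem_ZL_iff hw (flip M R) (by simp only [flip]; omega) (by simp only [flip]; omega)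
    (by simp only [flip]; omega), flip_flip hb.1 hb.2.1]
  exact h

theorem flip_mem_ZR {w a b : ℕ} (hw : w < M) {R : ℕ × ℕ × ℕ}
    (h : R ∈ F.ZL w a b) : flip M R ∈ F.mir.ZR (M - 1 - w) a b := by
  have hb := F.ZL_bound h
  exact (F.mem_ZL_iff hw R hb.1 hb.2.1 hb.2.2).1 h

theorem mir_tA {w : ℕ} (hw : w < M) (hA : F.A (F.T w) = w) :
    F.mir.A (F.mir.T (M - 1 - w)) = M - 1 - w := by
  have e1 : M - 1 - (M - 1 - w) = w := by omega
  simp only [mir, e1, hA]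

theorem mir_T {w : ℕ} (hw : w < M) : F.mir.T (M - 1 - w) = F.T w := by
  have e1 : M - 1 - (M - 1 - w) = w := by omega
  simp only [mir, e1]

theorem mir_D {w : ℕ} (hw : w < M) : F.mir.D (M - 1 - w) = F.D w := by
  have e1 : M - 1 - (M - 1 - w) = w := by omega
  simp only [mir, e1]

theorem ZL_root {w : ℕ} (hw : w < M) (hw0 : 0 < w) (hA : F.A (F.T w) = w) :
    ∃ R, F.ZL w (F.T w) (F.D w) = {R} := by
  obtain ⟨R, hR⟩ := F.mir.ZR_root (w := M - 1 - w) (by omega) (F.mir_tA hw hA)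
  rw [F.mir_T hw, F.mir_D hw] at hR
  refine ⟨flip M R, ?_⟩
  ext R'
  rw [Set.mem_singleton_iff]
  constructor
  · intro h
    have h1 := F.flip_mem_ZR hw h
    rw [hR, Set.mem_singleton_iff] at h1
    have hb := F.ZL_bound h
    rw [← h1, flip_flip hb.1 hb.2.1]
  · intro h
    rw [h]
    apply F.flip_mem_ZL hw
    rw [hR]
    exact Set.mem_singleton _

theorem ZL_two {w a b : ℕ} (hw : w < M) (hw0 : 0 < w) (hA : F.A (F.T w) = w) (hba : b < a)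
    (hroot : ¬ (a = F.T w ∧ b = F.D w)) (hne : (F.ZL w a b).Nonempty) :
    ∃ R1 R2, R1 ≠ R2 ∧ F.ZL w a b = {R1, R2} := by
  obtain ⟨R0, hR0⟩ := hne
  obtain ⟨R1, R2, h1, h2, _⟩ := F.mir.ZR_two (w := M - 1 - w) (by omega) (F.mir_tA hw hA) hba
    (by rw [F.mir_T hw, F.mir_D hw]; exact hroot) ⟨_, F.flip_mem_ZR hw hR0⟩
  have m1 : R1 ∈ F.mir.ZR (M - 1 - w) a b := by rw [h2]; simp
  have m2 : R2 ∈ F.mir.ZR (M - 1 - w) a b := by rw [h2]; simp
  have b1 := F.mir.ZR_bound m1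
  have b2 := F.mir.ZR_bound m2
  refine ⟨flip M R1, flip M R2, ?_, ?_⟩
  · intro h
    apply h1
    rw [← flip_flip b1.1 b1.2.1, h, flip_flip b2.1 b2.2.1]
  · ext R'
    rw [Set.mem_insert_iff, Set.mem_singleton_iff]
    constructor
    · intro h
      have h3 := F.flip_mem_ZR hw h
      rw [h2, Set.mem_insert_iff, Set.mem_singleton_iff] at h3
      have hb := F.ZL_bound h
      rcases h3 with h3 | h3
      · left; rw [← h3, flip_flip hb.1 hb.2.1]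
      · right; rw [← h3, flip_flip hb.1 hb.2.1]
    · rintro (h | h)
      · rw [h]; exact F.flip_mem_ZL hw m1
      · rw [h]; exact F.flip_mem_ZL hw m2

theorem ZL_loc {w a b : ℕ} (hw : w < M) (hw0 : 0 < w) (hA : F.A (F.T w) = w) (hba : b < a)
    (ha : a < M) (hne : (F.ZL w a b).Nonempty) :
    (∃ l', Strip M F.D F.T l' w b ∧ F.A a ≤ w ∧ l' < F.A a ∧ F.B b ≤ w ∧ l' < F.B b) ∧
      F.D w ≤ b ∧ a ≤ F.T w ∧ (F.A a = w → a = F.T w) ∧ (F.B b = w → b = F.D w) ∧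
      (a ≠ F.T w → F.D (F.A a) = a) ∧ (b ≠ F.D w → F.T (F.B b) = b) := by
  obtain ⟨R0, hR0⟩ := hne
  obtain ⟨⟨r', h1, h2, h3, h4, h5⟩, g1, g2, g3, g4, g5, g6⟩ :=
    F.mir.ZR_loc (w := M - 1 - w) (by omega) (F.mir_tA hw hA) hba ⟨_, F.flip_mem_ZR hw hR0⟩
  rw [F.mir_T hw] at g2 g3 g5
  rw [F.mir_D hw] at g1 g4 g6
  have hAl := F.A_lt a ha
  have hBl := F.B_lt b (by omega)
  have eA : F.mir.A a = M - 1 - F.A a := rfl
  have eB : F.mir.B b = M - 1 - F.B b := rfl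
  have hr' := h1.2.1
  have h1' := (F.mir_strip (M - 1 - w) r' b (by omega) hr').1 h1
  have e1 : M - 1 - (M - 1 - w) = w := by omega
  rw [e1] at h1'
  refine ⟨⟨M - 1 - r', h1', by omega, by omega, by omega, by omega⟩, g1, g2, ?_, ?_, ?_, ?_⟩
  · intro h; exact g3 (by omega)
  · intro h; exact g4 (by omega)
  · intro h
    have := g5 h
    rw [eA, F.mir_D hAl] at this
    exact this
  · intro h
    have := g6 h
    rw [eB, F.mir_T hBl] at this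
    exact this

end Fr

end Pool.Agent.Helper68.PY
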