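import Pool.Agent.Helper68.PY.Frame

/-!
# Rectangles of a frame and the four heights of a rectangle
-/

namespace Pool.Agent.Helper68.PY

namespace Fr

variable {M : ℕ} (F : Fr M)

/-- `(l, r, s)` is a maximal rectangle with bottom level `s`. -/
def IsRec (l r s : ℕ) : Prop :=
  Strip M F.D F.T l r s ∧ (s = 0 ∨ ¬ Strip M F.D F.T l r (s - 1))

/-- The rectangle over `(l, r, s)` has the height `a` of class `A` and `b` of class `B`. -/
def Pair (l r s a b : ℕ) : Prop :=
  (Dn F.A l r s a ∨ Up M F.A l r s a) ∧ (Dn F.B l r s b ∨ Up M F.B l r s b)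

theorem isRec_right {w r s : ℕ} (hw : w + 1 < M) :
    F.IsRec w r s ↔ (r = F.rho w s ∧ RunStart (F.rho w) (F.D w) (F.T w) s) := by
  constructor
  · rintro ⟨h1, h2⟩
    have hr := F.eq_rho h1
    refine ⟨hr, h1.2.2.1.1, h1.2.2.1.2, ?_⟩
    by_cases h3 : s = F.D w
    · exact Or.inl h3
    · right
      intro h4
      have h5 := h1.2.2.1
      have h6 : Cr F.D F.T (s - 1) w := by
        unfold Cr at h5 ⊢
        omega
      rcases h2 with h2 | h2
      · unfold Cr at h5
        omega
      · apply h2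
        rw [hr, ← h4]
        exact F.rho_strip hw h6
  · rintro ⟨h1, h2, h3, h4⟩
    have hS := F.rho_strip hw (k := s) ⟨h2, h3⟩
    rw [h1]
    refine ⟨hS, ?_⟩
    rcases h4 with h4 | h4
    · by_cases h5 : s = 0
      · exact Or.inl h5
      · right
        intro h6
        have := h6.2.2.1.1
        omega
    · right
      intro h6
      exact h4 (F.eq_rho h6).symm

/-- If a run ends just below `b`, then `b` is the lowest height of class `B` above. -/
theorem up_of_TopEnd {w s a b : ℕ} (hw : w + 1 < M) (hA : F.A (F.T w) = w)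
    (hc : Cr F.D F.T s w) (hn : NS (F.rho w) (F.T w) s a) (hba : b < a)
    (ht : TopEnd (F.rho w) s b) : Up M F.B w (F.rho w s) s b := by
  obtain ⟨n1, n2, n3, n4⟩ := hn
  obtain ⟨t1, t2, t3⟩ := ht
  have hTw := F.T_lt w (by omega)
  have hS := F.rho_strip hw hc
  have hB : F.B (F.T (F.rho w s)) = F.rho w s := (F.alt _ _ _ hS).1 hA
  have hgt : F.rho w s < F.rho w b := by
    have := n3 b t1 hba
    omega
  have hcb : Cr F.D F.T b w := ⟨by have := hc.1; omega, by omega⟩
  have hcb' : Cr F.D F.T (b - 1) w := ⟨by have := hc.1; omega, by omega⟩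
  have hSb := F.rho_strip hw hcb
  have hSb' := F.rho_strip hw hcb'
  have e := t2 (b - 1) (by omega) (by omega)
  rw [e] at hSb'
  have hT : F.T (F.rho w s) = b := by
    have h1 := hSb.2.2.2.2 (F.rho w s) hS.1 hgt
    have h2 := hSb'.2.2.2.1
    unfold Cr at h1 h2
    omega
  rw [hT] at hB
  refine ⟨t1, by omega, by rw [hB]; exact le_of_lt hS.1, by rw [hB], ?_⟩
  rintro i hi hi2 ⟨hx1, hx2⟩
  have hiM : i < M := by omega
  have hci : Cr F.D F.T i w := ⟨by have := hc.1; omega, by omega⟩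
  have hci' : Cr F.D F.T (i - 1) w := ⟨by have := hc.1; omega, by omega⟩
  have hSi := F.rho_strip hw hci
  have hSi' := F.rho_strip hw hci'
  have e1 := t2 i (by omega) (by omega)
  have e2 := t2 (i - 1) (by omega) (by omega)
  have hDT := F.DT (F.B i) (F.B_lt i hiM)
  have hne : F.B i ≠ w := by
    intro h1
    have h2 := F.DB i hiM
    rw [h1] at h2
    have h3 := hci.2
    have h5 := hci'.1
    omega
  have hgt2 : w < F.B i := by omega
  rcases F.DB i hiM with h1 | h1
  · have hcr : Cr F.D F.T i (F.B i) := ⟨by omega, by omega⟩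
    have h2 : ¬ F.B i < F.rho w i := fun h3 => hSi.2.2.2.2 _ hgt2 h3 hcr
    have h3 : F.B i = F.rho w s := by omega
    have h4 := hSi'.2.2.2.1.1
    rw [e2, ← h3] at h4
    omega
  · have hcr : Cr F.D F.T (i - 1) (F.B i) := ⟨by omega, by omega⟩
    have h2 : ¬ F.B i < F.rho w (i - 1) := fun h3 => hSi'.2.2.2.2 _ hgt2 h3 hcr
    have h3 : F.B i = F.rho w s := by omega
    have h4 := hSi.2.2.2.1.2
    rw [e1, ← h3] at h4
    omega

theorem topEnd_of_up {w s a b : ℕ} (hw : w + 1 < M) (hA : F.A (F.T w) = w)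
    (hc : Cr F.D F.T s w) (hn : NS (F.rho w) (F.T w) s a) (hba : b < a)
    (hu : Up M F.B w (F.rho w s) s b) : TopEnd (F.rho w) s b := by
  classical
  obtain ⟨n1, n2, n3, n4⟩ := hn
  have hTw := F.T_lt w (by omega)
  have hS := F.rho_strip hw hc
  have hsb := hu.1
  have hconst : ∀ i, s ≤ i → i < b → F.rho w i = F.rho w s := by
    by_contra hcon
    push Not at hcon
    have hex : ∃ i, s ≤ i ∧ i < b ∧ F.rho w i ≠ F.rho w s := hcon
    obtain ⟨h1, h2, h3⟩ := Nat.find_spec hex
    have hmin : ∀ i, i < Nat.find hex → ¬ (s ≤ i ∧ i < b ∧ F.rho w i ≠ F.rho w s) :=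
      fun i hi => Nat.find_min hex hi
    have hne : Nat.find hex ≠ s := by
      intro h4
      rw [h4] at h3
      exact h3 rfl
    have ht : TopEnd (F.rho w) s (Nat.find hex) := by
      refine ⟨by omega, ?_, h3⟩
      intro i hi hi2
      have := hmin i hi2
      by_contra h5
      exact this ⟨hi, by omega, h5⟩
    have hu2 := F.up_of_TopEnd hw hA hc ⟨n1, n2, n3, n4⟩ (by omega) ht
    have := Up.unique hu hu2
    omega
  refine ⟨hsb, hconst, ?_⟩
  intro heq
  obtain ⟨u1, u2, u3, u4, u5⟩ := hu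
  have hcb : Cr F.D F.T b w := ⟨by have := hc.1; omega, by omega⟩
  have hcb' : Cr F.D F.T (b - 1) w := ⟨by have := hc.1; omega, by omega⟩
  have hSb := F.rho_strip hw hcb
  have hSb' := F.rho_strip hw hcb'
  have e := hconst (b - 1) (by omega) (by omega)
  have hDT := F.DT (F.B b) (F.B_lt b u2)
  have hne : F.B b ≠ w := by
    intro h1
    have h2 := F.DB b u2
    rw [h1] at h2
    have h3 := hcb.2
    have h5 := hcb'.1
    omega
  have hgt2 : w < F.B b := by omega
  rcases F.DB b u2 with h1 | h1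
  · have hcr : Cr F.D F.T b (F.B b) := ⟨by omega, by omega⟩
    have h2 : ¬ F.B b < F.rho w b := fun h3 => hSb.2.2.2.2 _ hgt2 h3 hcr
    have h3 : F.B b = F.rho w s := by omega
    have h4 := hSb'.2.2.2.1.1
    rw [e, ← h3] at h4
    omega
  · have hcr : Cr F.D F.T (b - 1) (F.B b) := ⟨by omega, by omega⟩
    have h2 : ¬ F.B b < F.rho w (b - 1) := fun h3 => hSb'.2.2.2.2 _ hgt2 h3 hcr
    have h3 : F.B b = F.rho w s := by omega
    have h4 := hSb.2.2.2.1.2
    rw [heq, ← h3] at h4
    omega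

/-- At the first level of a run the bottom edge touches the closed column. -/
theorem touch_start {w s : ℕ} (hw : w + 1 < M)
    (hr : RunStart (F.rho w) (F.D w) (F.T w) s) :
    (w ≤ F.A s ∧ F.A s ≤ F.rho w s) ∨ (w ≤ F.B s ∧ F.B s ≤ F.rho w s) := by
  obtain ⟨h1, h2, h3⟩ := hr
  have hTw := F.T_lt w (by omega)
  have hS := F.rho_strip hw (k := s) ⟨h1, h2⟩
  have hsM : s < M := by omega
  by_cases h4 : s = F.D w
  · rcases F.wall w (by omega) with h5 | h5
    · left; rw [h4, h5.1]; rw [← h4]; exact ⟨le_refl _, le_of_lt hS.1⟩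
    · right; rw [h4, h5.1]; rw [← h4]; exact ⟨le_refl _, le_of_lt hS.1⟩
  · have h3' : F.rho w (s - 1) ≠ F.rho w s := by
      rcases h3 with h5 | h5
      · exact absurd h5 h4
      · exact h5
    have hS' := F.rho_strip hw (k := s - 1) ⟨by omega, by omega⟩
    rcases Nat.lt_or_ge (F.rho w (s - 1)) (F.rho w s) with h5 | h5
    · -- the wall `rho (s-1)` ends at `s`
      have h6 := hS.2.2.2.2 _ hS'.1 h5
      have h7 := hS'.2.2.2.1
      have hT : F.T (F.rho w (s - 1)) = s := by
        unfold Cr at h6 h7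
        omega
      rcases F.wall _ hS'.2.1 with h8 | h8
      · right
        rw [hT] at h8
        rw [h8.2]
        exact ⟨le_of_lt hS'.1, le_of_lt h5⟩
      · left
        rw [hT] at h8
        rw [h8.2]
        exact ⟨le_of_lt hS'.1, le_of_lt h5⟩
    · have h5' : F.rho w s < F.rho w (s - 1) := lt_of_le_of_ne h5 (Ne.symm h3')
      have h6 := hS'.2.2.2.2 _ hS.1 h5'
      have h7 := hS.2.2.2.1
      have hD : F.D (F.rho w s) = s := by
        unfold Cr at h6 h7
        omega
      rcases F.wall _ hS.2.1 with h8 | h8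
      · left
        rw [hD] at h8
        rw [h8.1]
        exact ⟨le_of_lt hS.1, le_refl _⟩
      · right
        rw [hD] at h8
        rw [h8.1]
        exact ⟨le_of_lt hS.1, le_refl _⟩

/-- Translation of the pairs `b < a` along the right side of a wall ending in `A`. -/
theorem pair_right {w s a b : ℕ} (hw : w + 1 < M) (hA : F.A (F.T w) = w) (hba : b < a)
    (hr : RunStart (F.rho w) (F.D w) (F.T w) s) :
    F.Pair w (F.rho w s) s a b ↔ ZZ (F.rho w) (F.D w) (F.T w) a b s := by
  have hc : Cr F.D F.T s w := ⟨hr.1, hr.2.1⟩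
  obtain ⟨a', ha'⟩ := exists_NS (F.rho w) (F.T w) s hr.2.1
  obtain ⟨b', hb'⟩ := exists_PS (F.rho w) (F.D w) s hr.1
  have hU := (F.up_of_NS hw hA hc ha').1
  have hL := (F.dn_of_PS hw hA hc hb').1
  have htouch := F.touch_start hw hr
  constructor
  · rintro ⟨h1 | h1, h2 | h2⟩
    · -- ad, bd
      have e := Dn.unique h2 hL
      subst e
      refine ⟨hr, Or.inr (Or.inr ⟨?_, hb'⟩)⟩
      have h3 : ¬ (w ≤ F.B s ∧ F.B s ≤ F.rho w s) := by
        apply h2.2.2.2 s _ (le_refl _)
        have := h1.1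
        omega
      have h4 : w ≤ F.A s ∧ F.A s ≤ F.rho w s := by
        rcases htouch with h5 | h5
        · exact h5
        · exact absurd h5 h3
      have h5 : Dn F.A w (F.rho w s) s s := ⟨le_refl _, h4.1, h4.2, fun i hi hi2 => by omega⟩
      exact (Dn.unique h1 h5).symm
    · exfalso
      have := h1.1
      have := h2.1
      omega
    · have e := Up.unique h1 hU
      have e2 := Dn.unique h2 hL
      subst e
      subst e2
      exact ⟨hr, Or.inl ⟨ha', hb'⟩⟩
    · have e := Up.unique h1 hU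
      subst e
      exact ⟨hr, Or.inr (Or.inl ⟨ha', F.topEnd_of_up hw hA hc ha' hba h2⟩)⟩
  · rintro ⟨_, h | h | h⟩
    · exact ⟨Or.inr (F.up_of_NS hw hA hc h.1).1, Or.inl (F.dn_of_PS hw hA hc h.2).1⟩
    · exact ⟨Or.inr (F.up_of_NS hw hA hc h.1).1,
        Or.inr (F.up_of_TopEnd hw hA hc h.1 hba h.2)⟩
    · obtain ⟨h0, h1⟩ := h
      have h2 := (F.dn_of_PS hw hA hc h1).1
      refine ⟨Or.inl ?_, Or.inl h2⟩
      have h3 : ¬ (w ≤ F.B s ∧ F.B s ≤ F.rho w s) := h2.2.2.2 s (by omega) (le_refl _)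
      have h4 : w ≤ F.A s ∧ F.A s ≤ F.rho w s := by
        rcases htouch with h5 | h5
        · exact h5
        · exact absurd h5 h3
      rw [← h0]
      exact ⟨le_refl _, h4.1, h4.2, fun i hi hi2 => by omega⟩

end Fr

end Pool.Agent.Helper68.PY
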