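import Pool.Agent.Helper68.PY.Lanes

/-!
# Every pair lies in none or exactly two rectangles
-/

namespace Pool.Agent.Helper68.PY

namespace Fr

variable {M : ℕ} (F : Fr M)

theorem lane_cases {a b : ℕ} {R : ℕ × ℕ × ℕ} (hR : R ∈ F.QQ a b) :
    (∃ w, w + 1 < M ∧ F.A (F.T w) = w ∧ R ∈ F.ZR w a b) ∨
      (∃ w, w < M ∧ 0 < w ∧ F.A (F.T w) = w ∧ R ∈ F.ZL w a b) := by
  obtain ⟨l, r, s⟩ := R
  have hR' := hR
  obtain ⟨h1, h2⟩ := hR'
  simp only at h1 h2
  have hlt := F.isRec_lt h1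
  have halt := F.alt s l r h1.1
  by_cases hA : F.A (F.T l) = l
  · exact Or.inl ⟨l, by omega, hA, hR, rfl⟩
  · right
    have h3 : ¬ F.B (F.T r) = r := fun h => hA (halt.2 h)
    have h4 : F.A (F.T r) = r := by
      rcases F.wall r hlt.2.1 with h5 | h5
      · exact absurd h5.2 h3
      · exact h5.2
    exact ⟨r, hlt.2.1, by omega, h4, hR, rfl⟩

theorem ZR_ZR {w w' a b : ℕ} (hw : w + 1 < M) (hA : F.A (F.T w) = w) (hw' : w' + 1 < M)
    (hA' : F.A (F.T w') = w') (hba : b < a) (h1 : (F.ZR w a b).Nonempty)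
    (h2 : (F.ZR w' a b).Nonempty) : w = w' := by
  obtain ⟨⟨r, p1, p2, p3, p4, p5⟩, _⟩ := F.ZR_loc hw hA hba h1
  obtain ⟨⟨r', q1, q2, q3, q4, q5⟩, _⟩ := F.ZR_loc hw' hA' hba h2
  exact (Strip.unique p1 q1 (F.A a) p2 p3 q2 q3).1

theorem ZL_ZL {w w' a b : ℕ} (hw : w < M) (hw0 : 0 < w) (hA : F.A (F.T w) = w) (hw' : w' < M)
    (hw0' : 0 < w') (hA' : F.A (F.T w') = w') (hba : b < a) (ha : a < M)
    (h1 : (F.ZL w a b).Nonempty) (h2 : (F.ZL w' a b).Nonempty) : w = w' := by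
  obtain ⟨⟨l, p1, p2, p3, p4, p5⟩, _⟩ := F.ZL_loc hw hw0 hA hba ha h1
  obtain ⟨⟨l', q1, q2, q3, q4, q5⟩, _⟩ := F.ZL_loc hw' hw0' hA' hba ha h2
  exact (Strip.unique p1 q1 (F.A a - 1) (by omega) (by omega) (by omega) (by omega)).2

theorem ZR_ZL {w w' a b : ℕ} (hw : w + 1 < M) (hA : F.A (F.T w) = w) (hw' : w' < M)
    (hw0' : 0 < w') (hA' : F.A (F.T w') = w') (hba : b < a) (ha : a < M)
    (h1 : (F.ZR w a b).Nonempty) (h2 : (F.ZL w' a b).Nonempty) :
    w = w' ∧ a = F.T w ∧ b = F.D w := by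
  obtain ⟨⟨r, p1, p2, p3, p4, p5⟩, _, _, g1, g2, _⟩ := F.ZR_loc hw hA hba h1
  obtain ⟨⟨l, q1, q2, q3, q4, q5⟩, _⟩ := F.ZL_loc hw' hw0' hA' hba ha h2
  have hcon : ¬ (w = l ∧ r = w') := by
    rintro ⟨e1, e2⟩
    subst e1
    subst e2
    have h3 := (F.alt _ _ _ p1).1 hA
    exact (F.typeB p1.2.1 h3).2.1 hA'
  have e1 : w = F.A a := by
    by_contra hne
    exact hcon (Strip.unique p1 q1 (F.A a - 1) (by omega) (by omega) (by omega) (by omega))
  have e2 : w = F.B b := by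
    by_contra hne
    exact hcon (Strip.unique p1 q1 (F.B b - 1) (by omega) (by omega) (by omega) (by omega))
  have e3 : F.A a = w' := by
    by_contra hne
    exact hcon (Strip.unique p1 q1 (F.A a) (by omega) (by omega) (by omega) (by omega))
  exact ⟨by omega, g1 e1.symm, g2 e2.symm⟩

theorem mem_ZR_QQ {w a b : ℕ} {R : ℕ × ℕ × ℕ} (h : R ∈ F.ZR w a b) : R ∈ F.QQ a b := h.1

theorem mem_ZL_QQ {w a b : ℕ} {R : ℕ × ℕ × ℕ} (h : R ∈ F.ZL w a b) : R ∈ F.QQ a b := h.1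

/-- Frame walls. -/
theorem frame_wall {w : ℕ} (hw : w < M) (hD : F.D w = 0) : w = 0 ∨ w = M - 1 := by
  have h1 := F.wall w hw
  have h2 := F.f0
  have h3 := F.hM
  rw [hD] at h1
  omega

theorem frame_wall' {w : ℕ} (hw : w < M) (hT : F.T w = M - 1) : w = 0 ∨ w = M - 1 := by
  have h1 := F.wall w hw
  have h2 := F.f1
  have h3 := F.hM
  rw [hT] at h1
  omega

theorem QQ_root {w : ℕ} (hw : w + 1 < M) (hw0 : 0 < w) (hA : F.A (F.T w) = w) :
    ∃ R1 R2, R1 ≠ R2 ∧ F.QQ (F.T w) (F.D w) = {R1, R2} ∧ R1.1 = w ∧ R2.2.1 = w := by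
  have hDT := F.DT w (by omega)
  have hTM := F.T_lt w (by omega)
  obtain ⟨R1, h1⟩ := F.ZR_root hw hA
  obtain ⟨R2, h2⟩ := F.ZL_root (by omega) hw0 hA
  have m1 : R1 ∈ F.ZR w (F.T w) (F.D w) := by rw [h1]; exact Set.mem_singleton _
  have m2 : R2 ∈ F.ZL w (F.T w) (F.D w) := by rw [h2]; exact Set.mem_singleton _
  refine ⟨R1, R2, ?_, ?_, m1.2, m2.2⟩
  · intro h
    have h3 := m1.2
    have h4 := m2.2
    have h5 := F.isRec_lt m1.1.1
    rw [h] at h3 h5
    omega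
  · ext R
    rw [Set.mem_insert_iff, Set.mem_singleton_iff]
    constructor
    · intro hR
      rcases F.lane_cases hR with ⟨w', g1, g2, g3⟩ | ⟨w', g1, g2, g3, g4⟩
      · have e := F.ZR_ZR hw hA g1 g2 hDT ⟨_, m1⟩ ⟨_, g3⟩
        subst e
        rw [h1] at g3
        exact Or.inl g3
      · have e := (F.ZR_ZL hw hA g1 g2 g3 hDT hTM ⟨_, m1⟩ ⟨_, g4⟩).1
        subst e
        rw [h2] at g4
        exact Or.inr g4
    · rintro (rfl | rfl)
      · exact m1.1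
      · exact m2.1

theorem QQ_right {w a b : ℕ} (hw : w + 1 < M) (hA : F.A (F.T w) = w) (hba : b < a) (ha : a < M)
    (hroot : ¬ (a = F.T w ∧ b = F.D w)) (h : (F.ZR w a b).Nonempty) :
    F.QQ a b = F.ZR w a b := by
  ext R
  constructor
  · intro hR
    rcases F.lane_cases hR with ⟨w', g1, g2, g3⟩ | ⟨w', g1, g2, g3, g4⟩
    · have e := F.ZR_ZR hw hA g1 g2 hba h ⟨_, g3⟩
      subst e
      exact g3
    · exact absurd (F.ZR_ZL hw hA g1 g2 g3 hba ha h ⟨_, g4⟩).2 hroot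
  · exact fun hR => hR.1

theorem QQ_left {w a b : ℕ} (hw : w < M) (hw0 : 0 < w) (hA : F.A (F.T w) = w) (hba : b < a)
    (ha : a < M) (hroot : ¬ (a = F.T w ∧ b = F.D w)) (h : (F.ZL w a b).Nonempty) :
    F.QQ a b = F.ZL w a b := by
  ext R
  constructor
  · intro hR
    rcases F.lane_cases hR with ⟨w', g1, g2, g3⟩ | ⟨w', g1, g2, g3, g4⟩
    · obtain ⟨e1, e2⟩ := F.ZR_ZL g1 g2 hw hw0 hA hba ha ⟨_, g3⟩ h
      rw [e1] at e2
      exact absurd e2 hroot
    · have e := F.ZL_ZL hw hw0 hA g1 g2 g3 hba ha h ⟨_, g4⟩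
      subst e
      exact g4
  · exact fun hR => hR.1

theorem QQ_lt {a b : ℕ} (hba : b < a) (ha : a < M) (hc : ¬ (a = M - 1 ∧ b = 0)) :
    F.QQ a b = ∅ ∨ ∃ R1 R2, R1 ≠ R2 ∧ F.QQ a b = {R1, R2} := by
  by_cases hne : (F.QQ a b).Nonempty
  · right
    obtain ⟨R, hR⟩ := hne
    rcases F.lane_cases hR with ⟨w, g1, g2, g3⟩ | ⟨w, g1, g2, g3, g4⟩
    · by_cases hroot : a = F.T w ∧ b = F.D w
      · have hw0 : 0 < w := by
          by_contra h0
          have h1 : w = 0 := by omega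
          rw [h1, F.T0, F.D0] at hroot
          exact hc hroot
        obtain ⟨R1, R2, h1, h2, _⟩ := F.QQ_root g1 hw0 g2
        rw [← hroot.1, ← hroot.2] at h2
        exact ⟨R1, R2, h1, h2⟩
      · rw [F.QQ_right g1 g2 hba ha hroot ⟨_, g3⟩]
        obtain ⟨R1, R2, h1, h2, _⟩ := F.ZR_two g1 g2 hba hroot ⟨_, g3⟩
        exact ⟨R1, R2, h1, h2⟩
    · by_cases hroot : a = F.T w ∧ b = F.D w
      · have hw1 : w + 1 < M := by
          by_contra h0
          have h1 : w = M - 1 := by omega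
          rw [h1, F.TM, F.DM] at hroot
          exact hc hroot
        obtain ⟨R1, R2, h1, h2, _⟩ := F.QQ_root hw1 g2 g3
        rw [← hroot.1, ← hroot.2] at h2
        exact ⟨R1, R2, h1, h2⟩
      · rw [F.QQ_left g1 g2 g3 hba ha hroot ⟨_, g4⟩]
        exact F.ZL_two g1 g2 g3 hba hroot ⟨_, g4⟩
  · left
    exact Set.not_nonempty_iff_eq_empty.1 hne

theorem QQ_corner_lt : ∃ R, F.QQ (M - 1) 0 = {R} := by
  have hM := F.hM
  have hfw : F.A (M - 1) = 0 ∨ F.A (M - 1) = M - 1 := by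
    rcases F.f1 with h | h
    · exact Or.inl h.1
    · exact Or.inr h.2
  rcases hfw with h | h
  · -- wall `0`
    have hA : F.A (F.T 0) = 0 := by rw [F.T0, h]
    obtain ⟨R, hR⟩ := F.ZR_root (w := 0) (by omega) hA
    rw [F.T0, F.D0] at hR
    have m : R ∈ F.ZR 0 (M - 1) 0 := by rw [hR]; exact Set.mem_singleton _
    refine ⟨R, ?_⟩
    rw [← hR]
    ext R'
    constructor
    · intro hR'
      rcases F.lane_cases hR' with ⟨w', g1, g2, g3⟩ | ⟨w', g1, g2, g3, g4⟩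
      · have e := F.ZR_ZR (by omega) hA g1 g2 (by omega) ⟨_, m⟩ ⟨_, g3⟩
        subst e
        exact g3
      · have e := (F.ZR_ZL (by omega) hA g1 g2 g3 (by omega) (by omega) ⟨_, m⟩ ⟨_, g4⟩).1
        omega
    · exact fun h' => h'.1
  · have hA : F.A (F.T (M - 1)) = M - 1 := by rw [F.TM, h]
    obtain ⟨R, hR⟩ := F.ZL_root (w := M - 1) (by omega) (by omega) hA
    rw [F.TM, F.DM] at hR
    have m : R ∈ F.ZL (M - 1) (M - 1) 0 := by rw [hR]; exact Set.mem_singleton _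
    refine ⟨R, ?_⟩
    rw [← hR]
    ext R'
    constructor
    · intro hR'
      rcases F.lane_cases hR' with ⟨w', g1, g2, g3⟩ | ⟨w', g1, g2, g3, g4⟩
      · have e := (F.ZR_ZL g1 g2 (by omega) (by omega) hA (by omega) (by omega) ⟨_, g3⟩
          ⟨_, m⟩).1
        omega
      · have e := F.ZL_ZL (w := M - 1) (by omega) (by omega) hA g1 g2 g3 (by omega) (by omega)
          ⟨_, m⟩ ⟨_, g4⟩
        subst e
        exact g4
    · exact fun h' => h'.1

theorem swap_QQ (a b : ℕ) : F.swap.QQ b a = F.QQ a b := by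
  ext R
  simp only [QQ, Set.mem_setOf_eq, IsRec, Pair, swap]
  tauto

/-! ### Horizontal pairs -/

theorem touch_not_strip {l r i : ℕ} (hi : 0 < i) (hiM : i < M)
    (h1 : Strip M F.D F.T l r (i - 1)) (h2 : Strip M F.D F.T l r i)
    (h3 : l ≤ F.A i) (h4 : F.A i ≤ r) : False := by
  have h5 := F.DA i hiM
  have hDT := F.DT (F.A i) (F.A_lt i hiM)
  obtain ⟨p1, p2, p3, p4, p5⟩ := h1
  obtain ⟨q1, q2, q3, q4, q5⟩ := h2
  unfold Cr at p3 p4 q3 q4
  by_cases e1 : F.A i = l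
  · rw [e1] at h5 hDT; omega
  · by_cases e2 : F.A i = r
    · rw [e2] at h5 hDT; omega
    · rcases h5 with h5 | h5
      · exact q5 (F.A i) (by omega) (by omega) ⟨by omega, by omega⟩
      · exact p5 (F.A i) (by omega) (by omega) ⟨by omega, by omega⟩

theorem persist_up {l r h : ℕ} (h1 : Strip M F.D F.T l r h)
    (h3 : ¬ (l ≤ F.A (h + 1) ∧ F.A (h + 1) ≤ r)) (h4 : ¬ (l ≤ F.B (h + 1) ∧ F.B (h + 1) ≤ r)) :
    Strip M F.D F.T l r (h + 1) := by
  obtain ⟨p1, p2, p3, p4, p5⟩ := h1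
  refine ⟨p1, p2, ⟨?_, ?_⟩, ⟨?_, ?_⟩, ?_⟩
  · have := p3.1; omega
  · have h5 := p3.2
    have h6 := F.wall l (by omega)
    by_contra h7
    have h8 : F.T l = h + 1 := by omega
    rw [h8] at h6
    omega
  · have := p4.1; omega
  · have h5 := p4.2
    have h6 := F.wall r p2
    by_contra h7
    have h8 : F.T r = h + 1 := by omega
    rw [h8] at h6
    omega
  · intro x hx hx2 hc
    have h5 := p5 x hx hx2
    have h6 := F.wall x (by omega)
    unfold Cr at h5 hc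
    have h8 : F.D x = h + 1 := by omega
    rw [h8] at h6
    omega

theorem persist_down {l r h : ℕ} (h0 : 0 < h) (h1 : Strip M F.D F.T l r h)
    (h3 : ¬ (l ≤ F.A h ∧ F.A h ≤ r)) (h4 : ¬ (l ≤ F.B h ∧ F.B h ≤ r)) :
    Strip M F.D F.T l r (h - 1) := by
  obtain ⟨p1, p2, p3, p4, p5⟩ := h1
  refine ⟨p1, p2, ⟨?_, ?_⟩, ⟨?_, ?_⟩, ?_⟩
  · have h5 := p3.1
    have h6 := F.wall l (by omega)
    by_contra h7
    have h8 : F.D l = h := by omega
    rw [h8] at h6
    omega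
  · have := p3.2; omega
  · have h5 := p4.1
    have h6 := F.wall r p2
    by_contra h7
    have h8 : F.D r = h := by omega
    rw [h8] at h6
    omega
  · have := p4.2; omega
  · intro x hx hx2 hc
    have h5 := p5 x hx hx2
    have h6 := F.wall x (by omega)
    unfold Cr at h5 hc
    have h8 : F.T x = h := by omega
    rw [h8] at h6
    omega

theorem persist_range {l r s h : ℕ} (hsh : s ≤ h) (h1 : Strip M F.D F.T l r s)
    (h3 : ∀ i, s < i → i ≤ h → ¬ (l ≤ F.A i ∧ F.A i ≤ r) ∧ ¬ (l ≤ F.B i ∧ F.B i ≤ r)) :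
    ∀ k, s ≤ k → k ≤ h → Strip M F.D F.T l r k := by
  intro k hk
  induction k, hk using Nat.le_induction with
  | base => intro _; exact h1
  | succ k hk ih =>
    intro hk2
    have h5 := ih (by omega)
    have h6 := h3 (k + 1) (by omega) hk2
    exact F.persist_up h5 h6.1 h6.2

theorem exists_isRec {l r h : ℕ} (h1 : Strip M F.D F.T l r h) :
    ∃ s, s ≤ h ∧ F.IsRec l r s ∧ ∀ k, s ≤ k → k ≤ h → Strip M F.D F.T l r k := by
  classical
  have hex : ∃ s, s ≤ h ∧ ∀ k, s ≤ k → k ≤ h → Strip M F.D F.T l r k :=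
    ⟨h, le_refl _, fun k h2 h3 => by rw [le_antisymm h3 h2]; exact h1⟩
  obtain ⟨h2, h3⟩ := Nat.find_spec hex
  refine ⟨Nat.find hex, h2, ⟨h3 _ (le_refl _) h2, ?_⟩, h3⟩
  by_cases h4 : Nat.find hex = 0
  · exact Or.inl h4
  · right
    intro h5
    refine Nat.find_min hex (m := Nat.find hex - 1) (by omega) ⟨by omega, ?_⟩
    intro k hk hk2
    by_cases h6 : k = Nat.find hex - 1
    · rw [h6]; exact h5
    · exact h3 k (by omega) hk2

theorem cr_zero (k : ℕ) (hk : k < M - 1) : Cr F.D F.T k 0 := by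
  refine ⟨?_, ?_⟩
  · rw [F.D0]; omega
  · rw [F.T0]; exact hk

/-- The strip above/below a horizontal edge. -/
theorem exists_cover {p q h : ℕ} (hpq : p < q) (hq : q < M) (hh : h < M - 1)
    (hno : ∀ j, p < j → j < q → ¬ Cr F.D F.T h j) :
    ∃ l r, Strip M F.D F.T l r h ∧ l ≤ p ∧ q ≤ r := by
  classical
  have hne : {x | q ≤ x ∧ x < M ∧ Cr F.D F.T h x}.Nonempty :=
    ⟨M - 1, by omega, by omega, F.cr_last h hh⟩
  obtain ⟨h1, h2, h3⟩ := Nat.sInf_mem hne
  have hmin : ∀ x, q ≤ x → x < sInf {x | q ≤ x ∧ x < M ∧ Cr F.D F.T h x} →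
      ¬ Cr F.D F.T h x := by
    intro x hx hx2 hc
    exact Nat.notMem_of_lt_sInf hx2 ⟨hx, by omega, hc⟩
  set r := sInf {x | q ≤ x ∧ x < M ∧ Cr F.D F.T h x} with hr
  have hex : ∃ d, d ≤ p ∧ Cr F.D F.T h (p - d) := ⟨p, le_refl _, by
    rw [Nat.sub_self]; exact F.cr_zero h hh⟩
  obtain ⟨h4, h5⟩ := Nat.find_spec hex
  have hmin2 : ∀ d, d < Nat.find hex → ¬ (d ≤ p ∧ Cr F.D F.T h (p - d)) :=
    fun d hd => Nat.find_min hex hd
  refine ⟨p - Nat.find hex, r, ⟨by omega, h2, h5, h3, ?_⟩, by omega, h1⟩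
  intro x hx hx2 hc
  rcases Nat.lt_or_ge p x with h6 | h6
  · rcases Nat.lt_or_ge x q with h7 | h7
    · exact hno x h6 h7 hc
    · exact hmin x h7 hx2 hc
  · refine hmin2 (p - x) (by omega) ⟨by omega, ?_⟩
    have e : p - (p - x) = x := by omega
    rw [e]
    exact hc

theorem cover_above {i : ℕ} (hi : i + 1 < M) :
    ∃ l r, Strip M F.D F.T l r i ∧ l ≤ F.A i ∧ F.A i ≤ r ∧ l ≤ F.B i ∧ F.B i ≤ r := by
  have hA := F.A_lt i (by omega)
  have hB := F.B_lt i (by omega)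
  have hAB := F.AB i (by omega)
  have key : ∀ j, j < M → j ≠ F.A i → j ≠ F.B i → Cr F.D F.T i j →
      F.D j < i ∧ i < F.T j := by
    intro j hj h1 h2 hc
    refine ⟨?_, hc.2⟩
    have h3 := hc.1
    have h4 := F.wall j hj
    by_contra h5
    have h6 : F.D j = i := by omega
    rw [h6] at h4
    omega
  rcases Nat.lt_or_ge (F.A i) (F.B i) with h | h
  · obtain ⟨l, r, h1, h2, h3⟩ := F.exists_cover h hB (h := i) (by omega) (by
      intro j hj hj2 hc
      have h4 := key j (by omega) (by omega) (by omega) hc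
      exact (F.nc i (by omega) j (by omega) h4.1 h4.2).1 ⟨hj, hj2⟩)
    exact ⟨l, r, h1, h2, by omega, by omega, h3⟩
  · obtain ⟨l, r, h1, h2, h3⟩ := F.exists_cover (p := F.B i) (q := F.A i) (by omega) hA
      (h := i) (by omega) (by
      intro j hj hj2 hc
      have h4 := key j (by omega) (by omega) (by omega) hc
      exact (F.nc i (by omega) j (by omega) h4.1 h4.2).2 ⟨hj, hj2⟩)
    exact ⟨l, r, h1, by omega, h3, h2, by omega⟩

theorem cover_below {i : ℕ} (hi0 : 0 < i) (hi : i < M) :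
    ∃ l r, Strip M F.D F.T l r (i - 1) ∧ l ≤ F.A i ∧ F.A i ≤ r ∧ l ≤ F.B i ∧ F.B i ≤ r := by
  have hA := F.A_lt i (by omega)
  have hB := F.B_lt i (by omega)
  have hAB := F.AB i (by omega)
  have key : ∀ j, j < M → j ≠ F.A i → j ≠ F.B i → Cr F.D F.T (i - 1) j →
      F.D j < i ∧ i < F.T j := by
    intro j hj h1 h2 hc
    have h2' := hc.2
    have h3 := hc.1
    refine ⟨by omega, ?_⟩
    have h4 := F.wall j hj
    by_contra h5
    have h6 : F.T j = i := by omega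
    rw [h6] at h4
    omega
  rcases Nat.lt_or_ge (F.A i) (F.B i) with h | h
  · obtain ⟨l, r, h1, h2, h3⟩ := F.exists_cover h hB (h := i - 1) (by omega) (by
      intro j hj hj2 hc
      have h4 := key j (by omega) (by omega) (by omega) hc
      exact (F.nc i (by omega) j (by omega) h4.1 h4.2).1 ⟨hj, hj2⟩)
    exact ⟨l, r, h1, h2, by omega, by omega, h3⟩
  · obtain ⟨l, r, h1, h2, h3⟩ := F.exists_cover (p := F.B i) (q := F.A i) (by omega) hA
      (h := i - 1) (by omega) (by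
      intro j hj hj2 hc
      have h4 := key j (by omega) (by omega) (by omega) hc
      exact (F.nc i (by omega) j (by omega) h4.1 h4.2).2 ⟨hj, hj2⟩)
    exact ⟨l, r, h1, by omega, h3, h2, by omega⟩

/-- The rectangle directly above the edge `i`. -/
theorem exists_above {i : ℕ} (hi : i + 1 < M) :
    ∃ R : ℕ × ℕ × ℕ, R ∈ F.QQ i i ∧ R.2.2 = i ∧ Dn F.A R.1 R.2.1 R.2.2 i ∧
      Dn F.B R.1 R.2.1 R.2.2 i ∧
      ∀ R' : ℕ × ℕ × ℕ, F.IsRec R'.1 R'.2.1 R'.2.2 → Dn F.A R'.1 R'.2.1 R'.2.2 i →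
        Dn F.B R'.1 R'.2.1 R'.2.2 i → R' = R := by
  obtain ⟨l, r, h1, h2, h3, h4, h5⟩ := F.cover_above hi
  have hdA : Dn F.A l r i i := ⟨le_refl _, h2, h3, fun k hk hk2 => by omega⟩
  have hdB : Dn F.B l r i i := ⟨le_refl _, h4, h5, fun k hk hk2 => by omega⟩
  have hrec : F.IsRec l r i := by
    refine ⟨h1, ?_⟩
    by_cases h6 : i = 0
    · exact Or.inl h6
    · right
      intro h7
      exact F.touch_not_strip (by omega) (by omega) h7 h1 h2 h3
  refine ⟨(l, r, i), ⟨hrec, Or.inl hdA, Or.inl hdB⟩, rfl, hdA, hdB, ?_⟩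
  rintro ⟨l', r', s'⟩ h6 h7 h8
  simp only at h6 h7 h8
  have hs : s' = i := by
    by_contra hne
    have h9 : i < s' := by have := h7.1; omega
    have h10 := F.persist_down (by omega) h6.1 (h7.2.2.2 s' h9 (le_refl _))
      (h8.2.2.2 s' h9 (le_refl _))
    rcases h6.2 with h11 | h11
    · omega
    · exact h11 h10
  subst hs
  have hAB := F.AB s' (by omega)
  obtain ⟨g1, g2, g3, g4⟩ := h7
  obtain ⟨k1, k2, k3, k4⟩ := h8
  obtain ⟨e1, e2⟩ := Strip.unique h6.1 h1 (min (F.A s') (F.B s')) (by omega) (by omega)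
    (by omega) (by omega)
  rw [e1, e2]

/-- The rectangle directly below the edge `i`. -/
theorem exists_below {i : ℕ} (hi0 : 0 < i) (hi : i < M) :
    ∃ R : ℕ × ℕ × ℕ, R ∈ F.QQ i i ∧ R.2.2 < i ∧ Up M F.A R.1 R.2.1 R.2.2 i ∧
      Up M F.B R.1 R.2.1 R.2.2 i ∧
      ∀ R' : ℕ × ℕ × ℕ, F.IsRec R'.1 R'.2.1 R'.2.2 → Up M F.A R'.1 R'.2.1 R'.2.2 i →
        Up M F.B R'.1 R'.2.1 R'.2.2 i → R' = R := by
  obtain ⟨l, r, h1, h2, h3, h4, h5⟩ := F.cover_below hi0 hi
  obtain ⟨s, hs, hrec, hall⟩ := F.exists_isRec h1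
  have hdA : Up M F.A l r s i := by
    refine ⟨by omega, hi, h2, h3, fun k hk hk2 hc => ?_⟩
    exact F.touch_not_strip (by omega) (by omega) (hall (k - 1) (by omega) (by omega))
      (hall k (by omega) (by omega)) hc.1 hc.2
  have hdB : Up M F.B l r s i := by
    refine ⟨by omega, hi, h4, h5, fun k hk hk2 hc => ?_⟩
    exact F.swap.touch_not_strip (i := k) (by omega) (by omega)
      (hall (k - 1) (by omega) (by omega)) (hall k (by omega) (by omega)) hc.1 hc.2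
  refine ⟨(l, r, s), ⟨hrec, Or.inr hdA, Or.inr hdB⟩, by simp only; omega, hdA, hdB, ?_⟩
  rintro ⟨l', r', s'⟩ h6 h7 h8
  simp only at h6 h7 h8
  have hAB := F.AB i hi
  obtain ⟨g0, g1, g2, g3, g4⟩ := h7
  obtain ⟨k0, k1, k2, k3, k4⟩ := h8
  have hall' := F.persist_range (s := s') (h := i - 1) (by omega) h6.1
    (fun j hj hj2 => ⟨g4 j hj (by omega), k4 j hj (by omega)⟩)
  have h9 := hall' (i - 1) (by omega) (le_refl _)
  obtain ⟨e1, e2⟩ := Strip.unique h9 h1 (min (F.A i) (F.B i)) (by omega) (by omega)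
    (by omega) (by omega)
  subst e1
  subst e2
  have e3 : s' = s := by
    by_contra hne
    rcases Nat.lt_or_ge s' s with h10 | h10
    · rcases hrec.2 with h11 | h11
      · omega
      · exact h11 (hall' (s - 1) (by omega) (by omega))
    · rcases h6.2 with h11 | h11
      · omega
      · exact h11 (hall (s' - 1) (by omega) (by omega))
  rw [e3]

theorem QQ_diag_split {i : ℕ} {R : ℕ × ℕ × ℕ} (hR : R ∈ F.QQ i i) :
    (Dn F.A R.1 R.2.1 R.2.2 i ∧ Dn F.B R.1 R.2.1 R.2.2 i) ∨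
      (Up M F.A R.1 R.2.1 R.2.2 i ∧ Up M F.B R.1 R.2.1 R.2.2 i) := by
  obtain ⟨h1, h2 | h2, h3 | h3⟩ := hR
  · exact Or.inl ⟨h2, h3⟩
  · exfalso
    have := h2.1
    have := h3.1
    omega
  · exfalso
    have := h2.1
    have := h3.1
    omega
  · exact Or.inr ⟨h2, h3⟩

theorem QQ_diag {i : ℕ} (hi0 : 0 < i) (hi : i + 1 < M) :
    ∃ R1 R2, R1 ≠ R2 ∧ F.QQ i i = {R1, R2} := by
  obtain ⟨R1, h1, h2, h3, h4, h5⟩ := F.exists_above hi
  obtain ⟨R2, g1, g2, g3, g4, g5⟩ := F.exists_below hi0 (by omega)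
  refine ⟨R1, R2, ?_, ?_⟩
  · intro h
    rw [h] at h2
    omega
  · ext R
    rw [Set.mem_insert_iff, Set.mem_singleton_iff]
    constructor
    · intro hR
      rcases F.QQ_diag_split hR with h | h
      · exact Or.inl (h5 R hR.1 h.1 h.2)
      · exact Or.inr (g5 R hR.1 h.1 h.2)
    · rintro (rfl | rfl)
      · exact h1
      · exact g1

theorem QQ_zero : ∃ R, F.QQ 0 0 = {R} := by
  have hM := F.hM
  obtain ⟨R1, h1, h2, h3, h4, h5⟩ := F.exists_above (i := 0) (by omega)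
  refine ⟨R1, ?_⟩
  ext R
  rw [Set.mem_singleton_iff]
  constructor
  · intro hR
    rcases F.QQ_diag_split hR with h | h
    · exact h5 R hR.1 h.1 h.2
    · have := h.1.1
      omega
  · rintro rfl
    exact h1

theorem QQ_last : ∃ R, F.QQ (M - 1) (M - 1) = {R} := by
  have hM := F.hM
  obtain ⟨R1, h1, h2, h3, h4, h5⟩ := F.exists_below (i := M - 1) (by omega) (by omega)
  refine ⟨R1, ?_⟩
  ext R
  rw [Set.mem_singleton_iff]
  constructor
  · intro hR
    rcases F.QQ_diag_split hR with h | h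
    · have h6 := F.isRec_lt hR.1
      have := h.1.1
      omega
    · exact h5 R hR.1 h.1 h.2
  · rintro rfl
    exact h1

/-- All pairs. -/
theorem QQ_all {a b : ℕ} (ha : a < M) (hb : b < M)
    (hc : ¬ ((a = 0 ∨ a + 1 = M) ∧ (b = 0 ∨ b + 1 = M))) :
    F.QQ a b = ∅ ∨ ∃ R1 R2, R1 ≠ R2 ∧ F.QQ a b = {R1, R2} := by
  rcases lt_trichotomy b a with h | h | h
  · exact F.QQ_lt h ha (by omega)
  · subst h
    exact Or.inr (F.QQ_diag (by omega) (by omega))
  · rw [← F.swap_QQ a b]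
    exact F.swap.QQ_lt h hb (by omega)

theorem QQ_corner {a b : ℕ} (ha : a = 0 ∨ a + 1 = M) (hb : b = 0 ∨ b + 1 = M) :
    ∃ R, F.QQ a b = {R} := by
  have hM := F.hM
  rcases ha with ha | ha <;> rcases hb with hb | hb
  · subst ha; subst hb; exact F.QQ_zero
  · have e : b = M - 1 := by omega
    subst ha; subst e
    rw [← F.swap_QQ]
    exact F.swap.QQ_corner_lt
  · have e : a = M - 1 := by omega
    subst hb; subst e
    exact F.QQ_corner_lt
  · have e : a = M - 1 := by omega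
    have e' : b = M - 1 := by omega
    subst e; subst e'
    exact F.QQ_last

end Fr

end Pool.Agent.Helper68.PY
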