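import Pool.Agent.Helper68.PY.Build
import Pool.Agent.Helper68.PY.Fr0

/-!
# Free boxes between a rectangle and its four vertices
-/

namespace Pool.Agent.Helper68.PY

namespace Fr

variable {M : ℕ} (F : Fr M)

/-- The open index box `(l, r) × (b, t)` meets neither an edge nor a wall. -/
def FB (l r b t : ℕ) : Prop :=
  (∀ e < M, b < e → e < t → ¬ (min (F.A e) (F.B e) < r ∧ l < max (F.A e) (F.B e))) ∧
    (∀ w < M, l < w → w < r → ¬ (F.D w < t ∧ b < F.T w))

theorem swap_FB {l r b t : ℕ} (h : F.swap.FB l r b t) : F.FB l r b t := by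
  obtain ⟨h1, h2⟩ := h
  refine ⟨fun e he h3 h4 h5 => h1 e he h3 h4 ?_, h2⟩
  have e1 : F.swap.A e = F.B e := rfl
  have e2 : F.swap.B e = F.A e := rfl
  rw [e1, e2, min_comm, max_comm]
  exact h5

theorem mir_FB {l r b t : ℕ} (hlr : l < r) (hr : r < M)
    (h : F.mir.FB (M - 1 - r) (M - 1 - l) b t) : F.FB l r b t := by
  obtain ⟨h1, h2⟩ := h
  refine ⟨fun e he h3 h4 h5 => h1 e he h3 h4 ?_, fun w hw h3 h4 h5 =>
    h2 (M - 1 - w) (by omega) (by omega) (by omega) ?_⟩
  · have e1 : F.mir.A e = M - 1 - F.A e := rfl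
    have e2 : F.mir.B e = M - 1 - F.B e := rfl
    rw [e1, e2]
    have hA := F.A_lt e he
    have hB := F.B_lt e he
    omega
  · rw [F.mir_D hw, F.mir_T hw]
    exact h5

theorem FB_of_rho {l r b t : ℕ} (hl : l + 1 < M) (hlr : l < r) (hb : F.D l ≤ b) (ht : t ≤ F.T l)
    (hbt : b < t) (h : ∀ k, b ≤ k → k < t → r ≤ F.rho l k) : F.FB l r b t := by
  have hTl := F.T_lt l (by omega)
  constructor
  · rintro e he h1 h2 ⟨h3, h4⟩
    have hAe := F.A_lt e he
    have hBe := F.B_lt e he
    have hnc := F.nc e he l (by omega) (by omega) (by omega)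
    have hwl := F.wall l (by omega)
    have hDA := F.DA e he
    have hDB := F.DB e he
    have key : ∀ x, x < M → l < x → x < r → (F.D x = e ∨ F.T x = e) → False := by
      intro x hx h5 h6 h7
      have hDT := F.DT x hx
      rcases h7 with h7 | h7
      · have hS := F.rho_strip hl (k := e) ⟨by omega, by omega⟩
        have := h e (by omega) h2
        exact hS.2.2.2.2 x h5 (by omega) ⟨by omega, by omega⟩
      · have hS := F.rho_strip hl (k := e - 1) ⟨by omega, by omega⟩
        have := h (e - 1) (by omega) (by omega)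
        exact hS.2.2.2.2 x h5 (by omega) ⟨by omega, by omega⟩
    have hneA : F.A e ≠ l := by
      intro h5
      rw [h5] at hDA
      omega
    have hneB : F.B e ≠ l := by
      intro h5
      rw [h5] at hDB
      omega
    rcases Nat.lt_or_ge (F.A e) (F.B e) with h5 | h5
    · exact key (F.A e) hAe (by omega) (by omega) hDA
    · exact key (F.B e) hBe (by omega) (by omega) hDB
  · rintro w hw h1 h2 ⟨h3, h4⟩
    have hDT := F.DT w hw
    rcases Nat.lt_or_ge (F.D w) b with h5 | h5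
    · have hS := F.rho_strip hl (k := b) ⟨by omega, by omega⟩
      have := h b (le_refl _) hbt
      exact hS.2.2.2.2 w h1 (by omega) ⟨by omega, by omega⟩
    · have hS := F.rho_strip hl (k := F.D w) ⟨by omega, by omega⟩
      have := h (F.D w) h5 h3
      exact hS.2.2.2.2 w h1 (by omega) ⟨by omega, by omega⟩

theorem up_FB_aux {l r i a : ℕ} (hS : Strip M F.D F.T l r i) (hA : F.A (F.T l) = l)
    (hU : Up M F.A l r i a) : F.FB l r i a := by
  have hlr := hS.1
  have hrM := hS.2.1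
  have hl : l + 1 < M := by omega
  have hc : Cr F.D F.T i l := hS.2.2.1
  have hr := F.eq_rho hS
  obtain ⟨a', ha'⟩ := exists_NS (F.rho l) (F.T l) i hc.2
  have hU' := (F.up_of_NS hl hA hc ha').1
  rw [← hr] at hU'
  have e := Up.unique hU hU'
  subst e
  obtain ⟨n1, n2, n3, n4⟩ := ha'
  refine F.FB_of_rho hl hlr hc.1 n2 n1 (fun k hk hk2 => ?_)
  by_cases h1 : k = i
  · rw [h1, ← hr]
  · rw [hr]
    exact n3 k (by omega) hk2

theorem dn_FB_aux {l r i b : ℕ} (hS : Strip M F.D F.T l r i) (hA : F.A (F.T l) = l)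
    (hL : Dn F.B l r i b) : F.FB l r b (i + 1) := by
  have hlr := hS.1
  have hrM := hS.2.1
  have hl : l + 1 < M := by omega
  have hc : Cr F.D F.T i l := hS.2.2.1
  have hr := F.eq_rho hS
  obtain ⟨b', hb'⟩ := exists_PS (F.rho l) (F.D l) i hc.1
  have hL' := (F.dn_of_PS hl hA hc hb').1
  rw [← hr] at hL'
  have e := Dn.unique hL hL'
  subst e
  obtain ⟨n1, n2, n3, n4⟩ := hb'
  have hc2 := hc.2
  refine F.FB_of_rho hl hlr n2 (by omega) (by omega) (fun k hk hk2 => ?_)
  by_cases h1 : k = i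
  · rw [h1, ← hr]
  · rw [hr]
    exact n3 k hk (by omega)

theorem typeA_right {l r i : ℕ} (hS : Strip M F.D F.T l r i) (hA : ¬ F.A (F.T l) = l) :
    F.A (F.T r) = r := by
  have h1 := F.alt i l r hS
  rcases F.wall r hS.2.1 with h2 | h2
  · exact absurd (h1.2 h2.2) hA
  · exact h2.2

theorem up_FB {l r i a : ℕ} (hS : Strip M F.D F.T l r i)
    (hU : Up M F.A l r i a) : F.FB l r i a := by
  by_cases hA : F.A (F.T l) = l
  · exact F.up_FB_aux hS hA hU
  · have hA' := F.typeA_right hS hA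
    have hlr := hS.1
    have hrM := hS.2.1
    apply F.mir_FB hlr hrM
    refine F.mir.up_FB_aux ?_ (F.mir_tA hrM hA') ?_
    · rw [F.mir_strip _ _ _ (by omega) (by omega)]
      have e1 : M - 1 - (M - 1 - l) = l := by omega
      have e2 : M - 1 - (M - 1 - r) = r := by omega
      rw [e1, e2]
      exact hS
    · rw [mir_up F.A F.mir.A (fun i hi => ⟨F.A_lt i hi, rfl⟩) _ _ _ _ (by omega) (by omega)]
      have e1 : M - 1 - (M - 1 - l) = l := by omega
      have e2 : M - 1 - (M - 1 - r) = r := by omega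
      rw [e1, e2]
      exact hU

theorem dn_FB {l r i b : ℕ} (hS : Strip M F.D F.T l r i)
    (hL : Dn F.B l r i b) : F.FB l r b (i + 1) := by
  by_cases hA : F.A (F.T l) = l
  · exact F.dn_FB_aux hS hA hL
  · have hA' := F.typeA_right hS hA
    have hlr := hS.1
    have hrM := hS.2.1
    have hTl := F.T_lt l (by omega)
    have hiM : i < M := by have := hS.2.2.1.2; omega
    apply F.mir_FB hlr hrM
    refine F.mir.dn_FB_aux ?_ (F.mir_tA hrM hA') ?_
    · rw [F.mir_strip _ _ _ (by omega) (by omega)]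
      have e1 : M - 1 - (M - 1 - l) = l := by omega
      have e2 : M - 1 - (M - 1 - r) = r := by omega
      rw [e1, e2]
      exact hS
    · rw [mir_dn F.B F.mir.B (fun i hi => ⟨F.B_lt i hi, rfl⟩) _ _ _ _ (by omega) (by omega) hiM]
      have e1 : M - 1 - (M - 1 - l) = l := by omega
      have e2 : M - 1 - (M - 1 - r) = r := by omega
      rw [e1, e2]
      exact hL

theorem up_FB' {l r i b : ℕ} (hS : Strip M F.D F.T l r i)
    (hU : Up M F.B l r i b) : F.FB l r i b :=
  F.swap_FB (F.swap.up_FB hS hU)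

theorem dn_FB' {l r i a : ℕ} (hS : Strip M F.D F.T l r i)
    (hL : Dn F.A l r i a) : F.FB l r a (i + 1) :=
  F.swap_FB (F.swap.dn_FB hS hL)

/-- The vertex `(c, h)` sees the unit cell `(j, i)`. -/
def SC (c h j i : ℕ) : Prop :=
  ∃ l r b t, l ≤ j ∧ j < r ∧ b ≤ i ∧ i < t ∧ r < M ∧ t < M ∧ l ≤ c ∧ c ≤ r ∧ b ≤ h ∧ h ≤ t ∧
    F.FB l r b t

/-- Every unit cell lies in a rectangle, and the four vertices of the rectangle see it. -/
theorem cell {j i : ℕ} (hj : j + 1 < M) (hi : i + 1 < M) :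
    ∃ l r s, F.IsRec l r s ∧
      (∀ a, Up M F.A l r s a → F.SC (F.A a) a j i) ∧
      (∀ a, Dn F.A l r s a → F.SC (F.A a) a j i) ∧
      (∀ b, Up M F.B l r s b → F.SC (F.B b) b j i) ∧
      (∀ b, Dn F.B l r s b → F.SC (F.B b) b j i) := by
  obtain ⟨l, r, hS, h1, h2⟩ := F.exists_cover (p := j) (q := j + 1) (h := i) (by omega) hj
    (by omega) (fun x hx hx2 => by omega)
  obtain ⟨s, hs, hrec, hall⟩ := F.exists_isRec hS
  have hrM := hS.2.1
  have hnoA : ∀ k, s < k → k ≤ i → ¬ (l ≤ F.A k ∧ F.A k ≤ r) := by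
    intro k hk hk2 hc
    exact F.touch_not_strip (by omega) (by omega) (hall (k - 1) (by omega) (by omega))
      (hall k (by omega) hk2) hc.1 hc.2
  have hnoB : ∀ k, s < k → k ≤ i → ¬ (l ≤ F.B k ∧ F.B k ≤ r) := by
    intro k hk hk2 hc
    exact F.swap.touch_not_strip (i := k) (by omega) (by omega)
      (hall (k - 1) (by omega) (by omega)) (hall k (by omega) hk2) hc.1 hc.2
  refine ⟨l, r, s, hrec, ?_, ?_, ?_, ?_⟩
  · intro a ha
    obtain ⟨p1, p2, p3, p4, p5⟩ := ha
    have h3 : i < a := by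
      by_contra h4
      exact hnoA a p1 (by omega) ⟨p3, p4⟩
    have hU : Up M F.A l r i a := ⟨h3, p2, p3, p4, fun k hk hk2 => p5 k (by omega) hk2⟩
    exact ⟨l, r, i, a, h1, by omega, le_refl _, h3, hrM, p2, p3, p4, by omega, le_refl _,
      F.up_FB hS hU⟩
  · intro a ha
    obtain ⟨p1, p3, p4, p5⟩ := ha
    have hU : Dn F.A l r i a := by
      refine ⟨by omega, p3, p4, fun k hk hk2 => ?_⟩
      by_cases h4 : k ≤ s
      · exact p5 k hk h4
      · exact hnoA k (by omega) hk2
    exact ⟨l, r, a, i + 1, h1, by omega, by omega, by omega, hrM, hi, p3, p4, le_refl _,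
      by omega, F.dn_FB' hS hU⟩
  · intro a ha
    obtain ⟨p1, p2, p3, p4, p5⟩ := ha
    have h3 : i < a := by
      by_contra h4
      exact hnoB a p1 (by omega) ⟨p3, p4⟩
    have hU : Up M F.B l r i a := ⟨h3, p2, p3, p4, fun k hk hk2 => p5 k (by omega) hk2⟩
    exact ⟨l, r, i, a, h1, by omega, le_refl _, h3, hrM, p2, p3, p4, by omega, le_refl _,
      F.up_FB' hS hU⟩
  · intro a ha
    obtain ⟨p1, p3, p4, p5⟩ := ha
    have hU : Dn F.B l r i a := by
      refine ⟨by omega, p3, p4, fun k hk hk2 => ?_⟩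
      by_cases h4 : k ≤ s
      · exact p5 k hk h4
      · exact hnoB k (by omega) hk2
    exact ⟨l, r, a, i + 1, h1, by omega, by omega, by omega, hrM, hi, p3, p4, le_refl _,
      by omega, F.dn_FB hS hU⟩

end Fr

end Pool.Agent.Helper68.PY
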